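import Pool.Agent.TH814.GS.Pairs

set_option autoImplicit false

/-!
Tuples whose coordinates and values of `Γ` generate a field of transcendence degree at most two.
-/

namespace Pool.Agent.TH814.GS

open Filter Topology Set
open scoped Polynomial

variable {F : Type} [Field F] [Algebra F ℂ]

lemma option_eval (z a : ℂ) (Q : MvPolynomial (Option (Fin 2)) F) :
    MvPolynomial.aeval (fun o : Option (Fin 2) => o.elim a ![z, (Complex.Gamma z)⁻¹]) Q =
      (MvPolynomial.optionEquivLeft F (Fin 2) Q).eval₂ (ez F z) a := by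
  have h : (MvPolynomial.aeval (fun o : Option (Fin 2) => o.elim a ![z, (Complex.Gamma z)⁻¹]) :
      MvPolynomial (Option (Fin 2)) F →ₐ[F] ℂ).toRingHom =
      (Polynomial.eval₂RingHom (ez F z) a).comp
        (MvPolynomial.optionEquivLeft F (Fin 2)).toRingEquiv.toRingHom := by
    apply MvPolynomial.ringHom_ext
    · intro r
      simp [ez_eq]
    · intro i
      rcases i with _ | i
      · simp
      · simp [ez_eq]
  exact congrArg (fun φ : MvPolynomial (Option (Fin 2)) F →+* ℂ => φ Q) h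

lemma rel_of_trdeg (K : IntermediateField F ℂ) (hK : Algebra.trdeg F K ≤ 2) {z a : ℂ}
    (hz : z ∈ K) (hGz : Complex.Gamma z ∈ K) (ha : a ∈ K) :
    ∃ P : (MvPolynomial (Fin 2) F)[X], P ≠ 0 ∧ P.eval₂ (ez F z) a = 0 := by
  have hGz' : (Complex.Gamma z)⁻¹ ∈ K := K.inv_mem hGz
  set v : Option (Fin 2) → K := fun o => o.elim ⟨a, ha⟩ ![⟨z, hz⟩, ⟨(Complex.Gamma z)⁻¹, hGz'⟩]
    with hv
  have h1 : ¬ AlgebraicIndependent F v := by
    intro h
    have h2 := h.lift_cardinalMk_le_trdeg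
    have h3 : Cardinal.lift.{0} (Cardinal.mk (Option (Fin 2))) = 3 := by
      simp
    rw [Cardinal.lift_id, Cardinal.lift_id] at h2
    rw [Cardinal.lift_id] at h3
    rw [h3] at h2
    have h4 := h2.trans hK
    norm_num at h4
  rw [algebraicIndependent_iff] at h1
  push Not at h1
  obtain ⟨Q, hQ, hQ0⟩ := h1
  refine ⟨MvPolynomial.optionEquivLeft F (Fin 2) Q, ?_, ?_⟩
  · intro h0
    exact hQ0 ((map_eq_zero_iff _ (MvPolynomial.optionEquivLeft F (Fin 2)).injective).1 h0)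
  · rw [← option_eval]
    have h2 : (K.val.comp (MvPolynomial.aeval v)) Q = 0 := by
      rw [AlgHom.comp_apply, hQ, map_zero]
    rw [MvPolynomial.comp_aeval] at h2
    have h3 : (fun o : Option (Fin 2) => o.elim a ![z, (Complex.Gamma z)⁻¹]) =
        fun i => K.val (v i) := by
      funext o
      rcases o with _ | o
      · rfl
      · fin_cases o <;> rfl
    rw [h3]
    exact h2

/-- the pairs -/
def SS (F : Type) [Field F] [Algebra F ℂ] : Set (ℂ × ℂ) :=
  {p | p.1 ∉ NN F ∧ p.2 ∉ NN F ∧ (∀ m : ℤ, p.2 ≠ p.1 + m) ∧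
    ∃ K : IntermediateField F ℂ, Algebra.trdeg F K ≤ 2 ∧ p.1 ∈ K ∧ p.2 ∈ K ∧
      Complex.Gamma p.1 ∈ K ∧ Complex.Gamma p.2 ∈ K}

lemma charZero_of (F : Type) [Field F] [Algebra F ℂ] : CharZero F := by
  refine ⟨fun m n h => ?_⟩
  have h1 := congrArg (algebraMap F ℂ) h
  rw [map_natCast, map_natCast] at h1
  exact_mod_cast h1

omit [Algebra F ℂ] in
lemma poly_countable [Countable F] : Countable ((MvPolynomial (Fin 2) F)[X]) := by
  have h0 : Countable (MvPolynomial (Fin 2) F) := mv_countable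
  rw [← Cardinal.mk_le_aleph0_iff]
  refine (Polynomial.cardinalMk_le_max).trans ?_
  exact max_le (Cardinal.mk_le_aleph0_iff.2 h0) le_rfl

lemma SS_swap {p : ℂ × ℂ} (h : p ∈ SS F) : p.swap ∈ SS F := by
  obtain ⟨h1, h2, h3, K, h4, h5, h6, h7, h8⟩ := h
  refine ⟨h2, h1, fun m hm => ?_, K, h4, h6, h5, h8, h7⟩
  apply h3 (-m)
  simp only [Prod.fst_swap, Prod.snd_swap] at hm
  rw [hm]
  push_cast
  ring

lemma SS_mem {p : ℂ × ℂ} (h : p ∈ SS F) (h0 : p.1 ∉ C0 F) :
    ∃ P₁ P₂ : (MvPolynomial (Fin 2) F)[X], P₁ ≠ 0 ∧ P₂ ≠ 0 ∧ p ∈ EE2 P₁ P₂ := by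
  have : CharZero F := charZero_of F
  obtain ⟨h1, h2, h3, K, h4, h5, h6, h7, h8⟩ := h
  obtain ⟨P₁, a1, a2, a3⟩ := simple_root (ez F p.1) (ez_inj h0) (rel_of_trdeg K h4 h5 h7 h6)
  obtain ⟨P₂, b1, b2, b3⟩ := simple_root (ez F p.1) (ez_inj h0) (rel_of_trdeg K h4 h5 h7 h8)
  refine ⟨P₁, P₂, a1, b1, ?_, ?_, ?_, ?_, h2, h3⟩
  · rw [cx_eval]
    exact a2
  · have : Polynomial.derivative (cx P₁) = cx (Polynomial.derivative P₁) := by
      unfold cx
      rw [Polynomial.derivative_map]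
    rw [this, cx_eval]
    exact a3
  · rw [cx_eval]
    exact b2
  · have : Polynomial.derivative (cx P₂) = cx (Polynomial.derivative P₂) := by
      unfold cx
      rw [Polynomial.derivative_map]
    rw [this, cx_eval]
    exact b3

theorem SS_countable [Countable F] : (SS F).Countable := by
  have hPc : Countable ((MvPolynomial (Fin 2) F)[X]) := poly_countable
  set T : Set (ℂ × ℂ) := ⋃ q : {P : (MvPolynomial (Fin 2) F)[X] // P ≠ 0} ×
    {P : (MvPolynomial (Fin 2) F)[X] // P ≠ 0}, EE2 q.1.1 q.2.1 with hT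
  have hTc : T.Countable := countable_iUnion (fun q => EE2_countable q.1.2 q.2.2)
  have h1 : SS F ⊆ (C0 F ×ˢ C0 F) ∪ (T ∪ Prod.swap '' T) := by
    intro p hp
    by_cases h2 : p.1 ∈ C0 F
    · by_cases h3 : p.2 ∈ C0 F
      · exact Or.inl ⟨h2, h3⟩
      · right; right
        obtain ⟨P₁, P₂, a1, a2, a3⟩ := SS_mem (SS_swap hp) h3
        exact ⟨p.swap, mem_iUnion.2 ⟨(⟨P₁, a1⟩, ⟨P₂, a2⟩), a3⟩, Prod.swap_swap p⟩
    · right; left
      obtain ⟨P₁, P₂, a1, a2, a3⟩ := SS_mem hp h2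
      exact mem_iUnion.2 ⟨(⟨P₁, a1⟩, ⟨P₂, a2⟩), a3⟩
  exact ((C0_countable.prod C0_countable).union (hTc.union (hTc.image _))).mono h1

theorem tuples_countable [Countable F] (n : ℕ) :
    {z : Fin n → ℂ | (∃ i j, i ≠ j ∧ z i ∉ NN F ∧ z j ∉ NN F) ∧
      (∀ i j, i ≠ j → ∀ m : ℤ, z i ≠ z j + m) ∧
      Algebra.trdeg F (IntermediateField.adjoin F
        (Set.range z ∪ Set.range fun i => Complex.Gamma (z i))) ≤ 2}.Countable := by
  have hN : (NN F).Countable := (Algebraic.countable F ℂ).mono (fun z hz => hz.1)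
  have hS : (Prod.fst '' SS F).Countable := SS_countable.image _
  refine (Set.countable_pi (s := fun _ : Fin n => NN F ∪ Prod.fst '' SS F)
    (fun _ => hN.union hS)).mono ?_
  rintro z ⟨⟨i, j, hij, hi, hj⟩, hz, htr⟩ k
  by_cases hk : z k ∈ NN F
  · exact Or.inl hk
  · right
    obtain ⟨k', hkk', hk'⟩ : ∃ k', k' ≠ k ∧ z k' ∉ NN F := by
      by_cases h : i = k
      · exact ⟨j, by rw [← h]; exact hij.symm, hj⟩
      · exact ⟨i, h, hi⟩
    refine ⟨(z k, z k'), ⟨hk, hk', hz k' k hkk', _, htr, ?_, ?_, ?_, ?_⟩, rfl⟩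
    · exact IntermediateField.subset_adjoin _ _ (Or.inl ⟨k, rfl⟩)
    · exact IntermediateField.subset_adjoin _ _ (Or.inl ⟨k', rfl⟩)
    · exact IntermediateField.subset_adjoin _ _ (Or.inr ⟨k, rfl⟩)
    · exact IntermediateField.subset_adjoin _ _ (Or.inr ⟨k', rfl⟩)

end Pool.Agent.TH814.GS
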