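import Pool.Agent.TH814.GS.Rigid

set_option autoImplicit false

/-!
Values of `Γ` at an algebraic function tending to infinity in the left half plane.
-/

namespace Pool.Agent.TH814.GS

open Filter Topology Asymptotics Set Pool.Agent.H401R2

/-- norm version of the nonexistence of logarithms -/
lemma Alg.nl_norm {h : ℝ → ℂ} (H : Alg h) {l : ℝ}
    (hl : Tendsto (fun x => ‖h x‖ * Real.log x) atTop (𝓝 l)) : l = 0 := by
  rcases H.dich with h1 | ⟨a, b, c, hc, h1⟩
  · refine tendsto_nhds_unique hl ?_
    refine Tendsto.congr' ?_ tendsto_const_nhds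
    filter_upwards [h1] with x hx
    rw [hx, norm_zero, zero_mul]
  · have h2 : Tendsto (fun x => mon a b x * Real.log x) atTop (𝓝 (l / ‖c‖)) := by
      have h2 := hl.div (Tendsto.norm h1) (norm_ne_zero_iff.2 hc)
      refine h2.congr' ?_
      filter_upwards [eventually_gt_atTop 1, h1.eventually_ne hc] with x hx hx2
      have hx0 : 0 < x := by linarith
      have hm := mon_pos (a := a) (b := b) hx0
      have hlog := Real.log_pos hx
      simp only [Pi.div_apply]
      rw [norm_div, Complex.norm_real, Real.norm_of_nonneg hm.le]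
      have := norm_ne_zero_iff.2 hx2
      field_simp
    have hc' : ‖c‖ ≠ 0 := norm_ne_zero_iff.2 hc
    rcases Big.trichotomy (a : ℝ) (b : ℝ) with h3 | h3 | h3
    · exact absurd h2 (not_tendsto_nhds_of_tendsto_atTop (mon_log_atTop (Or.inl h3)) _)
    · have h4 := tendsto_nhds_unique h2 (mon_log_zero h3)
      rcases div_eq_zero_iff.1 h4 with h5 | h5
      · exact h5
      · exact absurd h5 hc'
    · exact absurd h2 (not_tendsto_nhds_of_tendsto_atTop (mon_log_atTop (Or.inr h3)) _)

lemma sin_form (z : ℂ) : Complex.sin (Real.pi * z) = Complex.I / 2 *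
    Complex.exp (-(Complex.I * Real.pi * z)) * (1 - Complex.exp (2 * Real.pi * Complex.I * z)) := by
  have h1 : Complex.exp (2 * Real.pi * Complex.I * z) =
      Complex.exp (Complex.I * Real.pi * z) * Complex.exp (Complex.I * Real.pi * z) := by
    rw [← Complex.exp_add]
    congr 1
    ring
  have h2 : Complex.exp (-(Complex.I * Real.pi * z)) * Complex.exp (Complex.I * Real.pi * z) = 1 := by
    rw [← Complex.exp_add, neg_add_cancel, Complex.exp_zero]
  rw [Complex.sin]
  have h3 : -(Real.pi * z) * Complex.I = -(Complex.I * Real.pi * z) := by ring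
  have h4 : (Real.pi * z) * Complex.I = Complex.I * Real.pi * z := by ring
  rw [h3, h4, h1]
  linear_combination ((Complex.I / 2) * Complex.exp (Complex.I * Real.pi * z)) * h2

/-- growth of the logarithm of the norm -/
lemma log_norm {X : ℝ → ℂ} {a b : ℝ} {c : ℂ} (H : LT X a b c) (hc : c ≠ 0) :
    Tendsto (fun x => Real.log ‖X x‖ - Real.log (mon a b x)) atTop (𝓝 (Real.log ‖c‖)) := by
  have h1 := (Real.continuousAt_log (norm_ne_zero_iff.2 hc)).tendsto.comp (Tendsto.norm H)
  refine h1.congr' ?_
  filter_upwards [eventually_gt_atTop 0, H.eventually_ne hc] with x hx hx2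
  simp only [Function.comp_apply]
  rw [norm_div, Complex.norm_real, Real.norm_of_nonneg (mon_pos hx).le,
    Real.log_div (norm_ne_zero_iff.2 hx2) (mon_pos hx).ne']

/-- the case of positive imaginary part -/
lemma left_pos {X G : ℝ → ℂ} (hX : Alg X) (hGA : Alg G)
    (hre : ∀ᶠ x in atTop, 0 < (X x).re) (him : ∀ᶠ x in atTop, 0 < (X x).im)
    (hinf : Tendsto (fun x => ‖X x‖) atTop atTop)
    (hE : ∀ᶠ x in atTop, G x * X x * Complex.Gamma (X x) * Complex.sin (Real.pi * X x) =
      -Real.pi) : False := by
  have hpi : ((Real.pi : ℝ) : ℂ) ≠ 0 := Complex.ofReal_ne_zero.2 Real.pi_ne_zero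
  have hG0 : ∀ᶠ x in atTop, G x ≠ 0 := by
    filter_upwards [hE] with x hx h0
    rw [h0, zero_mul, zero_mul, zero_mul] at hx
    exact neg_ne_zero.2 hpi hx.symm
  obtain ⟨s, r, c, hc, hlt⟩ : ∃ (a b : ℚ) (c : ℂ), c ≠ 0 ∧ LT G a b c := by
    rcases hGA.dich with h | h
    · obtain ⟨x, h1, h2⟩ := (h.and hG0).exists
      exact absurd h1 h2
    · exact h
  have hst := stir_tendsto (hre.mono fun x hx => hx.le) hinf
  have hsl : ∀ᶠ x in atTop, X x ∈ Complex.slitPlane := hre.mono fun x hx => Or.inl hx
  have hnorm : ∀ᶠ x in atTop, ‖Complex.exp (2 * Real.pi * Complex.I * X x)‖ < 1 := by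
    filter_upwards [him] with x hx
    rw [Complex.norm_exp, Real.exp_lt_one_iff]
    have : (2 * Real.pi * Complex.I * X x).re = -(2 * Real.pi * (X x).im) := by
      simp [Complex.mul_re, Complex.mul_im]
    rw [this]
    have := mul_pos Real.two_pi_pos hx
    linarith
  have hsl2 : ∀ᶠ x in atTop, 1 - Complex.exp (2 * Real.pi * Complex.I * X x) ∈
      Complex.slitPlane := by
    filter_upwards [hnorm] with x hx
    left
    rw [Complex.sub_re, Complex.one_re]
    have := Complex.re_le_norm (Complex.exp (2 * Real.pi * Complex.I * X x))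
    linarith
  obtain ⟨κ, hκ⟩ := tendsto_of_exp (a := 2 * Real.pi * Complex.I / (c * ((√(2 * Real.pi) : ℝ) : ℂ)))
    (f := fun x => phi (X x) + Complex.log (X x) - Complex.I * Real.pi * X x +
      Complex.log (1 - Complex.exp (2 * Real.pi * Complex.I * X x)) +
      ((Real.log (mon s r x) : ℝ) : ℂ))
    (by
      have e1 : ECont (fun x => phi (X x)) :=
        ((hX.1.sub (ECont_of_cont continuous_const)).mul (hX.1.clog hsl)).sub hX.1
      have e2 : ECont (fun x => Complex.I * Real.pi * X x) :=
        (ECont_of_cont continuous_const).mul hX.1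
      have e3 : ECont (fun x => 1 - Complex.exp (2 * Real.pi * Complex.I * X x)) := by
        obtain ⟨A, hA⟩ := hX.1
        refine ⟨A, ?_⟩
        have : Continuous (fun z : ℂ => 1 - Complex.exp (2 * Real.pi * Complex.I * z)) := by
          fun_prop
        exact this.comp_continuousOn hA
      exact (((e1.add (hX.1.clog hsl)).sub e2).add (e3.clog hsl2)).add (ECont_logmon s r))
    (by
      apply div_ne_zero
      · exact mul_ne_zero (mul_ne_zero two_ne_zero hpi) Complex.I_ne_zero
      · exact mul_ne_zero hc sqrt_ne)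
    (by
      refine Tendsto.congr' ?_ ((tendsto_const_nhds (x := 2 * Real.pi * Complex.I)).div
        (Tendsto.mul hlt hst) (mul_ne_zero hc sqrt_ne))
      filter_upwards [hE, hG0, hsl, hsl2, hst.eventually_ne sqrt_ne, eventually_gt_atTop 0]
        with x h1 h2 h3 h4 h5 h6
      have h7 : ((mon s r x : ℝ) : ℂ) = Complex.exp ((Real.log (mon s r x) : ℝ) : ℂ) := by
        rw [← Complex.ofReal_exp, Real.exp_log (mon_pos h6)]
      have h8 : Complex.Gamma (X x) = sA (X x) * Complex.exp (phi (X x)) := by
        rw [sA_eq, mul_assoc, ← Complex.exp_add, neg_add_cancel, Complex.exp_zero, mul_one]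
      have h9 := monc_ne (a := s) (b := r) h6
      simp only [Pi.div_apply]
      rw [Complex.exp_add, Complex.exp_add, Complex.exp_sub, Complex.exp_add,
        Complex.exp_log (Complex.slitPlane_ne_zero h3),
        Complex.exp_log (Complex.slitPlane_ne_zero h4), ← h7]
      rw [h8, sin_form, Complex.exp_neg] at h1
      have h10 := Complex.exp_ne_zero (Complex.I * Real.pi * X x)
      have hI : Complex.I * Complex.I = -1 := Complex.I_mul_I
      generalize Complex.exp (Complex.I * Real.pi * X x) = E₁ at h1 h10 ⊢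
      generalize Complex.exp (2 * Real.pi * Complex.I * X x) = E₂ at h1 ⊢
      field_simp
      field_simp at h1
      linear_combination (Complex.I) * h1 - (G x * X x * sA (X x) * Complex.exp (phi (X x)) *
        (1 - E₂)) * hI)
  -- imaginary parts
  have hκi := (Complex.continuous_im.tendsto κ).comp hκ
  have hNinv : Tendsto (fun x => ‖X x‖⁻¹) atTop (𝓝 0) := tendsto_inv_atTop_zero.comp hinf
  have hlogN : Tendsto (fun x => Real.log ‖X x‖) atTop atTop := Real.tendsto_log_atTop.comp hinf
  set θ : ℝ → ℝ := fun x => (X x).arg with hθ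
  have hθb : ∀ᶠ x in atTop, 0 < θ x ∧ θ x < Real.pi / 2 := by
    filter_upwards [hre, him] with x h1 h2
    constructor
    · rcases (Complex.arg_nonneg_iff.2 h2.le).lt_or_eq with h3 | h3
      · exact h3
      · exfalso
        have := (Complex.arg_eq_zero_iff.1 h3.symm).2
        linarith
    · exact Complex.arg_lt_pi_div_two_iff.2 (Or.inl h1)
  have h1 : Tendsto (fun x => (X x).im / ‖X x‖ * (Real.log ‖X x‖ - 1) +
      (X x).re / ‖X x‖ * (θ x - Real.pi)) atTop (𝓝 0) := by
    have e1 := hκi.mul hNinv
    rw [mul_zero] at e1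
    have e2 : Tendsto (fun x => θ x / 2 * ‖X x‖⁻¹) atTop (𝓝 0) := by
      have e3 : Tendsto (fun x => Real.pi * ‖X x‖⁻¹) atTop (𝓝 0) := by
        simpa using hNinv.const_mul Real.pi
      refine squeeze_zero_norm' ?_ e3
      filter_upwards [hθb] with x hx
      rw [norm_mul, norm_inv, norm_norm, Real.norm_eq_abs, abs_of_nonneg (by linarith [hx.1])]
      have := Real.pi_pos
      exact mul_le_mul_of_nonneg_right (by linarith [hx.2]) (by positivity)
    have e4 : Tendsto (fun x => (Complex.log (1 - Complex.exp (2 * Real.pi * Complex.I *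
        X x))).im * ‖X x‖⁻¹) atTop (𝓝 0) := by
      have e3 : Tendsto (fun x => Real.pi * ‖X x‖⁻¹) atTop (𝓝 0) := by
        simpa using hNinv.const_mul Real.pi
      refine squeeze_zero_norm (fun x => ?_) e3
      rw [norm_mul, norm_inv, norm_norm, Real.norm_eq_abs]
      refine mul_le_mul_of_nonneg_right ?_ (by positivity)
      rw [Complex.log_im]
      exact Complex.abs_arg_le_pi _
    have e5 := (e1.sub e2).sub e4
    rw [sub_zero, sub_zero] at e5
    refine e5.congr' ?_
    filter_upwards [hinf.eventually_gt_atTop 0] with x hx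
    have f1 : (phi (X x)).im = ((X x).re - 1/2) * θ x + (X x).im * Real.log ‖X x‖ - (X x).im := by
      rw [phi, Complex.sub_im, Complex.mul_im, Complex.log_im, Complex.log_re]
      simp [hθ]
    have f2 : (Complex.I * Real.pi * X x).im = Real.pi * (X x).re := by
      simp [Complex.mul_im, Complex.mul_re]
    simp only [Function.comp_apply]
    rw [Complex.add_im, Complex.add_im, Complex.sub_im, Complex.add_im, f1, f2,
      Complex.ofReal_im, Complex.log_im (X x)]
    have : (X x).arg = θ x := rfl
    rw [this]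
    field_simp
    ring
  have hABb : ∀ᶠ x in atTop, 0 < (X x).im / ‖X x‖ ∧ 0 < (X x).re / ‖X x‖ ∧
      (X x).re / ‖X x‖ ≤ 1 := by
    filter_upwards [hre, him, hinf.eventually_gt_atTop 0] with x h2 h3 h4
    refine ⟨div_pos h3 h4, div_pos h2 h4, ?_⟩
    rw [div_le_one h4]
    exact Complex.re_le_norm _
  have hB0 : Tendsto (fun x => (X x).im / ‖X x‖) atTop (𝓝 0) := by
    have h2 : Tendsto (fun x => (1 + Real.pi) * (Real.log ‖X x‖ - 1)⁻¹) atTop (𝓝 0) := by
      have h3 : Tendsto (fun x => Real.log ‖X x‖ - 1) atTop atTop :=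
        tendsto_atTop_add_const_right _ _ hlogN
      simpa using (tendsto_inv_atTop_zero.comp h3).const_mul (1 + Real.pi)
    refine squeeze_zero' (hABb.mono fun x hx => hx.1.le) ?_ h2
    filter_upwards [hABb, hθb, h1.eventually (gt_mem_nhds one_pos),
      hlogN.eventually_gt_atTop 1] with x h3 h4 h5 h6
    rw [← div_eq_mul_inv, le_div_iff₀ (by linarith)]
    have h7 : (X x).re / ‖X x‖ * (Real.pi - θ x) ≤ 1 * Real.pi := by
      apply mul_le_mul h3.2.2 (by linarith [h4.1]) (by linarith [h4.2, Real.pi_pos]) zero_le_one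
    nlinarith
  have hθ0 : Tendsto θ atTop (𝓝 0) := by
    have h2 := (Real.continuous_arcsin.tendsto 0).comp hB0
    rw [Real.arcsin_zero] at h2
    refine h2.congr' ?_
    filter_upwards [hre] with x hx
    simp only [Function.comp_apply, hθ]
    rw [Complex.arg_of_re_nonneg hx.le]
  have hA1 : Tendsto (fun x => (X x).re / ‖X x‖) atTop (𝓝 1) := by
    have h2 := (Real.continuous_cos.tendsto 0).comp hθ0
    rw [Real.cos_zero] at h2
    refine h2.congr' ?_
    filter_upwards [hsl] with x hx
    simp only [Function.comp_apply, hθ]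
    rw [Complex.cos_arg (Complex.slitPlane_ne_zero hx)]
  have hBlog : Tendsto (fun x => (X x).im / ‖X x‖ * Real.log ‖X x‖) atTop (𝓝 Real.pi) := by
    have h2 := (h1.sub (hA1.mul (hθ0.sub_const Real.pi))).add hB0
    have h3 : (0:ℝ) - 1 * (0 - Real.pi) + 0 = Real.pi := by ring
    rw [h3] at h2
    refine h2.congr (fun x => ?_)
    ring
  have hX0 : ∀ᶠ x in atTop, X x ≠ 0 := hsl.mono fun x hx => Complex.slitPlane_ne_zero hx
  have hHA : Alg (fun x => ((X x).im : ℂ) / X x) := hX.im.div hX
  have hHn : ∀ᶠ x in atTop, ‖((X x).im : ℂ) / X x‖ = (X x).im / ‖X x‖ := by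
    filter_upwards [him] with x hx
    rw [norm_div, Complex.norm_real, Real.norm_of_nonneg hx.le]
  obtain ⟨a, b, e, he, hltX⟩ : ∃ (a b : ℚ) (c : ℂ), c ≠ 0 ∧ LT X a b c := by
    rcases hX.dich with h | h
    · obtain ⟨x, h1, h2⟩ := (h.and hX0).exists
      exact absurd h1 h2
    · exact h
  have hbig : Big (a : ℝ) (b : ℝ) := by
    rcases Big.trichotomy (a : ℝ) (b : ℝ) with h3 | h3 | h3
    · exact h3
    · exfalso
      exact not_tendsto_nhds_of_tendsto_atTop hinf _ (hltX.tendsto_zero h3).norm
    · exfalso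
      unfold LT at hltX
      rw [h3.1, h3.2] at hltX
      simp only [mon_zero, Complex.ofReal_one, div_one] at hltX
      exact not_tendsto_nhds_of_tendsto_atTop hinf _ hltX.norm
  have hln := log_norm hltX he
  rcases hbig with hb | ⟨hb, ha⟩
  · -- exponential growth
    have h2 : Tendsto (fun x => Real.log ‖X x‖ / (x * Real.log x)) atTop (𝓝 b) := by
      have hxl : Tendsto (fun x : ℝ => (x * Real.log x)⁻¹) atTop (𝓝 0) :=
        tendsto_inv_atTop_zero.comp (tendsto_id.atTop_mul_atTop₀ Real.tendsto_log_atTop)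
      have h3 := ((hln.mul hxl).add ((tendsto_inv_atTop_zero (𝕜 := ℝ)).const_mul (a:ℝ))).add
        (log_gamma_div.const_mul (b:ℝ))
      simp only [mul_zero, zero_add, mul_one] at h3
      refine h3.congr' ?_
      filter_upwards [eventually_gt_atTop 1] with x hx
      have hl := (Real.log_pos hx).ne'
      have hx0 : 0 < x := by linarith
      rw [log_mon hx0]
      field_simp
      ring
    have h3 : Tendsto (fun x => ‖((X x).im : ℂ) / X x * x‖ * Real.log x) atTop
        (𝓝 (Real.pi / b)) := by
      refine (hBlog.div h2 hb.ne').congr' ?_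
      filter_upwards [hHn, eventually_gt_atTop 1, hlogN.eventually_gt_atTop 0] with x hx hx1 hl
      have hx0 : 0 < x := by linarith
      simp only [Pi.div_apply]
      rw [norm_mul, hx, Complex.norm_real, Real.norm_of_nonneg hx0.le]
      have hl' := (Real.log_pos hx1).ne'
      field_simp
    have h4 := (hHA.mul Alg_x).nl_norm h3
    exact (div_pos Real.pi_pos hb).ne' h4
  · have h2 : Tendsto (fun x => Real.log ‖X x‖ / Real.log x) atTop (𝓝 a) := by
      have hxl : Tendsto (fun x : ℝ => (Real.log x)⁻¹) atTop (𝓝 0) :=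
        tendsto_inv_atTop_zero.comp Real.tendsto_log_atTop
      have h3 := (hln.mul hxl).add_const (a:ℝ)
      simp only [mul_zero, zero_add] at h3
      refine h3.congr' ?_
      filter_upwards [eventually_gt_atTop 1] with x hx
      have hl := (Real.log_pos hx).ne'
      have hx0 : 0 < x := by linarith
      rw [log_mon hx0, hb]
      field_simp
      ring
    have h3 : Tendsto (fun x => ‖((X x).im : ℂ) / X x‖ * Real.log x) atTop
        (𝓝 (Real.pi / a)) := by
      refine (hBlog.div h2 ha.ne').congr' ?_
      filter_upwards [hHn, eventually_gt_atTop 1, hlogN.eventually_gt_atTop 0] with x hx hx1 hl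
      have hx0 : 0 < x := by linarith
      simp only [Pi.div_apply]
      rw [hx]
      have hl' := (Real.log_pos hx1).ne'
      field_simp
    have h4 := hHA.nl_norm h3
    exact (div_pos Real.pi_pos ha).ne' h4

/-- the left half plane case -/
theorem left_main {Y G : ℝ → ℂ} (hY : Alg Y) (hGA : Alg G)
    (hre : ∀ᶠ x in atTop, (Y x).re < 0) (hinf : Tendsto (fun x => ‖Y x‖) atTop atTop)
    (hG : ∀ᶠ x in atTop, G x * (Complex.Gamma (Y x))⁻¹ = 1) : False := by
  have hpi : ((Real.pi : ℝ) : ℂ) ≠ 0 := Complex.ofReal_ne_zero.2 Real.pi_ne_zero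
  set X : ℝ → ℂ := fun x => - Y x with hX
  have hXA : Alg X := hY.neg
  have hXre : ∀ᶠ x in atTop, 0 < (X x).re := by
    filter_upwards [hre] with x hx
    simp only [hX, Complex.neg_re]
    linarith
  have hXinf : Tendsto (fun x => ‖X x‖) atTop atTop := by
    simpa only [hX, norm_neg] using hinf
  have hE : ∀ᶠ x in atTop, G x * X x * Complex.Gamma (X x) * Complex.sin (Real.pi * X x) =
      -Real.pi := by
    filter_upwards [hG, hXre] with x h1 h2
    have hX0 : X x ≠ 0 := by
      intro h
      rw [h] at h2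
      simp at h2
    have h3 := Complex.Gamma_mul_Gamma_one_sub (Y x)
    have h4 : Complex.Gamma (1 - Y x) = X x * Complex.Gamma (X x) := by
      have : 1 - Y x = X x + 1 := by rw [hX]; ring
      rw [this, Complex.Gamma_add_one _ hX0]
    have hGX : Complex.Gamma (X x) ≠ 0 := Complex.Gamma_ne_zero_of_re_pos h2
    have hGY : Complex.Gamma (Y x) ≠ 0 := by
      intro h
      rw [h, inv_zero, mul_zero] at h1
      exact zero_ne_one h1
    have h5 : Complex.sin (Real.pi * Y x) = - Complex.sin (Real.pi * X x) := by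
      rw [hX, ← Complex.sin_neg]
      congr 1
      ring
    have h6 : G x = Complex.Gamma (Y x) := by
      field_simp at h1
      exact h1
    rw [h4, h5] at h3
    have hsin : Complex.sin (Real.pi * X x) ≠ 0 := by
      intro h
      rw [h, neg_zero, div_zero] at h3
      exact (mul_ne_zero hGY (mul_ne_zero hX0 hGX)) h3
    rw [h6]
    rw [eq_div_iff (neg_ne_zero.2 hsin)] at h3
    linear_combination -h3
  have hsin : ∀ᶠ x in atTop, Complex.sin (Real.pi * X x) ≠ 0 := by
    filter_upwards [hE] with x hx h0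
    rw [h0, mul_zero] at hx
    exact neg_ne_zero.2 hpi hx.symm
  rcases Alg.sign (f := fun x => (X x).im) hXA.im with h | h | h
  · -- real case
    obtain ⟨A, hA⟩ := hXA.1
    obtain ⟨B, hB⟩ := eventually_atTop.1 ((h.and (hsin.and hXre)).and (eventually_ge_atTop A))
    obtain ⟨n, hn⟩ := exists_nat_gt (X B).re
    have hreinf : Tendsto (fun x => (X x).re) atTop atTop := by
      refine hXinf.congr' ?_
      filter_upwards [h, hXre] with x h1 h2
      have h3 : X x = (((X x).re : ℝ) : ℂ) := Complex.ext (by simp) (by simp [h1])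
      conv_lhs => rw [h3]
      rw [Complex.norm_real, Real.norm_of_nonneg h2.le]
    obtain ⟨C, hC1, hC2⟩ := ((hreinf.eventually_gt_atTop (n:ℝ)).and (eventually_ge_atTop B)).exists
    have hcont : ContinuousOn (fun x => (X x).re) (Icc B C) :=
      (Complex.continuous_re.comp_continuousOn (hA.mono (fun x hx => (hB x hx.1).2)))
    obtain ⟨x, hx1, hx2⟩ := intermediate_value_Icc hC2 hcont ⟨hn.le, hC1.le⟩
    have h3 := hB x hx1.1
    apply h3.1.2.1
    have h4 : X x = (n : ℂ) := Complex.ext (by simpa using hx2) (by simpa using h3.1.1)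
    rw [h4, mul_comm]
    exact Complex.sin_nat_mul_pi n
  · exact left_pos hXA hGA hXre h hXinf hE
  · refine left_pos hXA.conj hGA.conj ?_ ?_ ?_ ?_
    · simpa using hXre
    · filter_upwards [h] with x hx
      simp only [Complex.conj_im]
      linarith
    · simpa using hXinf
    · filter_upwards [hE] with x hx
      have h1 := congrArg (starRingEnd ℂ) hx
      simp only [map_mul, map_neg, Complex.conj_ofReal] at h1
      rw [← Complex.Gamma_conj, ← Complex.sin_conj, map_mul, Complex.conj_ofReal] at h1
      exact h1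

end Pool.Agent.TH814.GS
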