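import Pool.Agent.TH814.GS.Fin
import Pool.Agent.TH814.GS.Left

set_option autoImplicit false

/-!
Values of `Γ` at algebraic functions: classification of the germs `Y` at infinity such that both
`Y` and `Γ(Y)` are algebraic over `ℂ(x, Γ(x))`.
-/

namespace Pool.Agent.TH814.GS

open Filter Topology Asymptotics Set

theorem core {Y G : ℝ → ℂ} (hY : Alg Y) (hG : Alg G)
    (h : ∀ᶠ x in atTop, G x * (Complex.Gamma (Y x))⁻¹ = 1) :
    (∃ c, ∀ᶠ x in atTop, Y x = c) ∨ ∃ s : ℚ, ∀ᶠ x : ℝ in atTop, Y x = x + s := by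
  have h' : ∀ᶠ x in atTop, Complex.Gamma (Y x) = G x := by
    filter_upwards [h] with x hx
    have hne : Complex.Gamma (Y x) ≠ 0 := by
      intro h0
      rw [h0, inv_zero, mul_zero] at hx
      exact zero_ne_one hx
    field_simp at hx
    exact hx.symm
  rcases hY.trich with ⟨c, hc⟩ | hinf
  · exact Or.inl ⟨c, fin_main hY hG hc h⟩
  · have hre : (∀ᶠ x in atTop, 0 ≤ (Y x).re) ∨ ∀ᶠ x in atTop, (Y x).re < 0 := by
      rcases Alg.sign (f := fun x => (Y x).re) hY.re with h1 | h1 | h1
      · exact Or.inl (h1.mono fun x hx => hx.ge)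
      · exact Or.inl (h1.mono fun x hx => hx.le)
      · exact Or.inr h1
    rcases hre with hre | hre
    · obtain ⟨s, hs⟩ := right_main hY hG hre hinf h'
      exact Or.inr ⟨s, rigid hY hG h' s hs⟩
    · exact (left_main hY hG hre hinf h).elim

end Pool.Agent.TH814.GS
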