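import Pool.Agent.TH814.GS.Sep2
import Pool.Agent.TH814.GS.Core

set_option autoImplicit false

/-!
Continuation of algebraic functions over `ℂ(z, Γ(z))` to the positive real axis, and the
classification of the functions `φ` such that `φ` and `Γ ∘ φ` are algebraic over `ℂ(z, Γ(z))`.
-/

namespace Pool.Agent.TH814.GS

open Filter Topology Set
open scoped Polynomial

lemma one_cont {Ω : Set ℂ} {f : ℂ → ℂ} {A : ℝ} {D : R2} (hΩ : IsOpen Ω)
    (hA : ∀ x : ℝ, A ≤ x → evc x D ≠ 0)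
    (hf : DifferentiableOn ℂ f Ω) (P : R2[X]) (hroot : ∀ t ∈ Ω, P.eval₂ (evc t) (f t) = 0)
    (hgood : ∀ w ∈ Wd A D, evc w (P.coeff P.natDegree) ≠ 0 ∧
        ∀ y : ℂ, P.eval₂ (evc w) y = 0 → (Polynomial.derivative P).eval₂ (evc w) y ≠ 0)
    (w₀ : ℂ) (hw₀ : w₀ ∈ Wd A D) (hw₀' : w₀ ∈ Ω) :
    ∃ Y : ℂ → ℂ, DifferentiableOn ℂ Y (Wd A D) ∧ (∀ᶠ w in 𝓝 w₀, Y w = f w) ∧
      ∀ w ∈ Wd A D, P.eval₂ (evc w) (Y w) = 0 := by
  have hc : ∀ k, DifferentiableOn ℂ (fun w => evc w (P.coeff k)) (Wd A D) :=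
    fun k => (evc_diff (P.coeff k)).differentiableOn
  obtain ⟨Y, hY1, hY2, hY3⟩ := Pool.Agent.W848.GF.lift (Wd A D) (A : ℂ) w₀ (f w₀) P.natDegree
    (fun k w => evc w (P.coeff k)) (Wd_open A D) (Wd_mem hA) (Wd_star A D) hw₀ hc
    (fun w hw => (hgood w hw).1)
    (fun w hw y hy => by
      have h2 := (hgood w hw).2 y (by rw [evp_sum]; exact hy)
      rw [evp_der] at h2
      exact h2)
    (by
      have := hroot _ hw₀'
      rw [evp_sum] at this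
      exact this)
  refine ⟨Y, hY1, ?_, ?_⟩
  · refine Pool.Agent.W848.GF.local_eq (d := P.natDegree) (c := fun k w => evc w (P.coeff k))
      (Wd_open A D) hc w₀ hw₀ Y f
      (hY1.continuousOn.continuousAt ((Wd_open A D).mem_nhds hw₀))
      (hf.continuousOn.continuousAt (hΩ.mem_nhds hw₀')) hY2 ?_ ?_ ?_
    · have h2 := (hgood w₀ hw₀).2 (Y w₀) (by rw [evp_sum]; exact hY3 w₀ hw₀)
      rw [evp_der] at h2
      exact h2
    · filter_upwards [(Wd_open A D).mem_nhds hw₀] with w hw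
      exact hY3 w hw
    · filter_upwards [hΩ.mem_nhds hw₀'] with w hw
      have := hroot _ hw
      rw [evp_sum] at this
      exact this
  · intro w hw
    rw [evp_sum]
    exact hY3 w hw

/-- identity theorem along the real axis -/
lemma ray_id {A : ℝ} {D : R2} (hA : ∀ x : ℝ, A ≤ x → evc x D ≠ 0) {f : ℂ → ℂ}
    (hf : DifferentiableOn ℂ f (Wd A D)) (h : ∀ᶠ x : ℝ in atTop, f x = 0) :
    ∀ w ∈ Wd A D, f w = 0 := by
  obtain ⟨B, hB⟩ := eventually_atTop.1 (h.and (eventually_ge_atTop A))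
  have hBA : A ≤ B := (hB B le_rfl).2
  refine (hf.analyticOnNhd (Wd_open A D)).eqOn_zero_of_preconnected_of_frequently_eq_zero
    (Wd_pre hA) (Wd_ray hA B hBA) ?_
  have h1 : Tendsto (fun x : ℝ => (x : ℂ)) (𝓝[>] B) (𝓝[≠] (B : ℂ)) := by
    apply tendsto_nhdsWithin_of_tendsto_nhds_of_eventually_within
    · exact (Complex.continuous_ofReal.tendsto B).mono_left nhdsWithin_le_nhds
    · filter_upwards [self_mem_nhdsWithin] with x hx
      have hx' : B < x := hx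
      simp only [mem_compl_iff, mem_singleton_iff]
      intro h2
      have : x = B := by exact_mod_cast h2
      linarith
  apply h1.frequently
  apply Eventually.frequently
  filter_upwards [self_mem_nhdsWithin] with x hx
  have hx' : B < x := hx
  exact (hB x hx'.le).1

lemma open_id {Ω : Set ℂ} (hΩ : IsOpen Ω) (hp : IsPreconnected Ω) {f : ℂ → ℂ}
    (hf : DifferentiableOn ℂ f Ω) {w₀ : ℂ} (hw : w₀ ∈ Ω) (h : ∀ᶠ w in 𝓝 w₀, f w = 0) :
    ∀ w ∈ Ω, f w = 0 :=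
  (hf.analyticOnNhd hΩ).eqOn_zero_of_preconnected_of_eventuallyEq_zero hp hw h

theorem classify {Ω : Set ℂ} (hΩ : IsOpen Ω) (hp : IsPreconnected Ω) (hne : Ω.Nonempty)
    {φ g : ℂ → ℂ} (hφ : DifferentiableOn ℂ φ Ω) (hg : DifferentiableOn ℂ g Ω)
    (hφa : ∃ Q : R2[X], Q ≠ 0 ∧ ∀ t ∈ Ω, Q.eval₂ (evc t) (φ t) = 0)
    (hga : ∃ Q : R2[X], Q ≠ 0 ∧ ∀ t ∈ Ω, Q.eval₂ (evc t) (g t) = 0)
    (h : ∀ t ∈ Ω, g t * (Complex.Gamma (φ t))⁻¹ = 1) :
    (∃ c, ∀ t ∈ Ω, φ t = c) ∨ ∃ s : ℚ, ∀ t ∈ Ω, φ t = t + s := by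
  obtain ⟨Q₁, hQ₁, hQ₁0⟩ := hφa
  obtain ⟨Q₂, hQ₂, hQ₂0⟩ := hga
  obtain ⟨P₁, D₁, hP₁, hD₁, hr₁, hg₁⟩ := sep2 hΩ hp hne hφ Q₁ hQ₁ hQ₁0
  obtain ⟨P₂, D₂, hP₂, hD₂, hr₂, hg₂⟩ := sep2 hΩ hp hne hg Q₂ hQ₂ hQ₂0
  have hD : D₁ * D₂ ≠ 0 := mul_ne_zero hD₁ hD₂
  obtain ⟨A, hA⟩ := eventually_atTop.1 (ev_ne hD)
  obtain ⟨w₀, hw₀, hw₀'⟩ := Wd_meets hD hA hΩ hne
  have hself : ∀ w ∈ Wd A (D₁ * D₂), evc w (D₁ * D₂) ≠ 0 := by
    intro w hw
    have := hw 1 ⟨zero_le_one, le_rfl⟩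
    rwa [Complex.ofReal_one, one_mul, add_sub_cancel] at this
  have hs₁ : ∀ w ∈ Wd A (D₁ * D₂), evc w D₁ ≠ 0 := by
    intro w hw
    have := hself w hw
    rw [map_mul] at this
    exact left_ne_zero_of_mul this
  have hs₂ : ∀ w ∈ Wd A (D₁ * D₂), evc w D₂ ≠ 0 := by
    intro w hw
    have := hself w hw
    rw [map_mul] at this
    exact right_ne_zero_of_mul this
  obtain ⟨Y, hY1, hY2, hY3⟩ := one_cont hΩ hA hφ P₁ hr₁ (fun w hw => hg₁ w (hs₁ w hw)) w₀ hw₀' hw₀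
  obtain ⟨G, hG1, hG2, hG3⟩ := one_cont hΩ hA hg P₂ hr₂ (fun w hw => hg₂ w (hs₂ w hw)) w₀ hw₀' hw₀
  have hW := Wd_open A (D₁ * D₂)
  have hpre := Wd_pre hA
  have hid : ∀ w ∈ Wd A (D₁ * D₂), G w * (Complex.Gamma (Y w))⁻¹ - 1 = 0 := by
    refine open_id hW hpre ?_ hw₀' ?_
    · refine (hG1.mul ?_).sub_const 1
      exact Complex.differentiable_one_div_Gamma.comp_differentiableOn hY1
    · filter_upwards [hY2, hG2, hΩ.mem_nhds hw₀] with w h1 h2 h3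
      rw [h1, h2, h w h3, sub_self]
  have hAlg : ∀ (F : ℂ → ℂ) (P : R2[X]), P ≠ 0 → DifferentiableOn ℂ F (Wd A (D₁ * D₂)) →
      (∀ w ∈ Wd A (D₁ * D₂), P.eval₂ (evc w) (F w) = 0) → Alg (fun x : ℝ => F x) := by
    intro F P hP hF hF0
    refine ⟨⟨A, ?_⟩, P, hP, ?_⟩
    · exact hF.continuousOn.comp Complex.continuous_ofReal.continuousOn
        (fun x hx => Wd_ray hA x hx)
    · filter_upwards [eventually_ge_atTop A] with x hx
      exact hF0 _ (Wd_ray hA x hx)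
  have hYA := hAlg Y P₁ hP₁ hY1 hY3
  have hGA := hAlg G P₂ hP₂ hG1 hG3
  rcases core hYA hGA (by
    filter_upwards [eventually_ge_atTop A] with x hx
    exact sub_eq_zero.1 (hid _ (Wd_ray hA x hx))) with ⟨c, hc⟩ | ⟨s, hs⟩
  · left
    refine ⟨c, fun t ht => ?_⟩
    have h1 := ray_id hA (hY1.sub_const c) (hc.mono fun x hx => sub_eq_zero.2 hx)
    have h2 := open_id hΩ hp (hφ.sub_const c) hw₀ (by
      filter_upwards [hY2, hW.mem_nhds hw₀'] with w h3 h4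
      rw [← h3]
      exact h1 w h4)
    exact sub_eq_zero.1 (h2 t ht)
  · right
    refine ⟨s, fun t ht => ?_⟩
    have h1 := ray_id (f := fun w => Y w - (w + s)) hA
      (hY1.sub (differentiable_id.add_const (s:ℂ)).differentiableOn)
      (hs.mono fun x hx => sub_eq_zero.2 hx)
    have h2 := open_id (f := fun w => φ w - (w + s)) hΩ hp
      (hφ.sub (differentiable_id.add_const (s:ℂ)).differentiableOn) hw₀ (by
      filter_upwards [hY2, hW.mem_nhds hw₀'] with w h3 h4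
      rw [← h3]
      exact h1 w h4)
    exact sub_eq_zero.1 (h2 t ht)

end Pool.Agent.TH814.GS
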