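import Mathlib

set_option autoImplicit false

/-!
Connectedness arguments for functions on a half line.
-/

namespace Pool.Agent.TH814.GS

open Filter Topology Set

/-- a function on the reals is eventually continuous -/
def ECont {E : Type*} [TopologicalSpace E] (f : ℝ → E) : Prop := ∃ A, ContinuousOn f (Ici A)

/-- a half line covered by finitely many disjoint closed sets is contained in one of them -/
lemma closed_cover {ι : Type*} (S : Finset ι) (A : ℝ) (F : ι → Set ℝ)
    (hF : ∀ i ∈ S, IsClosed (F i)) (hd : ∀ i ∈ S, ∀ j ∈ S, i ≠ j → Disjoint (F i) (F j))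
    (hc : ∀ x, A ≤ x → ∃ i ∈ S, x ∈ F i) : ∃ i ∈ S, ∀ x, A ≤ x → x ∈ F i := by
  classical
  obtain ⟨i, hi, hxi⟩ := hc A le_rfl
  refine ⟨i, hi, ?_⟩
  have hcl : IsClosed (⋃ j ∈ S.erase i, F j) := by
    apply isClosed_biUnion_finset
    intro j hj
    exact hF j (Finset.mem_of_mem_erase hj)
  have hpre : IsPreconnected (Ici A) := isPreconnected_Ici
  rw [isPreconnected_closed_iff] at hpre
  intro x hx
  by_contra hxF
  obtain ⟨y, hy, hy1, hy2⟩ := hpre (F i) (⋃ j ∈ S.erase i, F j) (hF i hi) hcl (by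
      intro y hy
      obtain ⟨j, hj, hyj⟩ := hc y hy
      by_cases hij : j = i
      · left
        rw [← hij]
        exact hyj
      · right
        simp only [mem_iUnion]
        exact ⟨j, Finset.mem_erase.2 ⟨hij, hj⟩, hyj⟩)
      ⟨A, le_refl A, hxi⟩ (by
        obtain ⟨j, hj, hyj⟩ := hc x hx
        refine ⟨x, hx, ?_⟩
        simp only [mem_iUnion]
        refine ⟨j, Finset.mem_erase.2 ⟨?_, hj⟩, hyj⟩
        rintro rfl
        exact hxF hyj)
  simp only [mem_iUnion] at hy2
  obtain ⟨j, hj, hyj⟩ := hy2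
  rw [Finset.mem_erase] at hj
  exact Set.disjoint_left.1 (hd i hi j hj.2 (Ne.symm hj.1)) hy1 hyj

/-- a continuous function approaching a finite set converges -/
lemma tendsto_of_finset {E : Type*} [MetricSpace E] (S : Finset E) {f : ℝ → E} (hf : ECont f)
    (h : ∀ ε > 0, ∀ᶠ x in atTop, ∃ s ∈ S, dist (f x) s < ε) :
    ∃ s ∈ S, Tendsto f atTop (𝓝 s) := by
  classical
  obtain ⟨A, hA⟩ := hf
  obtain ⟨δ, hδ, hsep⟩ : ∃ δ > 0, ∀ s ∈ S, ∀ t ∈ S, s ≠ t → 2 * δ ≤ dist s t := by
    have h1 : ∀ᶠ δ : ℝ in 𝓝[>] 0, ∀ p ∈ S ×ˢ S, p.1 ≠ p.2 → 2 * δ ≤ dist p.1 p.2 := by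
      rw [Filter.eventually_all_finset]
      intro p hp
      by_cases hpp : p.1 = p.2
      · simp [hpp]
      · have h2 : 0 < dist p.1 p.2 / 2 := by
          have := dist_pos.2 hpp
          linarith
        filter_upwards [nhdsWithin_le_nhds (Iio_mem_nhds h2)] with δ hδ _
        have : δ < dist p.1 p.2 / 2 := hδ
        linarith
    have h3 : ∀ᶠ δ : ℝ in 𝓝[>] 0, 0 < δ := self_mem_nhdsWithin
    obtain ⟨δ, h4, h5⟩ := (h1.and h3).exists
    refine ⟨δ, h5, fun s hs t ht hst => ?_⟩
    exact h4 (s, t) (Finset.mk_mem_product hs ht) hst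
  obtain ⟨B, hB⟩ := eventually_atTop.1 (h (δ / 2) (by linarith))
  set M := max A B
  obtain ⟨s, hs, hall⟩ := closed_cover S M (fun s => Ici M ∩ f ⁻¹' (Metric.closedBall s (δ / 2)))
    (by
      intro s _
      exact (hA.mono (Ici_subset_Ici.2 (le_max_left _ _))).preimage_isClosed_of_isClosed
        isClosed_Ici Metric.isClosed_closedBall)
    (by
      intro s hs t ht hst
      rw [Set.disjoint_left]
      rintro x ⟨-, hx⟩ ⟨-, hx'⟩
      have h1 : dist (f x) s ≤ δ / 2 := hx
      have h2 : dist (f x) t ≤ δ / 2 := hx'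
      have h3 := hsep s hs t ht hst
      have h4 := dist_triangle_left s t (f x)
      linarith)
    (by
      intro x hx
      obtain ⟨s, hs, hxs⟩ := hB x (le_trans (le_max_right _ _) hx)
      exact ⟨s, hs, hx, hxs.le⟩)
  refine ⟨s, hs, ?_⟩
  rw [Metric.tendsto_nhds]
  intro ε hε
  have h1 := h (min ε δ) (lt_min hε hδ)
  filter_upwards [h1, eventually_ge_atTop M] with x ⟨t, ht, hxt⟩ hx
  have h2 : dist (f x) s ≤ δ / 2 := (hall x hx).2
  have h3 : s = t := by
    by_contra hst
    have h4 := hsep s hs t ht hst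
    have h5 := dist_triangle_left s t (f x)
    have h6 := lt_of_lt_of_le hxt (min_le_right _ _)
    linarith
  rw [h3]
  exact lt_of_lt_of_le hxt (min_le_left _ _)

/-- a continuous function whose exponential converges converges -/
lemma tendsto_of_exp {f : ℝ → ℂ} (hf : ECont f) {a : ℂ} (ha : a ≠ 0)
    (h : Tendsto (fun x => Complex.exp (f x)) atTop (𝓝 a)) : ∃ b, Tendsto f atTop (𝓝 b) := by
  obtain ⟨A, hA⟩ := hf
  set g : ℝ → ℂ := fun x => f x - Complex.log a with hg
  have h1 : Tendsto (fun x => Complex.exp (g x)) atTop (𝓝 1) := by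
    have h2 := h.div_const a
    rw [div_self ha] at h2
    refine h2.congr (fun x => ?_)
    rw [hg]
    simp only
    rw [Complex.exp_sub, Complex.exp_log ha]
  have hsl : ∀ᶠ x in atTop, Complex.exp (g x) ∈ Complex.slitPlane :=
    h1.eventually (Complex.isOpen_slitPlane.mem_nhds Complex.one_mem_slitPlane)
  obtain ⟨B, hB⟩ := eventually_atTop.1 hsl
  set M := max A B
  have hgc : ContinuousOn g (Ici M) :=
    (hA.mono (Ici_subset_Ici.2 (le_max_left _ _))).sub continuousOn_const
  have hlc : ContinuousOn (fun x => g x - Complex.log (Complex.exp (g x))) (Ici M) := by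
    refine hgc.sub (ContinuousOn.clog ?_ ?_)
    · exact Complex.continuous_exp.comp_continuousOn hgc
    · intro x hx
      exact hB x (le_trans (le_max_right _ _) hx)
  have hcount : (Set.range (fun n : ℤ => (n : ℂ) * (2 * Real.pi * Complex.I))).Countable :=
    Set.countable_range _
  have hsub : (fun x => g x - Complex.log (Complex.exp (g x))) '' Ici M ⊆
      Set.range (fun n : ℤ => (n : ℂ) * (2 * Real.pi * Complex.I)) := by
    rintro _ ⟨x, -, rfl⟩
    have h3 : Complex.exp (g x - Complex.log (Complex.exp (g x))) = 1 := by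
      rw [Complex.exp_sub, Complex.exp_log (Complex.exp_ne_zero _), div_self (Complex.exp_ne_zero _)]
    obtain ⟨n, hn⟩ := Complex.exp_eq_one_iff.1 h3
    exact ⟨n, hn.symm⟩
  have hss := hcount.isTotallyDisconnected _ hsub ((isPreconnected_Ici).image _ hlc)
  refine ⟨(g M - Complex.log (Complex.exp (g M))) + Complex.log a, ?_⟩
  have h4 : Tendsto (fun x => Complex.log (Complex.exp (g x))) atTop (𝓝 0) := by
    have := (continuousAt_clog Complex.one_mem_slitPlane).tendsto.comp h1
    rwa [Complex.log_one] at this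
  have h5 := (h4.add_const (g M - Complex.log (Complex.exp (g M)))).add_const (Complex.log a)
  rw [zero_add] at h5
  refine h5.congr' ?_
  filter_upwards [eventually_ge_atTop M] with x hx
  have h6 := hss ⟨x, hx, rfl⟩ ⟨M, le_refl M, rfl⟩
  simp only at h6
  rw [← h6]
  simp only [hg]
  ring

end Pool.Agent.TH814.GS
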