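import Pool.Agent.TH814.GS.Main

set_option autoImplicit false

/-!
Pairs of numbers whose four values `z₁, z₂, Γ(z₁), Γ(z₂)` generate a field of transcendence degree
at most two.
-/

namespace Pool.Agent.TH814.GS

open Filter Topology Set
open scoped Polynomial

section

variable {F : Type} [Field F] [Algebra F ℂ]

/-- extension of scalars -/
noncomputable def cxr (F : Type) [Field F] [Algebra F ℂ] : MvPolynomial (Fin 2) F →+* R2 :=
  MvPolynomial.map (algebraMap F ℂ)

/-- extension of scalars -/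
noncomputable def cx (P : (MvPolynomial (Fin 2) F)[X]) : R2[X] := P.map (cxr F)

lemma cxr_inj : Function.Injective (cxr F) :=
  MvPolynomial.map_injective _ (algebraMap F ℂ).injective

lemma cx_ne {P : (MvPolynomial (Fin 2) F)[X]} (hP : P ≠ 0) : cx P ≠ 0 := by
  unfold cx
  rwa [Polynomial.map_ne_zero_iff cxr_inj]

/-- evaluation over the small field -/
noncomputable def ez (F : Type) [Field F] [Algebra F ℂ] (z : ℂ) : MvPolynomial (Fin 2) F →+* ℂ :=
  (evc z).comp (cxr F)

lemma cx_eval (P : (MvPolynomial (Fin 2) F)[X]) (z a : ℂ) :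
    (cx P).eval₂ (evc z) a = P.eval₂ (ez F z) a := by
  unfold cx
  rw [Polynomial.eval₂_map]
  rfl

lemma ez_eq (z : ℂ) (P : MvPolynomial (Fin 2) F) :
    ez F z P = MvPolynomial.aeval ![z, (Complex.Gamma z)⁻¹] P := by
  unfold ez cxr evc
  rw [RingHom.comp_apply, MvPolynomial.eval_map]
  rfl

omit [Algebra F ℂ] in
lemma mv_countable [Countable F] : Countable (MvPolynomial (Fin 2) F) := by
  rw [← Cardinal.mk_le_aleph0_iff]
  refine (MvPolynomial.cardinalMk_le_max).trans ?_
  have h1 : Cardinal.mk F ≤ Cardinal.aleph0 := Cardinal.mk_le_aleph0_iff.2 inferInstance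
  have h2 : Cardinal.mk (Fin 2) ≤ Cardinal.aleph0 := Cardinal.mk_le_aleph0_iff.2 inferInstance
  exact max_le (max_le h1 h2) le_rfl

/-- the exceptional points -/
def C0 (F : Type) [Field F] [Algebra F ℂ] : Set ℂ := {z | ∃ D : MvPolynomial (Fin 2) F, D ≠ 0 ∧
  ez F z D = 0}

lemma C0_countable [Countable F] : (C0 F).Countable := by
  have hMc : Countable (MvPolynomial (Fin 2) F) := mv_countable
  have h1 : C0 F ⊆ ⋃ D : {D : MvPolynomial (Fin 2) F // D ≠ 0}, {z | evc z (cxr F D) = 0} := by
    rintro z ⟨D, hD, h⟩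
    exact mem_iUnion.2 ⟨⟨D, hD⟩, h⟩
  refine (countable_iUnion (fun D => ?_)).mono h1
  apply zeros_countable
  intro h
  exact D.2 (cxr_inj (by rw [h, map_zero]))

lemma ez_inj {z : ℂ} (hz : z ∉ C0 F) : Function.Injective (ez F z) := by
  rw [injective_iff_map_eq_zero]
  intro D hD
  by_contra h0
  exact hz ⟨D, h0, hD⟩

/-- a relation with a simple root -/
lemma simple_root {R : Type*} [CommRing R] [IsDomain R] [CharZero R] (e : R →+* ℂ)
    (he : Function.Injective e) {a : ℂ} (h : ∃ P : R[X], P ≠ 0 ∧ P.eval₂ e a = 0) :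
    ∃ P : R[X], P ≠ 0 ∧ P.eval₂ e a = 0 ∧ (Polynomial.derivative P).eval₂ e a ≠ 0 := by
  classical
  have hex : ∃ n : ℕ, ∃ P : R[X], P.natDegree = n ∧ P ≠ 0 ∧ P.eval₂ e a = 0 := by
    obtain ⟨P, h1, h2⟩ := h
    exact ⟨_, P, rfl, h1, h2⟩
  obtain ⟨P, h1, h2, h3⟩ := Nat.find_spec hex
  refine ⟨P, h2, h3, fun h4 => ?_⟩
  have hdeg : P.natDegree ≠ 0 := by
    intro h5
    obtain ⟨p, hp⟩ := Polynomial.natDegree_eq_zero.1 h5
    rw [← hp, Polynomial.eval₂_C] at h3
    apply h2
    rw [← hp, he (by rw [h3, map_zero] : e p = e 0), map_zero]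
  have hd : Polynomial.derivative P ≠ 0 := by
    intro h5
    exact hdeg (Polynomial.derivative_eq_zero.1 h5)
  have hlt := Polynomial.natDegree_derivative_lt hdeg
  rw [h1] at hlt
  exact Nat.find_min hex hlt ⟨_, rfl, hd, h4⟩

/-- a constant root of a relation over the small field is algebraic -/
lemma alg_const {Ω : Set ℂ} (hΩ : IsOpen Ω) (hne : Ω.Nonempty) {P : (MvPolynomial (Fin 2) F)[X]}
    (hP : P ≠ 0) {c : ℂ} (h : ∀ t ∈ Ω, (cx P).eval₂ (evc t) c = 0) : IsAlgebraic F c := by
  have h1 : (cx P).eval (MvPolynomial.C c) = 0 := by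
    refine evc_open hΩ hne (fun t ht => ?_)
    have h2 := h t ht
    have h3 : evc t ((cx P).eval (MvPolynomial.C c)) = (cx P).eval₂ (evc t) c := by
      rw [Polynomial.eval, Polynomial.hom_eval₂]
      simp [evc]
    rw [h3, h2]
  obtain ⟨j, hj⟩ : ∃ j, P.coeff j ≠ 0 := by
    by_contra hno
    push Not at hno
    exact hP (Polynomial.ext (by simpa using hno))
  obtain ⟨m, hm⟩ : ∃ m, (P.coeff j).coeff m ≠ 0 := by
    by_contra hno
    push Not at hno
    exact hj (MvPolynomial.ext _ _ (by simpa using hno))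
  refine ⟨∑ i ∈ Finset.range (P.natDegree + 1), Polynomial.monomial i ((P.coeff i).coeff m),
    ?_, ?_⟩
  · intro h0
    have h2 := congrArg (fun q => Polynomial.coeff q j) h0
    simp only [Polynomial.finsetSum_coeff, Polynomial.coeff_zero] at h2
    rw [Finset.sum_eq_single j] at h2
    · rw [Polynomial.coeff_monomial_same] at h2
      exact hm h2
    · intro i _ hij
      rw [Polynomial.coeff_monomial, if_neg hij]
    · intro hj'
      exfalso
      apply hj'
      rw [Finset.mem_range]
      have := Polynomial.le_natDegree_of_ne_zero hj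
      omega
  · have h2 := congrArg (MvPolynomial.coeff m) h1
    have h3 : (cx P).eval (MvPolynomial.C c) =
        ∑ i ∈ Finset.range (P.natDegree + 1), cxr F (P.coeff i) * MvPolynomial.C (c ^ i) := by
      unfold cx
      rw [Polynomial.eval_map, Polynomial.eval₂_eq_sum_range]
      refine Finset.sum_congr rfl (fun i _ => ?_)
      rw [map_pow]
    rw [h3, MvPolynomial.coeff_sum, MvPolynomial.coeff_zero] at h2
    rw [map_sum]
    rw [← h2]
    refine Finset.sum_congr rfl (fun i _ => ?_)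
    rw [Polynomial.aeval_monomial, mul_comm (cxr F (P.coeff i)), MvPolynomial.coeff_C_mul, mul_comm]
    unfold cxr
    rw [MvPolynomial.coeff_map]

end

end Pool.Agent.TH814.GS
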