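import Pool.Agent.TH814.GS.Fld

set_option autoImplicit false

/-!
Three continuous germs algebraic over `ℂ(x, Γ(x))` are algebraically dependent.
-/

namespace Pool.Agent.TH814.GS

open Filter Topology Asymptotics Set

/-- the field of germs -/
noncomputable def FF : Subalgebra R2 GR where
  carrier := {g | ∃ h : ℝ → ℂ, Alg h ∧ (h : GR) = g}
  mul_mem' := by
    rintro _ _ ⟨h, H, rfl⟩ ⟨h', H', rfl⟩
    exact ⟨_, H.mul H', rfl⟩
  add_mem' := by
    rintro _ _ ⟨h, H, rfl⟩ ⟨h', H', rfl⟩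
    exact ⟨_, H.add H', rfl⟩
  algebraMap_mem' := fun P => ⟨_, Alg_ev P, rfl⟩

instance : NoZeroDivisors FF := by
  refine ⟨?_⟩
  rintro ⟨_, h, H, rfl⟩ ⟨_, h', H', rfl⟩ hmul
  have h1 : (h : GR) * (h' : GR) = 0 := congrArg Subtype.val hmul
  rw [← Germ.coe_mul, ← Germ.coe_zero, Germ.coe_eq] at h1
  rcases H.dich' with h2 | h2
  · left
    apply Subtype.ext
    change (h : GR) = 0
    rw [← Germ.coe_zero, Germ.coe_eq]
    exact h2
  · right
    apply Subtype.ext
    change (h' : GR) = 0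
    rw [← Germ.coe_zero, Germ.coe_eq]
    filter_upwards [h1, h2] with x hx hx'
    rcases mul_eq_zero.1 hx with h3 | h3
    · exact absurd h3 hx'
    · exact h3

lemma evG_inj : Function.Injective evG := by
  rw [injective_iff_map_eq_zero]
  intro P hP
  by_contra h0
  have h1 : ((fun x : ℝ => evc (x : ℂ) P : ℝ → ℂ) : GR) = 0 := hP
  rw [← Germ.coe_zero, Germ.coe_eq] at h1
  obtain ⟨x, hx, hx'⟩ := ((ev_ne h0).and h1).exists
  exact hx hx'

instance : FaithfulSMul R2 FF := by
  rw [faithfulSMul_iff_algebraMap_injective]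
  intro P Q h
  exact evG_inj (congrArg Subtype.val h)

noncomputable instance : Algebra ℂ FF := ((algebraMap R2 FF).comp MvPolynomial.C).toAlgebra

instance : IsScalarTower ℂ R2 FF := IsScalarTower.of_algebraMap_eq (fun _ => rfl)

instance : Algebra.IsAlgebraic R2 FF := by
  refine ⟨?_⟩
  rintro ⟨g, hg⟩
  obtain ⟨h, H, rfl⟩ := hg
  have h1 := (AE_iff h).1 H.2
  have h2 : Function.Injective (algebraMap FF GR) := Subtype.val_injective
  rw [← isAlgebraic_algebraMap_iff h2]
  exact h1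

lemma trdeg_FF : Algebra.trdeg ℂ FF = 2 := by
  have h1 := _root_.trdeg_add_eq ℂ R2 (A := FF)
  rw [_root_.trdeg_eq_zero (R := R2) (A := FF), add_zero, MvPolynomial.trdeg_of_isDomain] at h1
  rw [← h1]
  simp

theorem dep3 {f : Fin 3 → ℝ → ℂ} (hf : ∀ i, Alg (f i)) : ∃ Q : MvPolynomial (Fin 3) ℂ, Q ≠ 0 ∧
    ∀ᶠ x in atTop, MvPolynomial.eval (fun i => f i x) Q = 0 := by
  set g : Fin 3 → FF := fun i => ⟨(f i : GR), f i, hf i, rfl⟩ with hg
  have h1 : ¬ AlgebraicIndependent ℂ g := by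
    intro h
    have h2 := h.cardinalMk_le_trdeg
    rw [trdeg_FF] at h2
    simp at h2
    norm_num at h2
  rw [algebraicIndependent_iff] at h1
  push Not at h1
  obtain ⟨Q, hQ, hQ0⟩ := h1
  refine ⟨Q, hQ0, ?_⟩
  have h2 : ((FF.val : FF →ₐ[R2] GR).toRingHom).comp
      (MvPolynomial.aeval g : MvPolynomial (Fin 3) ℂ →ₐ[ℂ] FF).toRingHom =
      (Germ.coeRingHom (atTop : Filter ℝ)).comp
        (RingHom.pi (fun x : ℝ => MvPolynomial.eval (fun i => f i x))) := by
    apply MvPolynomial.ringHom_ext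
    · intro r
      simp only [AlgHom.toRingHom_eq_coe, RingHom.comp_apply, RingHom.coe_coe,
        MvPolynomial.aeval_C]
      change (algebraMap R2 GR (MvPolynomial.C r)) = (Germ.coeRingHom (atTop : Filter ℝ)) _
      rw [algebraMap_GR, Germ.coe_coeRingHom]
      congr 1
      ext x
      change evc (x : ℂ) (MvPolynomial.C r) =
        MvPolynomial.eval (fun i => f i x) (MvPolynomial.C r)
      simp [evc]
    · intro i
      simp only [AlgHom.toRingHom_eq_coe, RingHom.comp_apply, RingHom.coe_coe,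
        MvPolynomial.aeval_X]
      change ((f i : ℝ → ℂ) : GR) = (Germ.coeRingHom (atTop : Filter ℝ)) _
      rw [Germ.coe_coeRingHom]
      congr 1
      ext x
      change f i x = MvPolynomial.eval (fun i => f i x) (MvPolynomial.X i)
      simp
  have h3 := congrArg (fun φ : MvPolynomial (Fin 3) ℂ →+* GR => φ Q) h2
  simp only [AlgHom.toRingHom_eq_coe, RingHom.comp_apply, RingHom.coe_coe, hQ, map_zero] at h3
  have h4 : ((fun x : ℝ => MvPolynomial.eval (fun i => f i x) Q : ℝ → ℂ) : GR) =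
    ((fun _ => 0 : ℝ → ℂ) : GR) := h3.symm
  exact Germ.coe_eq.1 h4

end Pool.Agent.TH814.GS
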