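import Pool.Agent.TH814.GS.Mon
import Pool.Agent.TH814.GS.Conv

set_option autoImplicit false

/-!
Leading terms of sums of functions comparable to monomials.
-/

namespace Pool.Agent.TH814.GS

open Filter Topology Asymptotics Set

/-- the leading term of a function -/
def LT (h : ℝ → ℂ) (a b : ℝ) (c : ℂ) : Prop :=
  Tendsto (fun x => h x / ((mon a b x : ℝ) : ℂ)) atTop (𝓝 c)

lemma monc_ne {a b x : ℝ} (hx : 0 < x) : ((mon a b x : ℝ) : ℂ) ≠ 0 :=
  Complex.ofReal_ne_zero.2 (mon_pos hx).ne'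

lemma LT.congr' {h h' : ℝ → ℂ} {a b : ℝ} {c : ℂ} (H : LT h a b c) (he : h =ᶠ[atTop] h') :
    LT h' a b c := by
  refine Tendsto.congr' ?_ H
  filter_upwards [he] with x hx
  rw [hx]

lemma LT.mul {h h' : ℝ → ℂ} {a b a' b' : ℝ} {c c' : ℂ} (H : LT h a b c) (H' : LT h' a' b' c') :
    LT (fun x => h x * h' x) (a + a') (b + b') (c * c') := by
  refine Tendsto.congr' ?_ (Tendsto.mul H H')
  filter_upwards [eventually_gt_atTop 0] with x hx
  rw [mon_add hx, Complex.ofReal_mul]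
  have := monc_ne (a := a) (b := b) hx
  have := monc_ne (a := a') (b := b') hx
  field_simp

lemma LT.pow {h : ℝ → ℂ} {a b : ℝ} {c : ℂ} (H : LT h a b c) (n : ℕ) :
    LT (fun x => h x ^ n) (n * a) (n * b) (c ^ n) := by
  refine Tendsto.congr' ?_ (Tendsto.pow H n)
  filter_upwards [eventually_gt_atTop 0] with x hx
  rw [← mon_pow hx, Complex.ofReal_pow, div_pow]

lemma LT.inv {h : ℝ → ℂ} {a b : ℝ} {c : ℂ} (H : LT h a b c) (hc : c ≠ 0) :
    LT (fun x => (h x)⁻¹) (-a) (-b) c⁻¹ := by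
  refine Tendsto.congr' ?_ (Tendsto.inv₀ H hc)
  filter_upwards [eventually_gt_atTop 0] with x hx
  rw [mon_neg hx, Complex.ofReal_inv, inv_div, div_inv_eq_mul, div_eq_mul_inv, mul_comm]

lemma LT.div {h h' : ℝ → ℂ} {a b a' b' : ℝ} {c c' : ℂ} (H : LT h a b c) (H' : LT h' a' b' c')
    (hc : c' ≠ 0) : LT (fun x => h x / h' x) (a - a') (b - b') (c / c') := by
  simpa only [div_eq_mul_inv, sub_eq_add_neg] using H.mul (H'.inv hc)

lemma LT.const_mul {h : ℝ → ℂ} {a b : ℝ} {c : ℂ} (H : LT h a b c) (k : ℂ) :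
    LT (fun x => k * h x) a b (k * c) := by
  refine Tendsto.congr' ?_ (Tendsto.const_mul k H)
  filter_upwards with x
  rw [mul_div_assoc]

lemma LT_mon (a b : ℝ) : LT (fun x => ((mon a b x : ℝ) : ℂ)) a b 1 := by
  refine Tendsto.congr' ?_ tendsto_const_nhds
  filter_upwards [eventually_gt_atTop 0] with x hx
  rw [div_self (monc_ne hx)]

lemma LT_const (c : ℂ) : LT (fun _ => c) 0 0 c := by
  refine Tendsto.congr' ?_ tendsto_const_nhds
  filter_upwards with x
  rw [mon_zero, Complex.ofReal_one, div_one]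

lemma LT_x : LT (fun x => (x : ℂ)) 1 0 1 := by
  refine (LT_mon 1 0).congr' ?_
  filter_upwards with x
  simp [mon]

lemma LT_G : LT (fun x => (Complex.Gamma x)⁻¹) 0 (-1) 1 := by
  refine (LT_mon 0 (-1)).congr' ?_
  filter_upwards [eventually_gt_atTop 0] with x hx
  have := Real.Gamma_pos_of_pos hx
  simp only [mon, Real.rpow_zero, one_mul]
  rw [Real.rpow_neg_one, Complex.ofReal_inv, Complex.Gamma_ofReal]

lemma LT.eventually_ne {h : ℝ → ℂ} {a b : ℝ} {c : ℂ} (H : LT h a b c) (hc : c ≠ 0) :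
    ∀ᶠ x in atTop, h x ≠ 0 := by
  filter_upwards [Tendsto.eventually_ne H hc] with x hx h0
  rw [h0, zero_div] at hx
  exact hx rfl

/-- the largest exponent -/
lemma exists_max {ι : Type*} (S : Finset ι) (hS : S.Nonempty) (a b : ι → ℝ) :
    ∃ i₀ ∈ S, ∀ i ∈ S, Big (a i₀ - a i) (b i₀ - b i) ∨ (a i = a i₀ ∧ b i = b i₀) := by
  obtain ⟨i₀, hi₀, h⟩ := S.exists_max_image (fun i => toLex (b i, a i)) hS
  refine ⟨i₀, hi₀, fun i hi => ?_⟩
  have h1 := h i hi
  rw [Prod.Lex.toLex_le_toLex] at h1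
  rcases h1 with h1 | ⟨h1, h2⟩
  · left; left
    simp only at h1
    linarith
  · simp only at h1 h2
    rcases h2.lt_or_eq with h3 | h3
    · left; right
      exact ⟨by linarith, by linarith⟩
    · right
      exact ⟨h3, h1⟩

/-- a function comparable to a monomial, measured by a larger monomial -/
lemma LT.of_big {h : ℝ → ℂ} {a b a' b' : ℝ} {c : ℂ} (H : LT h a b c)
    (hb : Big (a' - a) (b' - b)) : LT h a' b' 0 := by
  have h1 : Tendsto (mon (a - a') (b - b')) atTop (𝓝 0) := by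
    apply mon_zero_of
    rwa [neg_sub, neg_sub]
  have h2 := (Complex.continuous_ofReal.tendsto 0).comp h1
  have h3 := Tendsto.mul H h2
  simp only [Complex.ofReal_zero, mul_zero] at h3
  refine Tendsto.congr' ?_ h3
  filter_upwards [eventually_gt_atTop 0] with x hx
  simp only [Function.comp_apply]
  rw [mon_sub hx, Complex.ofReal_div]
  have := monc_ne (a := a) (b := b) hx
  have := monc_ne (a := a') (b := b') hx
  field_simp

open scoped Classical in
/-- leading term of a sum -/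
lemma dom {ι : Type*} (S : Finset ι) (F : ι → ℝ → ℂ) (a b : ι → ℝ) (κ : ι → ℂ)
    (hF : ∀ i ∈ S, LT (F i) (a i) (b i) (κ i)) (i₀ : ι)
    (hmax : ∀ i ∈ S, Big (a i₀ - a i) (b i₀ - b i) ∨ (a i = a i₀ ∧ b i = b i₀)) :
    LT (fun x => ∑ i ∈ S, F i x) (a i₀) (b i₀)
      (∑ i ∈ S, if a i = a i₀ ∧ b i = b i₀ then κ i else 0) := by
  unfold LT
  have : ∀ i ∈ S, Tendsto (fun x => F i x / ((mon (a i₀) (b i₀) x : ℝ) : ℂ)) atTop
      (𝓝 (if a i = a i₀ ∧ b i = b i₀ then κ i else 0)) := by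
    intro i hi
    split_ifs with h
    · have := hF i hi
      rw [h.1, h.2] at this
      exact this
    · rcases hmax i hi with h1 | h1
      · exact (hF i hi).of_big h1
      · exact absurd h1 h
  simpa only [Finset.sum_div] using tendsto_finsetSum S this

open scoped Classical in
/-- a sum of functions with different leading exponents has a leading term -/
lemma dom_inj {ι : Type*} (S : Finset ι) (hS : S.Nonempty) (F : ι → ℝ → ℂ) (a b : ι → ℝ)
    (κ : ι → ℂ) (hF : ∀ i ∈ S, LT (F i) (a i) (b i) (κ i)) 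
    (hinj : ∀ i ∈ S, ∀ j ∈ S, a i = a j → b i = b j → i = j) :
    ∃ i ∈ S, LT (fun x => ∑ i ∈ S, F i x) (a i) (b i) (κ i) := by
  obtain ⟨i₀, hi₀, hmax⟩ := exists_max S hS a b
  refine ⟨i₀, hi₀, ?_⟩
  have h1 := dom S F a b κ hF i₀ hmax
  have h2 : (∑ i ∈ S, if a i = a i₀ ∧ b i = b i₀ then κ i else 0) = κ i₀ := by
    rw [Finset.sum_eq_single i₀]
    · simp
    · intro j hj hji
      rw [if_neg]
      rintro ⟨h3, h4⟩
      exact hji (hinj j hj i₀ hi₀ h3 h4)
    · intro h
      exact absurd hi₀ h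
  rwa [h2] at h1

/-- polynomials in `x` and `1/Γ(x)` -/
abbrev R2 := MvPolynomial (Fin 2) ℂ

/-- evaluation -/
noncomputable def evc (z : ℂ) : R2 →+* ℂ := MvPolynomial.eval ![z, (Complex.Gamma z)⁻¹]

/-- leading term of a polynomial in `x` and `1/Γ(x)` -/
lemma ev_lt {P : R2} (hP : P ≠ 0) : ∃ (a b : ℚ) (κ : ℂ), κ ≠ 0 ∧
    LT (fun x : ℝ => evc x P) a b κ := by
  classical
  have hne : P.support.Nonempty := MvPolynomial.support_nonempty.2 hP
  obtain ⟨m, hm, h⟩ := dom_inj P.support hne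
    (fun m x => P.coeff m * ((x : ℂ) ^ (m 0) * (Complex.Gamma x)⁻¹ ^ (m 1)))
    (fun m => m 0) (fun m => -(m 1 : ℝ)) (fun m => P.coeff m)
    (by
      intro m _
      have h1 := ((LT_x.pow (m 0)).mul (LT_G.pow (m 1))).const_mul (P.coeff m)
      simp only [one_pow, mul_one, mul_zero, add_zero, zero_add, mul_neg] at h1
      exact h1)
    (by
      intro m _ m' _ h0 h1
      have h0' : m 0 = m' 0 := by exact_mod_cast h0
      have h1' : m 1 = m' 1 := by
        have := neg_inj.1 h1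
        exact_mod_cast this
      ext i
      fin_cases i
      · exact h0'
      · exact h1')
  refine ⟨m 0, -(m 1), P.coeff m, MvPolynomial.mem_support_iff.1 hm, ?_⟩
  have h2 := h.congr' (h' := fun x : ℝ => evc x P) (by
    filter_upwards with x
    unfold evc
    rw [MvPolynomial.eval_eq']
    refine Finset.sum_congr rfl (fun m _ => ?_)
    rw [Fin.prod_univ_two]
    rfl)
  push_cast
  exact h2

lemma ev_ne {P : R2} (hP : P ≠ 0) : ∀ᶠ x : ℝ in atTop, evc x P ≠ 0 := by
  obtain ⟨a, b, κ, hκ, h⟩ := ev_lt hP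
  exact h.eventually_ne hκ

end Pool.Agent.TH814.GS
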