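import Pool.Agent.TH814.GS.Cls

set_option autoImplicit false

/-!
Algebraic dependence of three functions.
-/

namespace Pool.Agent.TH814.GS

open Filter Topology Set
open scoped Polynomial

/-- algebraic dependence of three functions on a set -/
def Dep3 (Ω : Set ℂ) (a b c : ℂ → ℂ) : Prop :=
  ∃ Q : MvPolynomial (Fin 3) ℂ, Q ≠ 0 ∧ ∀ t ∈ Ω, MvPolynomial.eval ![a t, b t, c t] Q = 0

lemma Dep3.perm {Ω : Set ℂ} {a b c : ℂ → ℂ} (h : Dep3 Ω a b c) : Dep3 Ω b c a := by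
  obtain ⟨Q, hQ, h0⟩ := h
  refine ⟨MvPolynomial.rename ![2, 0, 1] Q, ?_, fun t ht => ?_⟩
  · intro h1
    apply hQ
    refine (map_eq_zero_iff _ (MvPolynomial.rename_injective (![2, 0, 1] : Fin 3 → Fin 3) ?_)).1 h1
    decide
  · rw [MvPolynomial.eval_rename]
    have : (![b t, c t, a t] ∘ ![2, 0, 1] : Fin 3 → ℂ) = ![a t, b t, c t] := by
      ext i
      fin_cases i <;> rfl
    rw [this]
    exact h0 t ht

lemma Dep3.swap {Ω : Set ℂ} {a b c : ℂ → ℂ} (h : Dep3 Ω a b c) : Dep3 Ω b a c := by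
  obtain ⟨Q, hQ, h0⟩ := h
  refine ⟨MvPolynomial.rename ![1, 0, 2] Q, ?_, fun t ht => ?_⟩
  · intro h1
    apply hQ
    refine (map_eq_zero_iff _ (MvPolynomial.rename_injective (![1, 0, 2] : Fin 3 → Fin 3) ?_)).1 h1
    decide
  · rw [MvPolynomial.eval_rename]
    have : (![b t, a t, c t] ∘ ![1, 0, 2] : Fin 3 → ℂ) = ![a t, b t, c t] := by
      ext i
      fin_cases i <;> rfl
    rw [this]
    exact h0 t ht

lemma Dep3.iff {Ω : Set ℂ} {a b c : ℂ → ℂ} : Dep3 Ω a b c ↔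
    ∃ P : R2[X], P ≠ 0 ∧ ∀ t ∈ Ω, P.eval₂ (MvPolynomial.eval ![b t, c t]) (a t) = 0 := by
  have key : ∀ (x y z : ℂ) (Q : MvPolynomial (Fin 3) ℂ), MvPolynomial.eval ![x, y, z] Q =
      (MvPolynomial.finSuccEquiv ℂ 2 Q).eval₂ (MvPolynomial.eval ![y, z]) x := by
    intro x y z Q
    have := MvPolynomial.eval_eq_eval_mv_eval' (n := 2) ![y, z] x Q
    rw [Polynomial.eval_map] at this
    rw [← this]
    rfl
  constructor
  · rintro ⟨Q, hQ, h⟩
    refine ⟨MvPolynomial.finSuccEquiv ℂ 2 Q, ?_, fun t ht => ?_⟩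
    · intro h1
      exact hQ ((map_eq_zero_iff _ (MvPolynomial.finSuccEquiv ℂ 2).injective).1 h1)
    · rw [← key]
      exact h t ht
  · rintro ⟨P, hP, h⟩
    refine ⟨(MvPolynomial.finSuccEquiv ℂ 2).symm P, ?_, fun t ht => ?_⟩
    · intro h1
      exact hP ((map_eq_zero_iff _ (MvPolynomial.finSuccEquiv ℂ 2).symm.injective).1 h1)
    · rw [key, AlgEquiv.apply_symm_apply]
      exact h t ht

/-- inversion of the first function -/
lemma Dep3.inv {Ω : Set ℂ} {a b c : ℂ → ℂ} (h : Dep3 Ω a b c) (h0 : ∀ t ∈ Ω, a t ≠ 0) :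
    Dep3 Ω (fun t => (a t)⁻¹) b c := by
  rw [Dep3.iff] at h ⊢
  obtain ⟨P, hP, h1⟩ := h
  refine ⟨P.reverse, ?_, fun t ht => ?_⟩
  · rwa [Ne, Polynomial.reverse_eq_zero]
  · let _ : Invertible (a t) := invertibleOfNonzero (h0 t ht)
    have h2 := (Polynomial.eval₂_reverse_eq_zero_iff (MvPolynomial.eval ![b t, c t]) (a t) P).2
      (h1 t ht)
    rwa [invOf_eq_inv] at h2

lemma Dep3.mono {Ω Ω' : Set ℂ} {a b c : ℂ → ℂ} (h : Dep3 Ω a b c) (hs : Ω' ⊆ Ω) :
    Dep3 Ω' a b c := by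
  obtain ⟨Q, hQ, h0⟩ := h
  exact ⟨Q, hQ, fun t ht => h0 t (hs ht)⟩

/-- the growth argument -/
lemma two_ne {q : R2} (hq : q ≠ 0) (s : ℝ) {k : ℂ} (hk : k ≠ 0) :
    ∀ᶠ x : ℝ in atTop, MvPolynomial.eval ![1 - s - (x : ℂ), k * Complex.Gamma x] q ≠ 0 := by
  classical
  have hGlt : LT (fun x => Complex.Gamma x) 0 1 1 := by
    have := LT_G.inv one_ne_zero
    simpa using this
  have hxlt : LT (fun x => 1 - s - (x : ℂ)) 1 0 (-1) := by
    have h1 : Tendsto (fun x : ℝ => (1 - s : ℂ) * (x : ℂ)⁻¹ - 1) atTop (𝓝 ((1 - s : ℂ) * 0 - 1)) :=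
      (x_inv_zero.const_mul _).sub_const 1
    rw [mul_zero, zero_sub] at h1
    refine h1.congr' ?_
    filter_upwards [eventually_gt_atTop 0] with x hx
    have hx0 : (x : ℂ) ≠ 0 := by exact_mod_cast hx.ne'
    have hm : mon 1 0 x = x := by simp [mon]
    rw [hm]
    field_simp
  obtain ⟨m, hm, h⟩ := dom_inj q.support (MvPolynomial.support_nonempty.2 hq)
    (fun m x => q.coeff m * ((1 - s - (x : ℂ)) ^ (m 0) * (k * Complex.Gamma x) ^ (m 1)))
    (fun m => m 0) (fun m => m 1) (fun m => q.coeff m * ((-1) ^ (m 0) * k ^ (m 1)))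
    (by
      intro m _
      have h1 := ((hxlt.pow (m 0)).mul ((hGlt.const_mul k).pow (m 1))).const_mul (q.coeff m)
      simp only [mul_one, mul_zero, add_zero, zero_add] at h1
      exact h1)
    (by
      intro m _ m' _ h0 h1
      have h0' : m 0 = m' 0 := by exact_mod_cast h0
      have h1' : m 1 = m' 1 := by exact_mod_cast h1
      ext i
      fin_cases i
      · exact h0'
      · exact h1')
  have h2 := h.eventually_ne (mul_ne_zero (MvPolynomial.mem_support_iff.1 hm)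
    (mul_ne_zero (pow_ne_zero _ (neg_ne_zero.2 one_ne_zero)) (pow_ne_zero _ hk)))
  filter_upwards [h2] with x hx
  rw [MvPolynomial.eval_eq']
  simp only [Fin.prod_univ_two]
  exact hx

/-- translates by nonintegers are not algebraic -/
theorem rho_int {Ω : Set ℂ} (hΩ : IsOpen Ω) (hne : Ω.Nonempty)
    {s : ℝ} (h : Dep3 Ω (fun t => (Complex.Gamma (t + s))⁻¹) (fun t => t)
      (fun t => (Complex.Gamma t)⁻¹)) : ∃ m : ℤ, s = m := by
  by_contra hs
  push Not at hs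
  have hsin : Complex.sin (Real.pi * s) ≠ 0 := by
    intro h0
    rw [Complex.sin_eq_zero_iff] at h0
    obtain ⟨k, hk⟩ := h0
    apply hs k
    have hpi : ((Real.pi : ℝ) : ℂ) ≠ 0 := Complex.ofReal_ne_zero.2 Real.pi_ne_zero
    have h1 : (s : ℂ) = k := by
      apply mul_left_cancel₀ hpi
      rw [hk]
      ring
    exact_mod_cast h1
  have h' := h.perm.perm
  rw [Dep3.iff] at h'
  obtain ⟨P, hP, h1⟩ := h'
  obtain ⟨q, hq, hnd⟩ := Polynomial.exists_eq_pow_rootMultiplicity_mul_and_not_dvd P hP 0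
  rw [Polynomial.C_0, sub_zero] at hnd hq
  rw [Polynomial.X_dvd_iff] at hnd
  -- the entire function
  have hev : ∀ (Q : R2[X]) (z : ℂ), Q.eval₂ (MvPolynomial.eval ![(Complex.Gamma (z + s))⁻¹, z])
      (Complex.Gamma z)⁻¹ = ∑ j ∈ Finset.range (Q.natDegree + 1),
        MvPolynomial.eval ![(Complex.Gamma (z + s))⁻¹, z] (Q.coeff j) * (Complex.Gamma z)⁻¹ ^ j :=
    fun Q z => Polynomial.eval₂_eq_sum_range _ _
  have hgd : Differentiable ℂ (fun z : ℂ => (Complex.Gamma z)⁻¹) :=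
    Complex.differentiable_one_div_Gamma
  have hgd2 : Differentiable ℂ (fun z : ℂ => (Complex.Gamma (z + s))⁻¹) :=
    hgd.comp (differentiable_id.add_const (s : ℂ))
  have hdiff : ∀ Q : R2[X], Differentiable ℂ (fun z : ℂ =>
      Q.eval₂ (MvPolynomial.eval ![(Complex.Gamma (z + s))⁻¹, z]) (Complex.Gamma z)⁻¹) := by
    intro Q
    simp only [hev]
    apply Differentiable.fun_sum
    intro j _
    refine Differentiable.mul ?_ (hgd.pow j)
    simp only [MvPolynomial.eval_eq', Fin.prod_univ_two]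
    apply Differentiable.fun_sum
    intro m _
    exact (differentiable_const _).mul ((hgd2.pow _).mul (differentiable_id.pow _))
  have han : ∀ Q : R2[X], AnalyticOnNhd ℂ (fun z : ℂ =>
      Q.eval₂ (MvPolynomial.eval ![(Complex.Gamma (z + s))⁻¹, z]) (Complex.Gamma z)⁻¹) Set.univ :=
    fun Q => (hdiff Q).differentiableOn.analyticOnNhd isOpen_univ
  obtain ⟨t₀, ht₀⟩ := hne
  have hPz : ∀ z : ℂ, P.eval₂ (MvPolynomial.eval ![(Complex.Gamma (z + s))⁻¹, z])
      (Complex.Gamma z)⁻¹ = 0 := by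
    intro z
    refine (han P).eqOn_zero_of_preconnected_of_eventuallyEq_zero isPreconnected_univ
      (Set.mem_univ t₀) ?_ (Set.mem_univ z)
    filter_upwards [hΩ.mem_nhds ht₀] with t ht
    exact h1 t ht
  have hqz : ∀ z : ℂ, q.eval₂ (MvPolynomial.eval ![(Complex.Gamma (z + s))⁻¹, z])
      (Complex.Gamma z)⁻¹ = 0 := by
    intro z
    refine (han q).eqOn_zero_of_preconnected_of_eventuallyEq_zero isPreconnected_univ
      (Set.mem_univ 1) ?_ (Set.mem_univ z)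
    have h2 : ∀ᶠ z : ℂ in 𝓝 1, (Complex.Gamma z)⁻¹ ≠ 0 := by
      apply hgd.continuous.continuousAt.eventually_ne
      rw [Complex.Gamma_one]
      simp
    filter_upwards [h2] with z hz
    have h3 := hPz z
    rw [hq, Polynomial.eval₂_mul, Polynomial.eval₂_pow, Polynomial.eval₂_X] at h3
    exact (mul_eq_zero.1 h3).resolve_left (pow_ne_zero _ hz)
  -- evaluate at the negative even integers
  have hk : Complex.sin (Real.pi * s) / Real.pi ≠ 0 :=
    div_ne_zero hsin (Complex.ofReal_ne_zero.2 Real.pi_ne_zero)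
  obtain ⟨Q', hQ', hQ'0⟩ : ∃ Q' : R2, Q' ≠ 0 ∧ ∀ x y : ℂ,
      MvPolynomial.eval ![x, y] Q' = MvPolynomial.eval ![y, x] (q.coeff 0) := by
    refine ⟨MvPolynomial.rename ![1, 0] (q.coeff 0), ?_, ?_⟩
    · intro h1
      apply hnd
      refine (map_eq_zero_iff _ (MvPolynomial.rename_injective (![1, 0] : Fin 2 → Fin 2) ?_)).1 h1
      decide
    · intro x y
      rw [MvPolynomial.eval_rename]
      congr 1
      have : (![x, y] ∘ ![1, 0] : Fin 2 → ℂ) = ![y, x] := by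
        ext i
        fin_cases i <;> rfl
      rw [this]
  have hfin := two_ne hQ' s hk
  have hseq : Tendsto (fun n : ℕ => 2 * (n : ℝ) + (1 - s)) atTop atTop :=
    tendsto_atTop_add_const_right _ _ (tendsto_natCast_atTop_atTop.const_mul_atTop two_pos)
  obtain ⟨n, hn, hn2⟩ := ((hseq.eventually hfin).and
    (hseq.eventually (eventually_gt_atTop 0))).exists
  apply hn
  rw [hQ'0]
  have h2 := hqz (-((2 * n : ℕ) : ℂ))
  have h3 : (Complex.Gamma (-((2 * n : ℕ) : ℂ)))⁻¹ = 0 := by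
    rw [Complex.Gamma_neg_nat_eq_zero, inv_zero]
  rw [h3, Polynomial.eval₂_at_zero] at h2
  have h4 : (Complex.Gamma (-((2 * n : ℕ) : ℂ) + s))⁻¹ =
      Complex.sin (Real.pi * s) / Real.pi * Complex.Gamma ((2 * (n : ℝ) + (1 - s) : ℝ) : ℂ) := by
    have h5 := Complex.Gamma_mul_Gamma_one_sub (-((2 * n : ℕ) : ℂ) + s)
    have h6 : (1 : ℂ) - (-((2 * n : ℕ) : ℂ) + s) = ((2 * (n : ℝ) + (1 - s) : ℝ) : ℂ) := by
      push_cast
      ring
    have h7 : Complex.sin (Real.pi * (-((2 * n : ℕ) : ℂ) + s)) = Complex.sin (Real.pi * s) := by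
      have h8 : (Real.pi : ℂ) * (-((2 * n : ℕ) : ℂ) + s) = Real.pi * s - n * (2 * Real.pi) := by
        push_cast
        ring
      rw [h8, Complex.sin_sub_nat_mul_two_pi]
    rw [h6, h7] at h5
    have h9 : Complex.Gamma ((2 * (n : ℝ) + (1 - s) : ℝ) : ℂ) ≠ 0 := by
      apply Complex.Gamma_ne_zero_of_re_pos
      rw [Complex.ofReal_re]
      exact hn2
    have hpi : ((Real.pi : ℝ) : ℂ) ≠ 0 := Complex.ofReal_ne_zero.2 Real.pi_ne_zero
    have h10 : Complex.Gamma (-((2 * n : ℕ) : ℂ) + s) ≠ 0 := by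
      intro h0
      rw [h0, zero_mul] at h5
      exact (div_ne_zero hpi hsin) h5.symm
    rw [inv_eq_iff_eq_inv, mul_inv, inv_div]
    rw [← h5]
    field_simp
  rw [h4] at h2
  have h5 : (1 : ℂ) - s - ((2 * (n : ℝ) + (1 - s) : ℝ) : ℂ) = -((2 * n : ℕ) : ℂ) := by
    push_cast
    ring
  rw [h5]
  exact h2

end Pool.Agent.TH814.GS
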