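import Pool.Agent.TH814.GS.Nl
import Pool.Agent.TH814.GS.Dep

set_option autoImplicit false

/-!
Values of `Γ` at an algebraic function with a finite limit.
-/

namespace Pool.Agent.TH814.GS

open Filter Topology Asymptotics Set

/-- evaluation at a translated point -/
noncomputable def evt (c z : ℂ) : R2 →+* ℂ := MvPolynomial.eval ![z, (Complex.Gamma (c + z))⁻¹]

lemma evt_diff (c : ℂ) (P : R2) : Differentiable ℂ (fun z : ℂ => evt c z P) := by
  have : (fun z : ℂ => evt c z P) = fun z => ∑ m ∈ P.support, P.coeff m *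
      (z ^ (m 0) * (Complex.Gamma (c + z))⁻¹ ^ (m 1)) := by
    ext z
    unfold evt
    rw [MvPolynomial.eval_eq']
    refine Finset.sum_congr rfl (fun m _ => ?_)
    rw [Fin.prod_univ_two]
    rfl
  rw [this]
  have hg : Differentiable ℂ (fun z : ℂ => (Complex.Gamma (c + z))⁻¹) :=
    Complex.differentiable_one_div_Gamma.comp (differentiable_id.const_add c)
  fun_prop

/-- the substitution -/
noncomputable def sub (c : ℂ) : R2 →+* R2 :=
  MvPolynomial.eval₂Hom MvPolynomial.C ![MvPolynomial.X 0 - MvPolynomial.C c, MvPolynomial.X 1]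

lemma evc_sub (c z : ℂ) (P : R2) : evc z (sub c P) = evt c (z - c) P := by
  have h1 : (evc z).comp (sub c) = evt c (z - c) := by
    apply MvPolynomial.ringHom_ext
    · intro r
      simp [evc, evt, sub]
    · intro i
      fin_cases i
      · simp [evc, evt, sub]
      · simp [evc, evt, sub]
  rw [← h1]
  rfl

lemma sub_inj (c : ℂ) : Function.Injective (sub c) := by
  have h1 : (sub (-c)).comp (sub c) = RingHom.id R2 := by
    apply MvPolynomial.ringHom_ext
    · intro r
      simp [sub]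
    · intro i
      fin_cases i
      · simp [sub]
      · simp [sub]
  intro P Q h
  have h2 := congrArg (sub (-c)) h
  rw [← RingHom.comp_apply, ← RingHom.comp_apply, h1] at h2
  exact h2

lemma evt_ne (c : ℂ) {P : R2} (hP : P ≠ 0) : ¬ ∀ᶠ z in 𝓝 (0:ℂ), evt c z P = 0 := by
  intro h
  have h1 : ∀ z : ℂ, evt c z P = 0 := by
    intro z
    have h2 : AnalyticOnNhd ℂ (fun z : ℂ => evt c z P) Set.univ :=
      (evt_diff c P).differentiableOn.analyticOnNhd isOpen_univ
    exact h2.eqOn_zero_of_preconnected_of_eventuallyEq_zero isPreconnected_univ (Set.mem_univ 0) h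
      (Set.mem_univ z)
  have h2 : sub c P ≠ 0 := by
    intro h3
    apply hP
    apply sub_inj c
    rw [h3, map_zero]
  obtain ⟨x, hx⟩ := (ev_ne h2).exists
  apply hx
  rw [evc_sub]
  exact h1 _

/-- leading term of a composition with an analytic function -/
lemma comp_lt (c : ℂ) {P : R2} (hP : P ≠ 0) {t : ℝ → ℂ} {a b : ℝ} {e : ℂ} (H : LT t a b e)
    (he : e ≠ 0) (ht : Tendsto t atTop (𝓝 0)) :
    ∃ (n : ℕ) (k : ℂ), k ≠ 0 ∧ LT (fun x => evt c (t x) P) (n * a) (n * b) k := by
  have han : AnalyticAt ℂ (fun z : ℂ => evt c z P) 0 :=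
    ((evt_diff c P).differentiableOn.analyticOnNhd isOpen_univ) 0 (Set.mem_univ 0)
  obtain ⟨n, g, hg1, hg2, hg3⟩ := han.exists_eventuallyEq_pow_smul_nonzero_iff.2 (evt_ne c hP)
  refine ⟨n, e ^ n * g 0, mul_ne_zero (pow_ne_zero _ he) hg2, ?_⟩
  have h1 : Tendsto (fun x => g (t x)) atTop (𝓝 (g 0)) := hg1.continuousAt.tendsto.comp ht
  have h2 := Tendsto.mul (H.pow n) h1
  refine h2.congr' ?_
  filter_upwards [ht.eventually hg3] with x hx
  rw [hx, sub_zero, smul_eq_mul]
  ring

theorem fin_main {Y G : ℝ → ℂ} (hY : Alg Y) (hGA : Alg G) {c : ℂ} (hc : Tendsto Y atTop (𝓝 c))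
    (hG : ∀ᶠ x in atTop, G x * (Complex.Gamma (Y x))⁻¹ = 1) : ∀ᶠ x in atTop, Y x = c := by
  set t : ℝ → ℂ := fun x => Y x - c with ht
  have htA : Alg t := hY.sub (Alg_const c)
  have ht0 : Tendsto t atTop (𝓝 0) := by
    have := hc.sub_const c
    rwa [sub_self] at this
  rcases htA.dich with h | ⟨a, b, e, he, hlt⟩
  · filter_upwards [h] with x hx
    exact sub_eq_zero.1 hx
  exfalso
  have hbig : Big (-(a:ℝ)) (-b) := by
    rcases Big.trichotomy (a:ℝ) b with h | h | h
    · exact absurd ht0.norm (not_tendsto_nhds_of_tendsto_atTop (hlt.norm_tendsto he h) _)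
    · exact h
    · exfalso
      unfold LT at hlt
      rw [h.1, h.2] at hlt
      simp only [mon_zero, Complex.ofReal_one, div_one] at hlt
      exact he (tendsto_nhds_unique hlt ht0)
  -- the auxiliary function
  obtain ⟨u, p, q, huA, hult, hind⟩ : ∃ (u : ℝ → ℂ) (p q : ℝ), Alg u ∧ LT u p q 1 ∧
      ∀ m n j k : ℕ, (m * (a:ℝ) + j * p = n * a + k * p) → (m * (b:ℝ) + j * q = n * b + k * q) →
        j = k := by
    by_cases hb : (b:ℝ) = 0
    · refine ⟨_, 0, -1, Alg_G, LT_G, ?_⟩
      intro m n j k _ h2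
      rw [hb] at h2
      have : (j:ℝ) = k := by linarith
      exact_mod_cast this
    · refine ⟨_, 1, 0, Alg_x, LT_x, ?_⟩
      intro m n j k h1 h2
      have h3 : (m:ℝ) = n := by
        have : ((m:ℝ) - n) * b = 0 := by linarith
        rcases mul_eq_zero.1 this with h | h
        · linarith
        · exact absurd h hb
      rw [h3] at h1
      have : (j:ℝ) = k := by linarith
      exact_mod_cast this
  set H : ℝ → ℂ := fun x => (G x)⁻¹ with hH
  have hHA : Alg H := hGA.inv
  have hHt : ∀ᶠ x in atTop, H x = (Complex.Gamma (c + t x))⁻¹ := by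
    filter_upwards [hG] with x hx
    have h1 : c + t x = Y x := by rw [ht]; ring
    rw [h1, hH]
    exact inv_eq_of_mul_eq_one_right hx
  obtain ⟨Q, hQ, hQ0⟩ := dep3 (f := ![u, t, H]) (by
    intro i
    fin_cases i
    · exact huA
    · exact htA
    · exact hHA)
  set P : Polynomial R2 := MvPolynomial.finSuccEquiv ℂ 2 Q with hPdef
  have hP : P ≠ 0 := by
    intro h
    apply hQ
    exact (map_eq_zero_iff _ (MvPolynomial.finSuccEquiv ℂ 2).injective).1 h
  have hsum : ∀ᶠ x in atTop, ∑ j ∈ P.support, evt c (t x) (P.coeff j) * u x ^ j = 0 := by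
    filter_upwards [hQ0, hHt] with x hx hHx
    have h1 : (fun i => (![u, t, H] : Fin 3 → ℝ → ℂ) i x) = Fin.cons (u x) ![t x, H x] := by
      ext i
      fin_cases i <;> rfl
    rw [h1, MvPolynomial.eval_eq_eval_mv_eval', Polynomial.eval_map,
      Polynomial.eval₂_eq_sum, Polynomial.sum_def] at hx
    rw [hHx] at hx
    exact hx
  have hlts : ∀ j : ℕ, ∃ (n : ℕ) (k : ℂ), j ∈ P.support → (k ≠ 0 ∧
      LT (fun x => evt c (t x) (P.coeff j)) (n * a) (n * b) k) := by
    intro j
    by_cases hj : j ∈ P.support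
    · obtain ⟨n, k, h1, h2⟩ := comp_lt c (Polynomial.mem_support_iff.1 hj) hlt he ht0
      exact ⟨n, k, fun _ => ⟨h1, h2⟩⟩
    · exact ⟨0, 0, fun h => absurd h hj⟩
  choose n k hnk using hlts
  obtain ⟨j, hj, hltj⟩ := dom_inj P.support (Polynomial.support_nonempty.2 hP)
    (fun j x => evt c (t x) (P.coeff j) * u x ^ j)
    (fun j => n j * a + j * p) (fun j => n j * b + j * q) k
    (by
      intro j hj
      have h1 := ((hnk j hj).2).mul (hult.pow j)
      rw [one_pow, mul_one] at h1
      exact h1)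
    (by
      intro i _ j _ h1 h2
      exact hind _ _ _ _ h1 h2)
  obtain ⟨x, h1, h2⟩ := ((hltj.eventually_ne (hnk j hj).1).and hsum).exists
  exact h1 h2

end Pool.Agent.TH814.GS
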