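import Pool.Agent.TH814.GS.Lead

set_option autoImplicit false

/-!
The field of continuous germs at `+∞` algebraic over `ℂ(x, Γ(x))`.
-/

namespace Pool.Agent.TH814.GS

open Filter Topology Asymptotics Set

/-- germs at infinity of functions on the real line -/
abbrev GR := Filter.Germ (atTop : Filter ℝ) ℂ

/-- the germ of a polynomial in `x` and `1/Γ(x)` -/
noncomputable def evG : R2 →+* GR :=
  (Germ.coeRingHom (atTop : Filter ℝ)).comp (RingHom.pi (fun x : ℝ => evc (x : ℂ)))

noncomputable instance algGR : Algebra R2 GR := evG.toAlgebra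

lemma algebraMap_GR (P : R2) : algebraMap R2 GR P = ((fun x : ℝ => evc (x : ℂ) P : ℝ → ℂ) : GR) :=
  rfl

lemma aeval_GR (h : ℝ → ℂ) (p : Polynomial R2) : Polynomial.aeval (h : GR) p =
    ((fun x : ℝ => p.eval₂ (evc (x : ℂ)) (h x) : ℝ → ℂ) : GR) := by
  have : (Polynomial.aeval (h : GR) : Polynomial R2 →ₐ[R2] GR).toRingHom =
      (Germ.coeRingHom (atTop : Filter ℝ)).comp
        (RingHom.pi (fun x : ℝ => Polynomial.eval₂RingHom (evc (x : ℂ)) (h x))) := by
    apply Polynomial.ringHom_ext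
    · intro P
      simp only [AlgHom.toRingHom_eq_coe, RingHom.coe_coe, Polynomial.aeval_C]
      rw [algebraMap_GR]
      change _ = (Germ.coeRingHom (atTop : Filter ℝ)) _
      rw [Germ.coe_coeRingHom]
      congr 1
      ext x
      simp [RingHom.pi]
    · simp only [AlgHom.toRingHom_eq_coe, RingHom.coe_coe, Polynomial.aeval_X]
      change _ = (Germ.coeRingHom (atTop : Filter ℝ)) _
      rw [Germ.coe_coeRingHom]
      congr 1
      ext x
      simp [RingHom.pi]
  exact congrArg (fun f : Polynomial R2 →+* GR => f p) this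

/-- algebraicity of a function over `ℂ(x, Γ(x))` near infinity -/
def AE (h : ℝ → ℂ) : Prop :=
  ∃ p : Polynomial R2, p ≠ 0 ∧ ∀ᶠ x : ℝ in atTop, p.eval₂ (evc (x : ℂ)) (h x) = 0

lemma AE_iff (h : ℝ → ℂ) : AE h ↔ IsAlgebraic R2 (h : GR) := by
  unfold AE IsAlgebraic
  refine exists_congr (fun p => and_congr_right (fun _ => ?_))
  rw [aeval_GR]
  exact (Germ.coe_eq).symm

/-- the class of functions: eventually continuous and algebraic -/
def Alg (h : ℝ → ℂ) : Prop := ECont h ∧ AE h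

lemma ECont.congr' {h h' : ℝ → ℂ} (H : ECont h) (he : h =ᶠ[atTop] h') : ECont h' := by
  obtain ⟨A, hA⟩ := H
  obtain ⟨B, hB⟩ := eventually_atTop.1 he
  refine ⟨max A B, (hA.mono (Ici_subset_Ici.2 (le_max_left _ _))).congr (fun x hx => ?_)⟩
  exact (hB x (le_trans (le_max_right _ _) hx)).symm

lemma ECont.comp2 {h h' : ℝ → ℂ} {f : ℂ → ℂ → ℂ} (hf : Continuous (fun p : ℂ × ℂ => f p.1 p.2))
    (H : ECont h) (H' : ECont h') : ECont (fun x => f (h x) (h' x)) := by
  obtain ⟨A, hA⟩ := H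
  obtain ⟨B, hB⟩ := H'
  refine ⟨max A B, ?_⟩
  exact hf.comp_continuousOn ((hA.mono (Ici_subset_Ici.2 (le_max_left _ _))).prodMk
    (hB.mono (Ici_subset_Ici.2 (le_max_right _ _))))

lemma ECont.add {h h' : ℝ → ℂ} (H : ECont h) (H' : ECont h') : ECont (fun x => h x + h' x) :=
  ECont.comp2 (f := fun a b => a + b) continuous_add H H'

lemma ECont.mul {h h' : ℝ → ℂ} (H : ECont h) (H' : ECont h') : ECont (fun x => h x * h' x) :=
  ECont.comp2 (f := fun a b => a * b) continuous_mul H H'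

lemma ECont.inv {h : ℝ → ℂ} (H : ECont h) (h0 : ∀ᶠ x in atTop, h x ≠ 0) :
    ECont (fun x => (h x)⁻¹) := by
  obtain ⟨A, hA⟩ := H
  obtain ⟨B, hB⟩ := eventually_atTop.1 h0
  refine ⟨max A B, (hA.mono (Ici_subset_Ici.2 (le_max_left _ _))).inv₀ (fun x hx => ?_)⟩
  exact hB x (le_trans (le_max_right _ _) hx)

lemma ECont_of_cont {h : ℝ → ℂ} (H : Continuous h) : ECont h := ⟨0, H.continuousOn⟩

lemma Alg.congr' {h h' : ℝ → ℂ} (H : Alg h) (he : h =ᶠ[atTop] h') : Alg h' := by
  refine ⟨H.1.congr' he, ?_⟩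
  obtain ⟨p, hp, h1⟩ := H.2
  refine ⟨p, hp, ?_⟩
  filter_upwards [h1, he] with x hx hx'
  rw [← hx', hx]

lemma Alg.add {h h' : ℝ → ℂ} (H : Alg h) (H' : Alg h') : Alg (fun x => h x + h' x) := by
  refine ⟨H.1.add H'.1, ?_⟩
  rw [AE_iff]
  exact ((AE_iff h).1 H.2).add ((AE_iff h').1 H'.2)

lemma Alg.mul {h h' : ℝ → ℂ} (H : Alg h) (H' : Alg h') : Alg (fun x => h x * h' x) := by
  refine ⟨H.1.mul H'.1, ?_⟩
  rw [AE_iff]
  exact ((AE_iff h).1 H.2).mul ((AE_iff h').1 H'.2)

lemma cont_ev (P : R2) : Continuous (fun x : ℝ => evc (x : ℂ) P) := by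
  have h1 : Continuous (fun z : ℂ => evc z P) := by
    have : (fun z : ℂ => evc z P) = fun z => ∑ m ∈ P.support, P.coeff m *
        (z ^ (m 0) * (Complex.Gamma z)⁻¹ ^ (m 1)) := by
      ext z
      unfold evc
      rw [MvPolynomial.eval_eq']
      refine Finset.sum_congr rfl (fun m _ => ?_)
      rw [Fin.prod_univ_two]
      rfl
    rw [this]
    have hg : Continuous (fun z : ℂ => (Complex.Gamma z)⁻¹) :=
      Complex.differentiable_one_div_Gamma.continuous
    fun_prop
  exact h1.comp Complex.continuous_ofReal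

lemma Alg_ev (P : R2) : Alg (fun x : ℝ => evc (x : ℂ) P) := by
  refine ⟨ECont_of_cont (cont_ev P), ?_⟩
  rw [AE_iff]
  exact isAlgebraic_algebraMap (R := R2) (A := GR) P

lemma Alg_const (c : ℂ) : Alg (fun _ => c) := by
  refine (Alg_ev (MvPolynomial.C c)).congr' ?_
  filter_upwards with x
  simp [evc]

lemma Alg_x : Alg (fun x => (x : ℂ)) := by
  refine (Alg_ev (MvPolynomial.X 0)).congr' ?_
  filter_upwards with x
  simp [evc]

lemma Alg_G : Alg (fun x => (Complex.Gamma (x : ℂ))⁻¹) := by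
  refine (Alg_ev (MvPolynomial.X 1)).congr' ?_
  filter_upwards with x
  simp [evc]

lemma Alg.neg {h : ℝ → ℂ} (H : Alg h) : Alg (fun x => - h x) := by
  have := (Alg_const (-1)).mul H
  refine this.congr' ?_
  filter_upwards with x
  ring

lemma Alg.sub {h h' : ℝ → ℂ} (H : Alg h) (H' : Alg h') : Alg (fun x => h x - h' x) := by
  have := H.add H'.neg
  refine this.congr' ?_
  filter_upwards with x
  ring

lemma Alg.inv' {h : ℝ → ℂ} (H : Alg h) (h0 : ∀ᶠ x in atTop, h x ≠ 0) :
    Alg (fun x => (h x)⁻¹) := by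
  refine ⟨H.1.inv h0, ?_⟩
  rw [AE_iff]
  have h1 : ((fun x => (h x)⁻¹ : ℝ → ℂ) : GR) * (h : GR) = 1 := by
    rw [← Germ.coe_mul, ← Germ.coe_one, Germ.coe_eq]
    filter_upwards [h0] with x hx
    simp [hx]
  have h2 : (h : GR) * ((fun x => (h x)⁻¹ : ℝ → ℂ) : GR) = 1 := by rw [mul_comm, h1]
  let _ : Invertible (h : GR) := ⟨_, h1, h2⟩
  exact IsAlgebraic.invOf ((AE_iff h).1 H.2)

/-- dichotomy: an algebraic function vanishes identically or has a leading term -/
theorem Alg.dich {h : ℝ → ℂ} (H : Alg h) : (∀ᶠ x in atTop, h x = 0) ∨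
    ∃ (a b : ℚ) (c : ℂ), c ≠ 0 ∧ LT h a b c := by
  classical
  obtain ⟨⟨A, hA⟩, p, hp, hroot⟩ := H
  obtain ⟨q, hq, hnd⟩ := Polynomial.exists_eq_pow_rootMultiplicity_mul_and_not_dvd p hp 0
  rw [Polynomial.C_0, sub_zero] at hnd hq
  rw [Polynomial.X_dvd_iff] at hnd
  have h1 : ∀ᶠ x : ℝ in atTop, h x = 0 ∨ q.eval₂ (evc (x : ℂ)) (h x) = 0 := by
    filter_upwards [hroot] with x hx
    rw [hq, Polynomial.eval₂_mul, Polynomial.eval₂_pow, Polynomial.eval₂_X, mul_eq_zero] at hx
    rcases hx with hx | hx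
    · left
      exact eq_zero_of_pow_eq_zero hx
    · right
      exact hx
  obtain ⟨B, hB⟩ := eventually_atTop.1 (h1.and ((ev_ne hnd).and (eventually_ge_atTop A)))
  have hcB : ContinuousOn h (Ici B) := hA.mono (fun x hx => (hB x hx).2.2)
  have hqe : ∀ x : ℝ, q.eval₂ (evc (x : ℂ)) (h x) =
      ∑ j ∈ q.support, evc x (q.coeff j) * h x ^ j := by
    intro x
    rw [Polynomial.eval₂_eq_sum, Polynomial.sum_def]
  have hqc : ContinuousOn (fun x : ℝ => q.eval₂ (evc (x : ℂ)) (h x)) (Ici B) := by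
    simp only [hqe]
    refine continuousOn_finsetSum _ (fun j _ => ?_)
    exact ((cont_ev (q.coeff j)).continuousOn).mul (hcB.pow j)
  obtain ⟨i, -, hi⟩ := closed_cover (Finset.univ : Finset (Fin 2)) B
    ![Ici B ∩ h ⁻¹' {0}, Ici B ∩ (fun x : ℝ => q.eval₂ (evc (x : ℂ)) (h x)) ⁻¹' {0}]
    (by
      intro i _
      fin_cases i
      · exact hcB.preimage_isClosed_of_isClosed isClosed_Ici isClosed_singleton
      · exact hqc.preimage_isClosed_of_isClosed isClosed_Ici isClosed_singleton)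
    (by
      have key : Disjoint (Ici B ∩ h ⁻¹' {0})
          (Ici B ∩ (fun x : ℝ => q.eval₂ (evc (x : ℂ)) (h x)) ⁻¹' {0}) := by
        rw [Set.disjoint_left]
        rintro x ⟨hx, hx1⟩ ⟨-, hx2⟩
        have hx1' : h x = 0 := hx1
        have hx2' : q.eval₂ (evc (x : ℂ)) (h x) = 0 := hx2
        rw [hx1', Polynomial.eval₂_at_zero] at hx2'
        exact (hB x hx).2.1 hx2'
      intro i _ j _ hij
      fin_cases i <;> fin_cases j
      · exact absurd rfl hij
      · exact key
      · exact key.symm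
      · exact absurd rfl hij)
    (by
      intro x hx
      rcases (hB x hx).1 with h2 | h2
      · exact ⟨0, Finset.mem_univ _, hx, h2⟩
      · exact ⟨1, Finset.mem_univ _, hx, h2⟩)
  fin_cases i
  · left
    filter_upwards [eventually_ge_atTop B] with x hx
    exact (hi x hx).2
  · right
    apply lead q hnd h ⟨A, hA⟩
    filter_upwards [eventually_ge_atTop B] with x hx
    rw [← hqe]
    exact (hi x hx).2

lemma Alg.dich' {h : ℝ → ℂ} (H : Alg h) : (∀ᶠ x in atTop, h x = 0) ∨ ∀ᶠ x in atTop, h x ≠ 0 := by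
  rcases H.dich with h1 | ⟨a, b, c, hc, h1⟩
  · exact Or.inl h1
  · exact Or.inr (h1.eventually_ne hc)

lemma Alg.inv {h : ℝ → ℂ} (H : Alg h) : Alg (fun x => (h x)⁻¹) := by
  rcases H.dich' with h1 | h1
  · refine (Alg_const 0).congr' ?_
    filter_upwards [h1] with x hx
    rw [hx, inv_zero]
  · exact H.inv' h1

lemma Alg.div {h h' : ℝ → ℂ} (H : Alg h) (H' : Alg h') : Alg (fun x => h x / h' x) := by
  simpa only [div_eq_mul_inv] using H.mul H'.inv

/-- complex conjugation -/
lemma Alg.conj {h : ℝ → ℂ} (H : Alg h) : Alg (fun x => (starRingEnd ℂ) (h x)) := by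
  obtain ⟨⟨A, hA⟩, p, hp, hroot⟩ := H
  refine ⟨⟨A, Complex.continuous_conj.comp_continuousOn hA⟩, ?_⟩
  refine ⟨p.map (MvPolynomial.map (starRingEnd ℂ)), ?_, ?_⟩
  · rw [Polynomial.map_ne_zero_iff]
    · exact hp
    · exact MvPolynomial.map_injective _ (RingHom.injective _)
  · filter_upwards [hroot] with x hx
    rw [Polynomial.eval₂_map]
    have h1 : (evc (x : ℂ)).comp (MvPolynomial.map (starRingEnd ℂ)) =
        (starRingEnd ℂ).comp (evc (x : ℂ)) := by
      apply MvPolynomial.ringHom_ext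
      · intro r
        simp [evc]
      · intro i
        fin_cases i
        · simp [evc]
        · simp only [evc, RingHom.comp_apply]
          simp only [MvPolynomial.map_X, MvPolynomial.eval_X]
          change (Complex.Gamma x)⁻¹ = (starRingEnd ℂ) (Complex.Gamma x)⁻¹
          rw [map_inv₀, Complex.Gamma_ofReal, Complex.conj_ofReal]
    rw [h1, ← Polynomial.hom_eval₂, hx, map_zero]

/-- the shift `x ↦ x - 1` on polynomials -/
noncomputable def sh : R2 →+* R2 :=
  MvPolynomial.eval₂Hom MvPolynomial.C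
    ![MvPolynomial.X 0 - 1, (MvPolynomial.X 0 - 1) * MvPolynomial.X 1]

lemma evc_sh (z : ℂ) (hz : z ≠ 1) (P : R2) : evc z (sh P) = evc (z - 1) P := by
  have h1 : (evc z).comp sh = evc (z - 1) := by
    apply MvPolynomial.ringHom_ext
    · intro r
      simp [evc, sh]
    · intro i
      fin_cases i
      · simp [evc, sh]
      · simp only [evc, sh, RingHom.comp_apply]
        simp only [MvPolynomial.coe_eval₂Hom, MvPolynomial.eval₂_X, MvPolynomial.eval_X]
        simp only [Fin.mk_one, Fin.isValue, Matrix.cons_val_one, Matrix.cons_val_zero,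
          map_mul, map_sub, MvPolynomial.eval_X, map_one, Matrix.cons_val_fin_one]
        have h2 : z - 1 ≠ 0 := sub_ne_zero.2 hz
        have h3 := Complex.Gamma_add_one (z - 1) h2
        rw [sub_add_cancel] at h3
        rw [h3, mul_inv]
        field_simp
  rw [← h1]
  rfl

lemma sh_inj : Function.Injective sh := by
  rw [injective_iff_map_eq_zero]
  intro P hP
  by_contra h0
  have h1 := ev_ne h0
  have h2 : Tendsto (fun x : ℝ => x - 1) atTop atTop := tendsto_atTop_add_const_right _ _ tendsto_id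
  obtain ⟨x, hx, hx1⟩ := ((h2.eventually h1).and (eventually_gt_atTop 1)).exists
  apply hx
  have h3 : ((x : ℝ) : ℂ) ≠ 1 := by
    intro h
    have : x = 1 := by exact_mod_cast h
    linarith
  have h4 := evc_sh (x : ℂ) h3 P
  rw [hP, map_zero] at h4
  push_cast
  exact h4.symm

/-- the shift `x ↦ x - 1` -/
lemma Alg.shift {h : ℝ → ℂ} (H : Alg h) : Alg (fun x => h (x - 1)) := by
  obtain ⟨⟨A, hA⟩, p, hp, hroot⟩ := H
  refine ⟨⟨A + 1, ?_⟩, p.map sh, ?_, ?_⟩
  · refine hA.comp (continuous_id.sub continuous_const).continuousOn ?_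
    intro x hx
    have : A + 1 ≤ x := hx
    simp only [mem_Ici]
    linarith
  · rw [Polynomial.map_ne_zero_iff sh_inj]
    exact hp
  · have h2 : Tendsto (fun x : ℝ => x - 1) atTop atTop :=
      tendsto_atTop_add_const_right _ _ tendsto_id
    filter_upwards [h2.eventually hroot, eventually_gt_atTop 1] with x hx hx1
    rw [Polynomial.eval₂_map]
    have h3 : ((x : ℝ) : ℂ) ≠ 1 := by
      intro h
      have : x = 1 := by exact_mod_cast h
      linarith
    have h4 : (evc (x : ℂ)).comp sh = evc (((x - 1 : ℝ)) : ℂ) := by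
      refine RingHom.ext (fun P => ?_)
      rw [RingHom.comp_apply, evc_sh _ h3]
      push_cast
      rfl
    rw [h4]
    exact hx

end Pool.Agent.TH814.GS
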