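import Pool.Agent.TH814.GS.Dom

set_option autoImplicit false

/-!
Leading terms of continuous functions algebraic over `ℂ(x, Γ(x))`.
-/

namespace Pool.Agent.TH814.GS

open Filter Topology Asymptotics Set

lemma prod_ge (m : Multiset ℂ) (z : ℂ) (ε : ℝ) (hε : 0 < ε) (h : ∀ a ∈ m, ε ≤ ‖z - a‖) :
    ε ^ Multiset.card m ≤ ‖(m.map (fun a => z - a)).prod‖ := by
  induction m using Multiset.induction_on with
  | empty => simp
  | cons a m ih =>
    rw [Multiset.card_cons, Multiset.map_cons, Multiset.prod_cons, norm_mul, pow_succ', ]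
    apply mul_le_mul
    · exact h a (Multiset.mem_cons_self a m)
    · exact ih (fun b hb => h b (Multiset.mem_cons_of_mem hb))
    · positivity
    · positivity

/-- small values of a polynomial are attained near its roots -/
lemma near_root (Q : Polynomial ℂ) (hQ : Q ≠ 0) (u : ℝ → ℂ)
    (h : Tendsto (fun x => Q.eval (u x)) atTop (𝓝 0)) (ε : ℝ) (hε : 0 < ε) :
    ∀ᶠ x in atTop, ∃ s ∈ Q.roots.toFinset, dist (u x) s < ε := by
  have hpos : 0 < ‖Q.leadingCoeff‖ * ε ^ Multiset.card Q.roots := by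
    have := norm_pos_iff.2 (Polynomial.leadingCoeff_ne_zero.2 hQ)
    positivity
  have hn := h.norm
  rw [norm_zero] at hn
  have h1 := hn.eventually (gt_mem_nhds hpos)
  filter_upwards [h1] with x hx
  by_contra hcon
  push Not at hcon
  have h2 : Q.eval (u x) = Q.leadingCoeff * (Q.roots.map (fun a => u x - a)).prod := by
    conv_lhs => rw [(IsAlgClosed.splits Q).eq_prod_roots]
    rw [Polynomial.eval_mul, Polynomial.eval_C, Polynomial.eval_multiset_prod, Multiset.map_map]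
    simp
  rw [h2, norm_mul] at hx
  have h3 := prod_ge Q.roots (u x) ε hε (fun a ha => by
    rw [← dist_eq_norm]
    exact hcon a (Multiset.mem_toFinset.2 ha))
  have h4 := mul_le_mul_of_nonneg_left h3 (norm_nonneg Q.leadingCoeff)
  linarith

/-- two terms of a vanishing sum are comparable -/
lemma pair (S : Finset ℕ) (T : ℕ → ℂ) (hT : ∀ j ∈ S, T j ≠ 0) (hS : S.Nonempty)
    (h0 : ∑ j ∈ S, T j = 0) :
    ∃ i ∈ S, ∃ j ∈ S, i ≠ j ∧ |Real.log ‖T i‖ - Real.log ‖T j‖| ≤ Real.log S.card := by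
  classical
  obtain ⟨i, hi, hmax⟩ := S.exists_max_image (fun j => ‖T j‖) hS
  have hcard : 0 < S.card := hS.card_pos
  have hN : (0 : ℝ) < S.card := by exact_mod_cast hcard
  by_contra hcon
  push Not at hcon
  have hpos : ∀ j ∈ S, 0 < ‖T j‖ := fun j hj => norm_pos_iff.2 (hT j hj)
  have h1 : ∀ j ∈ S.erase i, ‖T j‖ ≤ ‖T i‖ / S.card := by
    intro j hj
    rw [Finset.mem_erase] at hj
    have h2 := hcon i hi j hj.2 (Ne.symm hj.1)
    have h3 : Real.log ‖T j‖ ≤ Real.log ‖T i‖ :=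
      Real.log_le_log (hpos j hj.2) (hmax j hj.2)
    rw [abs_of_nonneg (by linarith)] at h2
    have h4 : Real.log (‖T j‖ * S.card) < Real.log ‖T i‖ := by
      rw [Real.log_mul (hpos j hj.2).ne' hN.ne']
      linarith
    have h5 := (Real.log_lt_log_iff (mul_pos (hpos j hj.2) hN) (hpos i hi)).1 h4
    rw [le_div_iff₀ hN]
    exact h5.le
  have h2 : T i = -∑ j ∈ S.erase i, T j := by
    rw [← Finset.add_sum_erase S T hi] at h0
    exact eq_neg_of_add_eq_zero_left h0
  have h3 : ‖T i‖ ≤ (S.card - 1 : ℝ) * (‖T i‖ / S.card) := by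
    calc ‖T i‖ = ‖∑ j ∈ S.erase i, T j‖ := by rw [h2, norm_neg]; 
      _ ≤ ∑ j ∈ S.erase i, ‖T j‖ := norm_sum_le _ _
      _ ≤ ∑ j ∈ S.erase i, ‖T i‖ / S.card := Finset.sum_le_sum h1
      _ = (S.card - 1 : ℝ) * (‖T i‖ / S.card) := by
        rw [Finset.sum_const, Finset.card_erase_of_mem hi, nsmul_eq_mul]
        congr 1
        rw [Nat.cast_sub hcard, Nat.cast_one]
  have h4 : (S.card - 1 : ℝ) * (‖T i‖ / S.card) = ‖T i‖ - ‖T i‖ / S.card := by
    field_simp
  rw [h4] at h3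
  have := div_pos (hpos i hi) hN
  linarith

lemma log_bdd {h : ℝ → ℂ} {a b : ℝ} {c : ℂ} (H : LT h a b c) (hc : c ≠ 0) :
    ∃ K : ℝ, ∀ᶠ x in atTop, h x ≠ 0 ∧
      |Real.log ‖h x‖ - (a * Real.log x + b * Real.log (Real.Gamma x))| ≤ K := by
  have h1 : Tendsto (fun x => Real.log ‖h x / ((mon a b x : ℝ) : ℂ)‖) atTop
      (𝓝 (Real.log ‖c‖)) :=
    (Real.continuousAt_log (norm_ne_zero_iff.2 hc)).tendsto.comp (Tendsto.norm H)
  refine ⟨|Real.log ‖c‖| + 1, ?_⟩
  have h2 := h1.abs.eventually (gt_mem_nhds (lt_add_one |Real.log ‖c‖|))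
  filter_upwards [h2, H.eventually_ne hc, eventually_gt_atTop 0] with x hx hne h0
  rw [norm_div, Complex.norm_real, Real.norm_of_nonneg (mon_pos h0).le,
    Real.log_div (norm_ne_zero_iff.2 hne) (mon_pos h0).ne', log_mon h0] at hx
  exact ⟨hne, hx.le⟩

lemma cont_logGamma : ContinuousOn (fun x : ℝ => Real.log (Real.Gamma x)) (Ici 1) := by
  refine ContinuousOn.log ?_ ?_
  · intro x hx
    have hx' : (1:ℝ) ≤ x := hx
    refine (Real.differentiableAt_Gamma (fun m => ?_)).continuousAt.continuousWithinAt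
    have : (0:ℝ) ≤ m := Nat.cast_nonneg m
    linarith
  · intro x hx
    have hx' : (1:ℝ) ≤ x := hx
    exact (Real.Gamma_pos_of_pos (by linarith)).ne'

lemma cont_log : ContinuousOn (fun x : ℝ => Real.log x) (Ici 1) := by
  refine ContinuousOn.log continuousOn_id ?_
  intro x hx
  have hx' : (1:ℝ) ≤ x := hx
  exact (lt_of_lt_of_le one_pos hx').ne'

lemma cont_mon (a b : ℝ) : ContinuousOn (mon a b) (Ici 1) := by
  have h1 : ContinuousOn (fun x => Real.exp (a * Real.log x + b * Real.log (Real.Gamma x)))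
      (Ici 1) :=
    Real.continuous_exp.comp_continuousOn
      ((cont_log.const_smul a).add (cont_logGamma.const_smul b))
  refine h1.congr (fun x hx => ?_)
  have hx' : (1:ℝ) ≤ x := hx
  simp only
  rw [← log_mon (by linarith), Real.exp_log (mon_pos (by linarith))]

theorem lead (q : Polynomial R2) (hq0 : q.coeff 0 ≠ 0) (h : ℝ → ℂ) (hc : ECont h)
    (hroot : ∀ᶠ x : ℝ in atTop, ∑ j ∈ q.support, evc x (q.coeff j) * h x ^ j = 0) :
    ∃ (a b : ℚ) (c : ℂ), c ≠ 0 ∧ LT h a b c := by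
  classical
  set S := q.support with hS
  have h0S : 0 ∈ S := Polynomial.mem_support_iff.2 hq0
  have hSne : S.Nonempty := ⟨0, h0S⟩
  have hlt : ∀ j : ℕ, ∃ (a b : ℚ) (κ : ℂ), j ∈ S → (κ ≠ 0 ∧
      LT (fun x : ℝ => evc x (q.coeff j)) a b κ) := by
    intro j
    by_cases hj : j ∈ S
    · obtain ⟨a, b, κ, h1, h2⟩ := ev_lt (Polynomial.mem_support_iff.1 hj)
      exact ⟨a, b, κ, fun _ => ⟨h1, h2⟩⟩
    · exact ⟨0, 0, 0, fun h => absurd h hj⟩
  choose a b κ hκ using hlt
  have hbd : ∀ j : ℕ, ∃ K : ℝ, j ∈ S → ∀ᶠ x : ℝ in atTop, evc x (q.coeff j) ≠ 0 ∧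
      |Real.log ‖evc x (q.coeff j)‖ - (a j * Real.log x + b j * Real.log (Real.Gamma x))| ≤ K := by
    intro j
    by_cases hj : j ∈ S
    · obtain ⟨K, hK⟩ := log_bdd (hκ j hj).2 (hκ j hj).1
      exact ⟨K, fun _ => hK⟩
    · exact ⟨0, fun h => absurd h hj⟩
  choose K hK using hbd
  have hKall : ∀ᶠ x : ℝ in atTop, ∀ j ∈ S, evc x (q.coeff j) ≠ 0 ∧
      |Real.log ‖evc x (q.coeff j)‖ - (a j * Real.log x + b j * Real.log (Real.Gamma x))|
        ≤ K j := by
    rw [Filter.eventually_all_finset]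
    exact hK
  have hne : ∀ᶠ x in atTop, h x ≠ 0 := by
    filter_upwards [hroot, hKall] with x hx hKx h0
    rw [Finset.sum_eq_single 0] at hx
    · rw [pow_zero, mul_one] at hx
      exact (hKx 0 h0S).1 hx
    · intro j _ hj
      rw [h0, zero_pow hj, mul_zero]
    · intro h
      exact absurd h0S h
  set C : ℝ := Real.log S.card + 2 * ∑ j ∈ S, |K j| with hC
  have hKC : ∀ j ∈ S, K j ≤ ∑ j ∈ S, |K j| := fun j hj =>
    (le_abs_self _).trans (Finset.single_le_sum (f := fun j => |K j|)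
      (fun i _ => abs_nonneg _) hj)
  set E : Finset (ℚ × ℚ) := S.offDiag.image
    (fun p => ((a p.2 - a p.1) / ((p.1 : ℚ) - p.2), (b p.2 - b p.1) / ((p.1 : ℚ) - p.2))) with hE
  have hpair : ∀ᶠ x : ℝ in atTop, ∃ e ∈ E,
      |Real.log ‖h x‖ - (e.1 * Real.log x + e.2 * Real.log (Real.Gamma x))| ≤ C := by
    filter_upwards [hroot, hKall, hne] with x hx hKx hhx
    obtain ⟨i, hi, j, hj, hij, hlog⟩ := pair S (fun j => evc x (q.coeff j) * h x ^ j)
      (fun j hj => mul_ne_zero (hKx j hj).1 (pow_ne_zero _ hhx)) hSne hx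
    refine ⟨((a j - a i) / ((i : ℚ) - j), (b j - b i) / ((i : ℚ) - j)), ?_, ?_⟩
    · rw [hE]
      exact Finset.mem_image.2 ⟨(i, j), Finset.mem_offDiag.2 ⟨hi, hj, hij⟩, rfl⟩
    · have hij' : (1:ℝ) ≤ |(i:ℝ) - j| := by
        have : (1:ℤ) ≤ |(i:ℤ) - j| := Int.one_le_abs (by omega)
        exact_mod_cast this
      have hij0 : (i:ℝ) - j ≠ 0 := by
        intro h
        rw [h, abs_zero] at hij'
        linarith
      simp only [norm_mul, norm_pow] at hlog
      have hn := norm_ne_zero_iff.2 hhx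
      rw [Real.log_mul (norm_ne_zero_iff.2 (hKx i hi).1) (pow_ne_zero _ hn),
        Real.log_mul (norm_ne_zero_iff.2 (hKx j hj).1) (pow_ne_zero _ hn), Real.log_pow,
        Real.log_pow] at hlog
      have k1 := abs_le.1 (hKx i hi).2
      have k2 := abs_le.1 (hKx j hj).2
      have k3 := abs_le.1 hlog
      have k4 := hKC i hi
      have k5 := hKC j hj
      push_cast
      have key : Real.log ‖h x‖ - (((a j : ℝ) - a i) / ((i:ℝ) - j) * Real.log x +
          ((b j : ℝ) - b i) / ((i:ℝ) - j) * Real.log (Real.Gamma x)) =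
          (((i:ℝ) - j) * Real.log ‖h x‖ - (((a j : ℝ) - a i) * Real.log x +
            ((b j : ℝ) - b i) * Real.log (Real.Gamma x))) / ((i:ℝ) - j) := by
        field_simp
      rw [key, abs_div, div_le_iff₀ (by linarith)]
      have hCn : 0 ≤ C := by
        have h1 : 0 ≤ ∑ j ∈ S, |K j| := Finset.sum_nonneg (fun j _ => abs_nonneg _)
        have h2 : 0 ≤ Real.log S.card := Real.log_natCast_nonneg _
        linarith
      have h3 : C ≤ C * |(i:ℝ) - j| := by nlinarith
      refine le_trans ?_ h3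
      rw [abs_le]
      constructor <;> nlinarith
  have hdisj : ∀ᶠ x : ℝ in atTop, ∀ p ∈ E ×ˢ E, p.1 ≠ p.2 →
      2 * C < |((p.1.1 : ℝ) - p.2.1) * Real.log x +
        ((p.1.2 : ℝ) - p.2.2) * Real.log (Real.Gamma x)| := by
    rw [Filter.eventually_all_finset]
    intro p _
    by_cases hpp : p.1 = p.2
    · exact Eventually.of_forall (fun x h => absurd hpp h)
    · rcases Big.trichotomy ((p.1.1 : ℝ) - p.2.1) ((p.1.2 : ℝ) - p.2.2) with h1 | h1 | h1
      · filter_upwards [(log_mon_atTop h1).eventually_gt_atTop (2 * C),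
          eventually_gt_atTop 0] with x hx hx0 _
        rw [log_mon hx0] at hx
        exact lt_of_lt_of_le hx (le_abs_self _)
      · filter_upwards [(log_mon_atTop h1).eventually_gt_atTop (2 * C),
          eventually_gt_atTop 0] with x hx hx0 _
        rw [log_mon hx0] at hx
        refine lt_of_lt_of_le hx ?_
        refine le_trans (le_of_eq ?_) (neg_le_abs _)
        ring
      · exfalso
        apply hpp
        apply Prod.ext
        · have := sub_eq_zero.1 h1.1
          exact_mod_cast this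
        · have := sub_eq_zero.1 h1.2
          exact_mod_cast this
  obtain ⟨A, hA⟩ := hc
  obtain ⟨B, hB⟩ := eventually_atTop.1 ((hpair.and hdisj).and (hne.and
    ((eventually_ge_atTop A).and (eventually_ge_atTop 1))))
  have hB1 : 1 ≤ B := (hB B le_rfl).2.2.2
  have hcB : ContinuousOn h (Ici B) := hA.mono (fun x hx => (hB x hx).2.2.1)
  have hsub1 : Ici B ⊆ Ici 1 := Ici_subset_Ici.2 hB1
  have hlogc : ∀ e : ℚ × ℚ, ContinuousOn (fun x => Real.log ‖h x‖ -
      (e.1 * Real.log x + e.2 * Real.log (Real.Gamma x))) (Ici B) := by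
    intro e
    refine ContinuousOn.sub ?_ ?_
    · exact ContinuousOn.log hcB.norm (fun x hx => norm_ne_zero_iff.2 (hB x hx).2.1)
    · exact (((cont_log.mono hsub1).const_smul (e.1 : ℝ)).add ((cont_logGamma.mono hsub1).const_smul (e.2 : ℝ)))
  obtain ⟨e, he, hall⟩ := closed_cover E B
    (fun e => Ici B ∩ (fun x => Real.log ‖h x‖ -
      (e.1 * Real.log x + e.2 * Real.log (Real.Gamma x))) ⁻¹' (Icc (-C) C))
    (fun e _ => (hlogc e).preimage_isClosed_of_isClosed isClosed_Ici isClosed_Icc)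
    (by
      intro e he e' he' hne
      rw [Set.disjoint_left]
      rintro x ⟨hx, hx1⟩ ⟨-, hx2⟩
      have h1 := (hB x hx).1.2 (e, e') (Finset.mem_product.2 ⟨he, he'⟩) hne
      simp only [mem_preimage, mem_Icc] at hx1 hx2
      simp only at h1
      rw [lt_abs] at h1
      rcases h1 with h1 | h1 <;> nlinarith)
    (by
      intro x hx
      obtain ⟨e, he, hex⟩ := (hB x hx).1.1
      exact ⟨e, he, hx, abs_le.1 hex⟩)
  set u : ℝ → ℂ := fun x => h x / ((mon e.1 e.2 x : ℝ) : ℂ) with hu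
  have hub : ∀ x, B ≤ x → Real.exp (-C) ≤ ‖u x‖ ∧ ‖u x‖ ≤ Real.exp C := by
    intro x hx
    have hx0 : 0 < x := by linarith
    have h1 := (hall x hx).2
    simp only [mem_preimage, mem_Icc] at h1
    have h2 : Real.log ‖u x‖ = Real.log ‖h x‖ -
        (e.1 * Real.log x + e.2 * Real.log (Real.Gamma x)) := by
      rw [hu]
      simp only
      rw [norm_div, Complex.norm_real, Real.norm_of_nonneg (mon_pos hx0).le,
        Real.log_div (norm_ne_zero_iff.2 (hB x hx).2.1) (mon_pos hx0).ne', log_mon hx0]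
    have h3 : 0 < ‖u x‖ := norm_pos_iff.2 (div_ne_zero (hB x hx).2.1 (monc_ne hx0))
    rw [← h2] at h1
    constructor
    · rw [← Real.exp_log h3]
      exact Real.exp_le_exp.2 h1.1
    · rw [← Real.exp_log h3]
      exact Real.exp_le_exp.2 h1.2
  have huc : ECont u := by
    refine ⟨B, hcB.div ?_ ?_⟩
    · exact Complex.continuous_ofReal.comp_continuousOn ((cont_mon _ _).mono hsub1)
    · intro x hx
      exact monc_ne (by linarith [mem_Ici.1 hx])
  obtain ⟨j₀, hj₀, hmax⟩ := exists_max S hSne (fun j => (a j : ℝ) + j * e.1)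
    (fun j => (b j : ℝ) + j * e.2)
  set κ' : ℕ → ℂ := fun j => if ((a j : ℝ) + j * e.1 = a j₀ + j₀ * e.1 ∧
    (b j : ℝ) + j * e.2 = b j₀ + j₀ * e.2) then κ j else 0 with hκ'
  have hF : ∀ j ∈ S, LT (fun x : ℝ => evc x (q.coeff j) * ((mon e.1 e.2 x : ℝ) : ℂ) ^ j)
      (a j₀ + j₀ * e.1) (b j₀ + j₀ * e.2) (κ' j) := by
    intro j hj
    have h1 := ((hκ j hj).2).mul ((LT_mon e.1 e.2).pow j)
    rw [one_pow, mul_one] at h1
    by_cases hcs : ((a j : ℝ) + j * e.1 = a j₀ + j₀ * e.1 ∧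
      (b j : ℝ) + j * e.2 = b j₀ + j₀ * e.2)
    · rw [hκ']
      simp only
      rw [if_pos hcs, ← hcs.1, ← hcs.2]
      exact h1
    · rw [hκ']
      simp only
      rw [if_neg hcs]
      rcases hmax j hj with h2 | h2
      · exact h1.of_big h2
      · exact absurd h2 hcs
  set Q : Polynomial ℂ := ∑ j ∈ S, Polynomial.monomial j (κ' j) with hQ
  have hQ0 : Q ≠ 0 := by
    intro h0
    have h1 : Q.coeff j₀ = κ j₀ := by
      rw [hQ, Polynomial.finsetSum_coeff, Finset.sum_eq_single j₀]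
      · rw [Polynomial.coeff_monomial_same, hκ']
        simp
      · intro j _ hj
        rw [Polynomial.coeff_monomial, if_neg hj]
      · intro h
        exact absurd hj₀ h
    rw [h0, Polynomial.coeff_zero] at h1
    exact (hκ j₀ hj₀).1 h1.symm
  have hQt : Tendsto (fun x => Q.eval (u x)) atTop (𝓝 0) := by
    have h1 : Tendsto (fun x : ℝ => ∑ j ∈ S, (κ' j -
        evc x (q.coeff j) * ((mon e.1 e.2 x : ℝ) : ℂ) ^ j /
          ((mon (a j₀ + j₀ * e.1) (b j₀ + j₀ * e.2) x : ℝ) : ℂ)) * u x ^ j) atTop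
        (𝓝 (∑ j ∈ S, (0:ℂ))) := by
      refine tendsto_finsetSum S (fun j hj => ?_)
      have h2 := Tendsto.const_sub (κ' j) (hF j hj)
      rw [sub_self] at h2
      have h3 : IsBoundedUnder (· ≤ ·) atTop (fun x => ‖u x ^ j‖) := by
        refine ⟨Real.exp C ^ j, ?_⟩
        rw [eventually_map]
        filter_upwards [eventually_ge_atTop B] with x hx
        rw [norm_pow]
        exact pow_le_pow_left₀ (norm_nonneg _) (hub x hx).2 j
      exact (h2.zero_mul_isBoundedUnder_le h3)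
    rw [Finset.sum_const_zero] at h1
    refine h1.congr' ?_
    filter_upwards [hroot, eventually_gt_atTop 0] with x hx hx0
    have h2 : ∑ j ∈ S, (evc x (q.coeff j) * ((mon e.1 e.2 x : ℝ) : ℂ) ^ j /
          ((mon (a j₀ + j₀ * e.1) (b j₀ + j₀ * e.2) x : ℝ) : ℂ)) * u x ^ j = 0 := by
      have h3 : ∀ j ∈ S, (evc x (q.coeff j) * ((mon e.1 e.2 x : ℝ) : ℂ) ^ j /
          ((mon (a j₀ + j₀ * e.1) (b j₀ + j₀ * e.2) x : ℝ) : ℂ)) * u x ^ j =
          (evc x (q.coeff j) * h x ^ j) /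
            ((mon (a j₀ + j₀ * e.1) (b j₀ + j₀ * e.2) x : ℝ) : ℂ) := by
        intro j _
        rw [hu]
        simp only
        rw [div_pow]
        have h4 := monc_ne (a := e.1) (b := e.2) hx0
        field_simp
      rw [Finset.sum_congr rfl h3, ← Finset.sum_div, hx, zero_div]
    simp only [sub_mul, Finset.sum_sub_distrib]
    rw [h2, sub_zero, hQ, Polynomial.eval_finsetSum]
    refine Finset.sum_congr rfl (fun j _ => ?_)
    rw [Polynomial.eval_monomial]
  obtain ⟨c, hc, huc⟩ := tendsto_of_finset Q.roots.toFinset huc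
    (fun ε hε => near_root Q hQ0 u hQt ε hε)
  refine ⟨e.1, e.2, c, ?_, huc⟩
  rintro rfl
  have h1 := (huc.norm).eventually (gt_mem_nhds (by rw [norm_zero]; exact Real.exp_pos (-C)))
  obtain ⟨x, hx1, hx2⟩ := (h1.and (eventually_ge_atTop B)).exists
  have := (hub x hx2).1
  linarith

end Pool.Agent.TH814.GS
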