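import Pool.Agent.TH814.GS.FDep

set_option autoImplicit false

/-!
An Ax-Schanuel type theorem for two values of the Gamma function.
-/

namespace Pool.Agent.TH814.GS

open Filter Topology Set
open scoped Polynomial

lemma inv_Gamma_ne {z : ℂ} : (Complex.Gamma z)⁻¹ ≠ 0 ↔ ∀ m : ℕ, z ≠ -m := by
  rw [Ne, inv_eq_zero, Complex.Gamma_eq_zero_iff]
  push Not
  rfl

/-- the local statement: the first function is the coordinate -/
theorem local_case {Ω : Set ℂ} (hΩ : IsOpen Ω) (hp : IsPreconnected Ω) (hne : Ω.Nonempty)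
    {φ : ℂ → ℂ} (hφ : DifferentiableOn ℂ φ Ω) (h1 : ∀ t ∈ Ω, ∀ m : ℕ, t ≠ -m)
    (h2 : ∀ t ∈ Ω, ∀ m : ℕ, φ t ≠ -m)
    (hd1 : Dep3 Ω (fun t => t) Complex.Gamma φ)
    (hd2 : Dep3 Ω (fun t => t) Complex.Gamma (fun t => Complex.Gamma (φ t))) :
    (∃ c, ∀ t ∈ Ω, φ t = c) ∨ ∃ m : ℤ, ∀ t ∈ Ω, φ t = t + m := by
  have hG0 : ∀ t ∈ Ω, Complex.Gamma t ≠ 0 := fun t ht h =>
    inv_Gamma_ne.2 (h1 t ht) (by rw [h, inv_zero])
  have hG0' : ∀ t ∈ Ω, Complex.Gamma (φ t) ≠ 0 := fun t ht h =>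
    inv_Gamma_ne.2 (h2 t ht) (by rw [h, inv_zero])
  -- relations over polynomials in `z` and `1/Γ(z)`
  have e1 : Dep3 Ω φ (fun t => t) (fun t => (Complex.Gamma t)⁻¹) := by
    have a1 := hd1.swap.inv hG0
    exact a1.swap.perm.perm
  have e2 : Dep3 Ω (fun t => Complex.Gamma (φ t)) (fun t => t) (fun t => (Complex.Gamma t)⁻¹) := by
    have a1 := hd2.swap.inv hG0
    have a2 := a1.swap
    exact a2.perm.perm
  have hgd : DifferentiableOn ℂ (fun t => Complex.Gamma (φ t)) Ω := by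
    intro t ht
    exact ((Complex.differentiableAt_Gamma _ (h2 t ht)).comp_differentiableWithinAt t
      (hφ t ht))
  have e1' := Dep3.iff.1 e1
  have e2' := Dep3.iff.1 e2
  rcases classify hΩ hp hne hφ hgd e1' e2' (fun t ht => mul_inv_cancel₀ (hG0' t ht)) with h | ⟨s, hs⟩
  · exact Or.inl h
  · right
    have e3 := e2.inv hG0'
    have e4 : Dep3 Ω (fun t => (Complex.Gamma (t + (s : ℝ)))⁻¹) (fun t => t)
        (fun t => (Complex.Gamma t)⁻¹) := by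
      obtain ⟨Q, hQ, h0⟩ := e3
      refine ⟨Q, hQ, fun t ht => ?_⟩
      have h3 := h0 t ht
      simp only [hs t ht] at h3
      simp only [Complex.ofReal_ratCast]
      exact h3
    obtain ⟨m, hm⟩ := rho_int hΩ hne e4
    refine ⟨m, fun t ht => ?_⟩
    rw [hs t ht]
    have : (s : ℂ) = m := by exact_mod_cast hm
    rw [this]

theorem ax_pairs {Ω : Set ℂ} (hΩ : IsOpen Ω) (hp : IsPreconnected Ω) (hne : Ω.Nonempty)
    {f g : ℂ → ℂ} (hf : DifferentiableOn ℂ f Ω) (hg : DifferentiableOn ℂ g Ω)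
    (hfc : ∀ v : ℂ, ¬ ∀ t ∈ Ω, f t = v) (hgc : ∀ v : ℂ, ¬ ∀ t ∈ Ω, g t = v)
    (hfg : ∀ m : ℤ, ¬ ∀ t ∈ Ω, g t = f t + m)
    (P₁ P₂ : MvPolynomial (Fin 3) ℂ) (hP₁ : P₁ ≠ 0) (hP₂ : P₂ ≠ 0) :
    ∃ t ∈ Ω, (∀ m : ℕ, f t ≠ -m) ∧ (∀ m : ℕ, g t ≠ -m) ∧
      (MvPolynomial.eval ![f t, Complex.Gamma (f t), g t] P₁ ≠ 0 ∨
        MvPolynomial.eval ![f t, Complex.Gamma (f t), Complex.Gamma (g t)] P₂ ≠ 0) := by
  by_contra hcon
  push Not at hcon
  have hfa := hf.analyticOnNhd hΩ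
  have hga := hg.analyticOnNhd hΩ
  have hgd : Differentiable ℂ (fun z : ℂ => (Complex.Gamma z)⁻¹) :=
    Complex.differentiable_one_div_Gamma
  have hfi : AnalyticOnNhd ℂ (fun t => (Complex.Gamma (f t))⁻¹) Ω :=
    (hgd.comp_differentiableOn hf).analyticOnNhd hΩ
  have hgi : AnalyticOnNhd ℂ (fun t => (Complex.Gamma (g t))⁻¹) Ω :=
    (hgd.comp_differentiableOn hg).analyticOnNhd hΩ
  have hconst : ∀ h : ℂ → ℂ, DifferentiableOn ℂ h Ω → (∀ v : ℂ, ¬ ∀ t ∈ Ω, h t = v) →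
      ¬ ∀ t ∈ Ω, (Complex.Gamma (h t))⁻¹ = 0 := by
    intro h hh hc h0
    have hcount : (Set.range (fun n : ℕ => -(n : ℂ))).Countable := Set.countable_range _
    have hsub : h '' Ω ⊆ Set.range (fun n : ℕ => -(n : ℂ)) := by
      rintro _ ⟨t, ht, rfl⟩
      have h1 := h0 t ht
      rw [inv_eq_zero, Complex.Gamma_eq_zero_iff] at h1
      obtain ⟨m, hm⟩ := h1
      exact ⟨m, hm.symm⟩
    have hss := hcount.isTotallyDisconnected _ hsub (hp.image _ hh.continuousOn)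
    obtain ⟨t₀, ht₀⟩ := hne
    exact hc (h t₀) (fun t ht => hss ⟨t, ht, rfl⟩ ⟨t₀, ht₀, rfl⟩)
  -- a good point
  obtain ⟨t₀, ht₀, hd0, hf0, hg0⟩ : ∃ t ∈ Ω, deriv f t ≠ 0 ∧ (Complex.Gamma (f t))⁻¹ ≠ 0 ∧
      (Complex.Gamma (g t))⁻¹ ≠ 0 := by
    by_contra hno
    push Not at hno
    have h1 : ∀ t ∈ Ω, (deriv f t * (Complex.Gamma (f t))⁻¹) * (Complex.Gamma (g t))⁻¹ = 0 := by
      intro t ht
      by_cases h2 : deriv f t = 0
      · rw [h2, zero_mul, zero_mul]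
      · by_cases h3 : (Complex.Gamma (f t))⁻¹ = 0
        · rw [h3, mul_zero, zero_mul]
        · rw [hno t ht h2 h3, mul_zero]
    rcases ((hfa.deriv).mul hfi).eq_zero_or_eq_zero_of_mul_eq_zero hgi h1 hp with h2 | h2
    · rcases (hfa.deriv).eq_zero_or_eq_zero_of_mul_eq_zero hfi h2 hp with h3 | h3
      · obtain ⟨t₀, ht₀⟩ := hne
        apply hfc (f t₀)
        intro t ht
        exact hΩ.is_const_of_deriv_eq_zero hp hf h3 ht ht₀
      · exact hconst f hf hfc h3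
    · exact hconst g hg hgc h2
  -- the local inverse
  have hfat := hfa t₀ ht₀
  set ψ := hfat.hasStrictDerivAt.localInverse _ _ _ hd0 with hψ
  have hψa : AnalyticAt ℂ ψ (f t₀) := hfat.analyticAt_localInverse hd0
  have hψ0 : ψ (f t₀) = t₀ := HasStrictFDerivAt.localInverse_apply_image ..
  have hr : ∀ᶠ z in 𝓝 (f t₀), f (ψ z) = z := HasStrictDerivAt.eventually_right_inverse ..
  have hl : ∀ᶠ t in 𝓝 t₀, ψ (f t) = t := HasStrictDerivAt.eventually_left_inverse ..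
  have hψt : Tendsto ψ (𝓝 (f t₀)) (𝓝 t₀) := by
    have := hψa.continuousAt.tendsto
    rwa [hψ0] at this
  have hfn : ∀ᶠ t in 𝓝 t₀, (Complex.Gamma (f t))⁻¹ ≠ 0 :=
    (hfi t₀ ht₀).continuousAt.eventually_ne hf0
  have hgn : ∀ᶠ t in 𝓝 t₀, (Complex.Gamma (g t))⁻¹ ≠ 0 :=
    (hgi t₀ ht₀).continuousAt.eventually_ne hg0
  have hall : ∀ᶠ z in 𝓝 (f t₀), (f (ψ z) = z ∧ ψ z ∈ Ω ∧ (Complex.Gamma (f (ψ z)))⁻¹ ≠ 0 ∧
      (Complex.Gamma (g (ψ z)))⁻¹ ≠ 0) ∧ AnalyticAt ℂ ψ z := by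
    filter_upwards [hr, hψt.eventually (hΩ.mem_nhds ht₀), hψt.eventually hfn,
      hψt.eventually hgn, hψa.eventually_analyticAt] with z a1 a2 a3 a4 a5
    exact ⟨⟨a1, a2, a3, a4⟩, a5⟩
  obtain ⟨r, hr0, hball⟩ := Metric.eventually_nhds_iff_ball.1 hall
  set B := Metric.ball (f t₀) r with hB
  have hBo : IsOpen B := Metric.isOpen_ball
  have hBp : IsPreconnected B := (convex_ball _ _).isPreconnected
  have hBne : B.Nonempty := ⟨f t₀, Metric.mem_ball_self hr0⟩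
  have hφd : DifferentiableOn ℂ (fun z => g (ψ z)) B := by
    intro z hz
    have h1 := hball z hz
    exact ((hga _ h1.1.2.1).differentiableAt.comp z h1.2.differentiableAt).differentiableWithinAt
  have hBpole : ∀ z ∈ B, ∀ m : ℕ, z ≠ -m := by
    intro z hz
    have h1 := (hball z hz).1.2.2.1
    rw [(hball z hz).1.1] at h1
    exact inv_Gamma_ne.1 h1
  have hBpole2 : ∀ z ∈ B, ∀ m : ℕ, g (ψ z) ≠ -m := fun z hz =>
    inv_Gamma_ne.1 (hball z hz).1.2.2.2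
  have hBf : ∀ᶠ t in 𝓝 t₀, f t ∈ B :=
    hfat.continuousAt.tendsto.eventually (hBo.mem_nhds (Metric.mem_ball_self hr0))
  have key := local_case hBo hBp hBne hφd hBpole hBpole2
    ⟨P₁, hP₁, fun z hz => by
      have h1 := (hcon (ψ z) (hball z hz).1.2.1
        (inv_Gamma_ne.1 (hball z hz).1.2.2.1) (hBpole2 z hz)).1
      rw [(hball z hz).1.1] at h1
      exact h1⟩
    ⟨P₂, hP₂, fun z hz => by
      have h1 := (hcon (ψ z) (hball z hz).1.2.1
        (inv_Gamma_ne.1 (hball z hz).1.2.2.1) (hBpole2 z hz)).2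
      rw [(hball z hz).1.1] at h1
      exact h1⟩
  rcases key with ⟨c, hc⟩ | ⟨m, hm⟩
  · apply hgc c
    intro t ht
    have h1 := open_id hΩ hp (hg.sub_const c) ht₀ (by
      filter_upwards [hl, hBf] with t h2 h3
      have h4 := hc _ h3
      rw [h2] at h4
      exact sub_eq_zero.2 h4)
    exact sub_eq_zero.1 (h1 t ht)
  · apply hfg m
    intro t ht
    have h1 := open_id (f := fun t => g t - (f t + m)) hΩ hp
      (hg.sub (hf.add_const (m : ℂ))) ht₀ (by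
      filter_upwards [hl, hBf] with t h2 h3
      have h4 := hm _ h3
      rw [h2] at h4
      exact sub_eq_zero.2 h4)
    exact sub_eq_zero.1 (h1 t ht)

end Pool.Agent.TH814.GS
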