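import Mathlib
import Pool.Agent.H401R2.Stir

set_option autoImplicit false

/-!
Stirling's formula in the closed right half plane.
-/

namespace Pool.Agent.TH814.GS

open Complex Filter Topology Pool.Agent.H401R2

lemma norm_mB_right {z : ℂ} (hz : 0 < z.re) (k : ℕ) :
    ‖mB (z + k)‖ ≤ 1 / (4 * (‖z‖ + k) ^ 2) := by
  have hz' : 0 < (z + k).re := by simp; positivity
  have hn : 0 < ‖z‖ := norm_pos_iff.2 (by rintro rfl; simp at hz)
  rw [mB_eq hz']
  have h := intervalIntegral.norm_integral_le_of_norm_le_const (a := 0) (b := 1)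
    (f := fun x : ℝ => ((x * (1 - x) / 2 : ℝ) : ℂ) / (z + k + x) ^ 2)
    (C := 1 / (4 * (‖z‖ + k) ^ 2)) (by
      intro x hx
      rw [Set.uIoc_of_le zero_le_one] at hx
      have hk : (0 : ℝ) ≤ k := Nat.cast_nonneg k
      have h1 : (‖z‖ + k) ^ 2 ≤ 2 * ‖z + k + x‖ ^ 2 := by
        have e1 : ‖z + k + x‖ ^ 2 = (z.re + k + x) ^ 2 + z.im ^ 2 := by
          rw [Complex.sq_norm, Complex.normSq_apply]
          simp
          ring
        have e2 : ‖z‖ ^ 2 = z.re ^ 2 + z.im ^ 2 := by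
          rw [Complex.sq_norm, Complex.normSq_apply]
          ring
        have e3 : (z.re + k + x) ^ 2 + z.im ^ 2 ≥ ‖z‖ ^ 2 + (k:ℝ) ^ 2 := by
          rw [e2]
          have := hx.1
          nlinarith [mul_nonneg hz.le hk, mul_nonneg hz.le this.le, mul_nonneg hk this.le]
        rw [e1]
        nlinarith [sq_nonneg (‖z‖ - k)]
      have h2 : 0 ≤ x * (1 - x) / 2 := by nlinarith [hx.1, hx.2]
      have h3 : x * (1 - x) / 2 ≤ 1 / 8 := by nlinarith [sq_nonneg (x - 1/2)]
      have h5 : 0 < (‖z‖ + k) ^ 2 := by positivity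
      rw [norm_div, norm_pow, norm_real, Real.norm_eq_abs, abs_of_nonneg h2]
      have h4 : 0 < ‖z + k + x‖ ^ 2 := by nlinarith
      rw [div_le_div_iff₀ h4 (by positivity)]
      nlinarith)
  simpa using h

lemma sum_sq_le {a : ℝ} (ha : 1 ≤ a) (n : ℕ) :
    ∑ k ∈ Finset.range (n + 1), 1 / (4 * (a + (k : ℝ)) ^ 2) ≤ 1 / (2 * a) - 1 / (4 * (a + n)) := by
  induction n with
  | zero =>
    simp only [zero_add, Finset.range_one, Finset.sum_singleton, Nat.cast_zero, add_zero]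
    rw [div_sub_div _ _ (by positivity) (by positivity),
      div_le_div_iff₀ (by positivity) (by positivity)]
    nlinarith [mul_nonneg (sq_nonneg a) (sub_nonneg.2 ha), sq_nonneg a,
      mul_nonneg (mul_nonneg (sq_nonneg a) (sub_nonneg.2 ha)) (by linarith : (0:ℝ) ≤ a)]
  | succ n ih =>
    rw [Finset.sum_range_succ]
    have hn : (0:ℝ) ≤ n := Nat.cast_nonneg n
    push_cast
    have h : 1 / (4 * (a + (n + 1 : ℝ)) ^ 2) ≤ 1 / (4 * (a + n)) - 1 / (4 * (a + (n + 1))) := by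
      rw [div_sub_div _ _ (by positivity) (by positivity),
        div_le_div_iff₀ (by positivity) (by positivity)]
      have : 0 ≤ a + n := by linarith
      nlinarith [mul_nonneg this this, mul_nonneg (mul_nonneg this this) this]
    linarith

lemma sum_mB_right {z : ℂ} (hz : 0 < z.re) (h1 : 1 ≤ ‖z‖) (n : ℕ) :
    ‖∑ k ∈ Finset.range n, mB (z + k)‖ ≤ 1 / (2 * ‖z‖) := by
  refine (norm_sum_le _ _).trans ?_
  refine (Finset.sum_le_sum (fun k _ => norm_mB_right hz k)).trans ?_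
  refine (Finset.sum_le_sum_of_subset_of_nonneg (Finset.range_mono (Nat.le_succ n))
    (fun i _ _ => by positivity)).trans ?_
  refine (sum_sq_le h1 n).trans ?_
  have : (0 : ℝ) ≤ 1 / (4 * (‖z‖ + n)) := by positivity
  linarith

lemma sqrt_ne : ((√(2 * Real.pi) : ℝ) : ℂ) ≠ 0 := by
  have : √(2 * Real.pi) ≠ 0 := by positivity
  exact_mod_cast this

lemma stir_open {z : ℂ} (hz : 0 < z.re) (hn : 1 ≤ ‖z‖) :
    ‖sA z / ((√(2 * Real.pi) : ℝ) : ℂ) - 1‖ ≤ 1 / ‖z‖ := by
  have h1 : ∀ n : ℕ, ‖sA z / sA (z + n) - 1‖ ≤ 1 / ‖z‖ := by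
    intro n
    rw [sA_add_nat hz]
    have hA : sA z ≠ 0 := mul_ne_zero (Gamma_ne_zero_of_re_pos hz) (exp_ne_zero _)
    have e : sA z / (sA z * exp (-∑ k ∈ Finset.range n, mB (z + k))) =
        exp (∑ k ∈ Finset.range n, mB (z + k)) := by
      rw [exp_neg]
      have := exp_ne_zero (∑ k ∈ Finset.range n, mB (z + k))
      field_simp
    rw [e]
    have h5 := sum_mB_right hz hn n
    have h6 : 1 / (2 * ‖z‖) ≤ 1 := by
      rw [div_le_one (by positivity)]
      linarith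
    refine (norm_exp_sub_one_le (h5.trans h6)).trans ?_
    calc _ ≤ 2 * (1 / (2 * ‖z‖)) := by gcongr
      _ = _ := by field_simp
  have h2 : Tendsto (fun n : ℕ => ‖sA z / sA (z + n) - 1‖) atTop
      (𝓝 ‖sA z / ((√(2 * Real.pi) : ℝ) : ℂ) - 1‖) :=
    (((tendsto_const_nhds (x := sA z)).div (tendsto_sA hz) sqrt_ne).sub_const 1).norm
  exact le_of_tendsto' h2 h1

lemma continuousAt_sA {z : ℂ} (h : z ∈ slitPlane) (hp : ∀ m : ℕ, z ≠ -m) : ContinuousAt sA z := by
  unfold sA
  refine ContinuousAt.mul (differentiableAt_Gamma z hp).continuousAt ?_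
  refine ContinuousAt.comp continuous_exp.continuousAt ?_
  refine ContinuousAt.neg (ContinuousAt.sub (ContinuousAt.mul ?_ (continuousAt_clog h))
    continuousAt_id)
  exact (continuous_id.sub continuous_const).continuousAt

/-- Stirling's formula in the closed right half plane -/
theorem stir_right {z : ℂ} (hz : 0 ≤ z.re) (hn : 1 ≤ ‖z‖) :
    ‖sA z / ((√(2 * Real.pi) : ℝ) : ℂ) - 1‖ ≤ 1 / ‖z‖ := by
  rcases hz.lt_or_eq with h | h
  · exact stir_open h hn
  have him : z.im ≠ 0 := by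
    intro h0
    have : z = 0 := Complex.ext (by simpa using h.symm) (by simpa using h0)
    rw [this, norm_zero] at hn
    linarith
  have hs : z ∈ slitPlane := Or.inr him
  have hp : ∀ m : ℕ, z ≠ -m := by
    intro m h0
    apply him
    rw [h0]
    simp
  have hc := continuousAt_sA hs hp
  have hseq : Tendsto (fun n : ℕ => z + ((1 / ((n : ℝ) + 1) : ℝ) : ℂ)) atTop (𝓝 z) := by
    have h1 := (continuous_ofReal.tendsto 0).comp tendsto_one_div_add_atTop_nhds_zero_nat
    have h2 := (tendsto_const_nhds (x := z)).add h1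
    simp only [ofReal_zero, add_zero] at h2
    exact h2
  have h1 : Tendsto (fun n : ℕ => ‖sA (z + ((1 / ((n : ℝ) + 1) : ℝ) : ℂ)) /
      ((√(2 * Real.pi) : ℝ) : ℂ) - 1‖) atTop (𝓝 ‖sA z / ((√(2 * Real.pi) : ℝ) : ℂ) - 1‖) :=
    (((hc.tendsto.comp hseq).div_const _).sub_const 1).norm
  have h2 : Tendsto (fun n : ℕ => 1 / ‖z + ((1 / ((n : ℝ) + 1) : ℝ) : ℂ)‖) atTop (𝓝 (1 / ‖z‖)) := by
    refine Tendsto.div tendsto_const_nhds hseq.norm ?_
    linarith
  refine le_of_tendsto_of_tendsto' h1 h2 (fun n => ?_)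
  have hpos : 0 < 1 / ((n : ℝ) + 1) := by positivity
  refine stir_open ?_ ?_
  · rw [add_re, ofReal_re, ← h]
    linarith
  · refine hn.trans ?_
    have e1 : ‖z‖ ^ 2 ≤ ‖z + ((1 / ((n : ℝ) + 1) : ℝ) : ℂ)‖ ^ 2 := by
      rw [Complex.sq_norm, Complex.normSq_apply, Complex.sq_norm, Complex.normSq_apply]
      simp only [add_re, ofReal_re, add_im, ofReal_im, ← h]
      nlinarith
    exact (sq_le_sq₀ (norm_nonneg _) (norm_nonneg _)).1 e1

/-- Stirling's formula along a function tending to infinity in the right half plane -/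
theorem stir_tendsto {α : Type*} {l : Filter α} {Y : α → ℂ} (h0 : ∀ᶠ x in l, 0 ≤ (Y x).re)
    (h1 : Tendsto (fun x => ‖Y x‖) l atTop) :
    Tendsto (fun x => sA (Y x)) l (𝓝 ((√(2 * Real.pi) : ℝ) : ℂ)) := by
  have h2 : Tendsto (fun x => sA (Y x) / ((√(2 * Real.pi) : ℝ) : ℂ) - 1) l (𝓝 0) := by
    have h3 : Tendsto (fun x => 1 / ‖Y x‖) l (𝓝 0) := by
      simpa [one_div, Function.comp_def] using tendsto_inv_atTop_zero.comp h1
    refine squeeze_zero_norm' ?_ h3
    filter_upwards [h0, h1.eventually_ge_atTop 1] with x hx hx1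
    exact stir_right hx hx1
  have h3 := (h2.add_const 1).mul_const ((√(2 * Real.pi) : ℝ) : ℂ)
  simp only [zero_add, one_mul, sub_add_cancel] at h3
  refine h3.congr (fun x => ?_)
  exact div_mul_cancel₀ _ sqrt_ne

end Pool.Agent.TH814.GS
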