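import Mathlib
import Pool.Agent.TH814.GS.Stir

set_option autoImplicit false

/-!
Monomials `x ^ a * Γ(x) ^ b` on the real axis and their growth.
-/

namespace Pool.Agent.TH814.GS

open Filter Topology Asymptotics

/-- the monomial `x ^ a * Γ(x) ^ b` -/
noncomputable def mon (a b x : ℝ) : ℝ := x ^ a * Real.Gamma x ^ b

lemma mon_pos {a b x : ℝ} (hx : 0 < x) : 0 < mon a b x :=
  mul_pos (Real.rpow_pos_of_pos hx _) (Real.rpow_pos_of_pos (Real.Gamma_pos_of_pos hx) _)

lemma mon_add {a b a' b' x : ℝ} (hx : 0 < x) : mon (a + a') (b + b') x = mon a b x * mon a' b' x := by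
  unfold mon
  rw [Real.rpow_add hx, Real.rpow_add (Real.Gamma_pos_of_pos hx)]
  ring

lemma mon_neg {a b x : ℝ} (hx : 0 < x) : mon (-a) (-b) x = (mon a b x)⁻¹ := by
  unfold mon
  rw [Real.rpow_neg hx.le, Real.rpow_neg (Real.Gamma_pos_of_pos hx).le]
  rw [mul_inv]

lemma mon_sub {a b a' b' x : ℝ} (hx : 0 < x) : mon (a - a') (b - b') x = mon a b x / mon a' b' x := by
  rw [sub_eq_add_neg, sub_eq_add_neg, mon_add hx, mon_neg hx]
  rfl

lemma mon_zero (x : ℝ) : mon 0 0 x = 1 := by simp [mon]

lemma mon_pow {a b x : ℝ} (hx : 0 < x) (n : ℕ) : mon a b x ^ n = mon (n * a) (n * b) x := by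
  unfold mon
  rw [mul_pow, mul_comm (n:ℝ) a, mul_comm (n:ℝ) b, Real.rpow_mul hx.le,
    Real.rpow_mul (Real.Gamma_pos_of_pos hx).le, Real.rpow_natCast, Real.rpow_natCast]

lemma log_mon {a b x : ℝ} (hx : 0 < x) :
    Real.log (mon a b x) = a * Real.log x + b * Real.log (Real.Gamma x) := by
  unfold mon
  rw [Real.log_mul (Real.rpow_pos_of_pos hx _).ne'
    (Real.rpow_pos_of_pos (Real.Gamma_pos_of_pos hx) _).ne', Real.log_rpow hx,
    Real.log_rpow (Real.Gamma_pos_of_pos hx)]

/-- Stirling's formula on the real axis -/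
lemma log_gamma : Tendsto (fun x : ℝ => Real.log (Real.Gamma x) - ((x - 1/2) * Real.log x - x)) atTop
    (𝓝 (Real.log √(2 * Real.pi))) := by
  have h1 : Tendsto (fun x : ℝ => Pool.Agent.H401R2.sA (x : ℂ)) atTop
      (𝓝 ((√(2 * Real.pi) : ℝ) : ℂ)) := by
    apply stir_tendsto
    · filter_upwards [eventually_ge_atTop 0] with x hx
      simpa using hx
    · simpa using tendsto_abs_atTop_atTop
  have h2 := (Complex.continuous_re.tendsto _).comp h1
  have h3 : Tendsto (fun x : ℝ => Real.Gamma x * Real.exp (-((x - 1/2) * Real.log x - x))) atTop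
      (𝓝 (√(2 * Real.pi))) := by
    rw [Complex.ofReal_re] at h2
    refine h2.congr' ?_
    filter_upwards [eventually_gt_atTop 0] with x hx
    simp only [Function.comp_apply, Pool.Agent.H401R2.sA]
    rw [← Complex.ofReal_log hx.le, Complex.Gamma_ofReal]
    have : -(((x : ℂ) - 1 / 2) * (Real.log x : ℂ) - x) =
        ((-((x - 1/2) * Real.log x - x) : ℝ) : ℂ) := by push_cast; ring
    rw [this, ← Complex.ofReal_exp, ← Complex.ofReal_mul, Complex.ofReal_re]
  have hs : √(2 * Real.pi) ≠ 0 := by positivity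
  have h4 := ((Real.continuousAt_log hs).tendsto).comp h3
  refine h4.congr' ?_
  filter_upwards [eventually_gt_atTop 0] with x hx
  simp only [Function.comp_apply]
  rw [Real.log_mul (Real.Gamma_pos_of_pos hx).ne' (Real.exp_ne_zero _), Real.log_exp]
  ring

/-- `Γ` grows faster than every exponential -/
lemma log_gamma_div : Tendsto (fun x : ℝ => Real.log (Real.Gamma x) / (x * Real.log x)) atTop (𝓝 1) := by
  have hl : Tendsto (fun x : ℝ => Real.log x) atTop atTop := Real.tendsto_log_atTop
  have h1 : Tendsto (fun x : ℝ => (Real.log (Real.Gamma x) - ((x - 1/2) * Real.log x - x)) *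
      (x * Real.log x)⁻¹) atTop (𝓝 (Real.log √(2 * Real.pi) * 0)) :=
    log_gamma.mul (tendsto_inv_atTop_zero.comp (tendsto_id.atTop_mul_atTop₀ hl))
  have h2 : Tendsto (fun x : ℝ => 1 - 1/2 * x⁻¹ - (Real.log x)⁻¹) atTop (𝓝 (1 - 1/2 * 0 - 0)) :=
    (tendsto_const_nhds.sub (tendsto_inv_atTop_zero.const_mul _)).sub
      (tendsto_inv_atTop_zero.comp hl)
  have h3 := h1.add h2
  simp only [mul_zero, sub_zero, zero_add] at h3
  refine h3.congr' ?_
  filter_upwards [eventually_gt_atTop 1] with x hx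
  have h4 : Real.log x ≠ 0 := (Real.log_pos hx).ne'
  have h5 : x ≠ 0 := by linarith
  field_simp
  ring

lemma tendsto_log_gamma_div_log (a : ℝ) :
    Tendsto (fun x : ℝ => Real.log (Real.Gamma x) / Real.log x - a) atTop atTop := by
  apply tendsto_atTop_add_const_right
  have h1 : Tendsto (fun x : ℝ => Real.log (Real.Gamma x) / (x * Real.log x) * x) atTop atTop :=
    log_gamma_div.pos_mul_atTop one_pos tendsto_id
  refine h1.congr' ?_
  filter_upwards [eventually_gt_atTop 1] with x hx
  have h4 : Real.log x ≠ 0 := (Real.log_pos hx).ne'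
  have h5 : x ≠ 0 := by linarith
  field_simp

lemma tendsto_log_gamma : Tendsto (fun x : ℝ => Real.log (Real.Gamma x)) atTop atTop := by
  have h1 := (tendsto_log_gamma_div_log 0).atTop_mul_atTop₀ Real.tendsto_log_atTop
  refine h1.congr' ?_
  filter_upwards [eventually_gt_atTop 1] with x hx
  have h4 : Real.log x ≠ 0 := (Real.log_pos hx).ne'
  field_simp
  ring

/-- the exponents of an unbounded monomial -/
def Big (a b : ℝ) : Prop := 0 < b ∨ (b = 0 ∧ 0 < a)

lemma Big.trichotomy (a b : ℝ) : Big a b ∨ Big (-a) (-b) ∨ (a = 0 ∧ b = 0) := by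
  unfold Big
  rcases lt_trichotomy b 0 with h | h | h
  · right; left; left; linarith
  · rcases lt_trichotomy a 0 with h' | h' | h'
    · right; left; right; exact ⟨by linarith, by linarith⟩
    · right; right; exact ⟨h', h⟩
    · left; right; exact ⟨h, h'⟩
  · left; left; exact h

lemma log_mon_atTop {a b : ℝ} (h : Big a b) :
    Tendsto (fun x => Real.log (mon a b x)) atTop atTop := by
  have h2 : ∀ᶠ x : ℝ in atTop, Real.log (mon a b x) =
      a * Real.log x + b * Real.log (Real.Gamma x) := by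
    filter_upwards [eventually_gt_atTop 0] with x hx
    exact log_mon hx
  refine Tendsto.congr' (h2.mono fun x hx => hx.symm) ?_
  rcases h with h | ⟨rfl, h⟩
  · have h1 := ((tendsto_log_gamma_div_log (-a / b)).const_mul_atTop h).atTop_mul_atTop₀
      Real.tendsto_log_atTop
    refine h1.congr' ?_
    filter_upwards [eventually_gt_atTop 1] with x hx
    have h4 : Real.log x ≠ 0 := (Real.log_pos hx).ne'
    field_simp
    ring
  · simp only [zero_mul, add_zero]
    exact Real.tendsto_log_atTop.const_mul_atTop h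

lemma mon_atTop {a b : ℝ} (h : Big a b) : Tendsto (mon a b) atTop atTop := by
  have h1 := Real.tendsto_exp_atTop.comp (log_mon_atTop h)
  refine h1.congr' ?_
  filter_upwards [eventually_gt_atTop 0] with x hx
  exact Real.exp_log (mon_pos hx)

lemma mon_zero_of {a b : ℝ} (h : Big (-a) (-b)) : Tendsto (mon a b) atTop (𝓝 0) := by
  have h1 := tendsto_inv_atTop_zero.comp (mon_atTop h)
  refine h1.congr' ?_
  filter_upwards [eventually_gt_atTop 0] with x hx
  simp only [Function.comp_apply]
  rw [mon_neg hx, inv_inv]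

lemma mon_log_zero {a b : ℝ} (h : Big (-a) (-b)) :
    Tendsto (fun x => mon a b x * Real.log x) atTop (𝓝 0) := by
  obtain ⟨ε, hε, h1⟩ : ∃ ε : ℝ, 0 < ε ∧ Big (-(a + ε)) (-b) := by
    rcases h with h | ⟨h, h'⟩
    · exact ⟨1, one_pos, Or.inl h⟩
    · exact ⟨-a / 2, by linarith, Or.inr ⟨h, by linarith⟩⟩
  have h2 := (mon_zero_of h1).mul (isLittleO_log_rpow_atTop hε).tendsto_div_nhds_zero
  rw [zero_mul] at h2
  refine h2.congr' ?_
  filter_upwards [eventually_gt_atTop 0] with x hx
  have : mon (a + ε) b x = mon a b x * x ^ ε := by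
    have := mon_add (a := a) (b := b) (a' := ε) (b' := 0) hx
    rw [add_zero] at this
    rw [this]
    simp [mon]
  rw [this]
  have h3 : x ^ ε ≠ 0 := (Real.rpow_pos_of_pos hx _).ne'
  field_simp

lemma mon_log_atTop {a b : ℝ} (h : Big a b ∨ (a = 0 ∧ b = 0)) :
    Tendsto (fun x => mon a b x * Real.log x) atTop atTop := by
  rcases h with h | ⟨rfl, rfl⟩
  · exact (mon_atTop h).atTop_mul_atTop₀ Real.tendsto_log_atTop
  · simpa [mon_zero] using Real.tendsto_log_atTop

end Pool.Agent.TH814.GS
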