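import Pool.Agent.TH814.GS.Fld

set_option autoImplicit false

/-!
No algebraic function is comparable to a power of the logarithm.
-/

namespace Pool.Agent.TH814.GS

open Filter Topology Asymptotics Set

lemma LT.unique {h : ℝ → ℂ} {a b a' b' : ℝ} {c c' : ℂ} (H : LT h a b c) (hc : c ≠ 0)
    (H' : LT h a' b' c') (hc' : c' ≠ 0) : a = a' ∧ b = b' ∧ c = c' := by
  have key : ∀ (a b a' b' : ℝ) (c c' : ℂ), LT h a b c → LT h a' b' c' → c ≠ 0 → c' ≠ 0 →
      ¬ Big (a - a') (b - b') := by
    intro a b a' b' c c' H H' hc hc' hbig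
    have h1 := H'.of_big hbig
    exact hc (tendsto_nhds_unique H h1)
  rcases Big.trichotomy (a - a') (b - b') with h1 | h1 | h1
  · exact absurd h1 (key _ _ _ _ _ _ H H' hc hc')
  · rw [neg_sub, neg_sub] at h1
    exact absurd h1 (key _ _ _ _ _ _ H' H hc' hc)
  · have h2 : a = a' := by linarith
    have h3 : b = b' := by linarith
    refine ⟨h2, h3, ?_⟩
    rw [← h2, ← h3] at H'
    exact tendsto_nhds_unique H H'

lemma LT.norm_tendsto {h : ℝ → ℂ} {a b : ℝ} {c : ℂ} (H : LT h a b c) (hc : c ≠ 0)
    (hb : Big a b) : Tendsto (fun x => ‖h x‖) atTop atTop := by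
  have h1 := (Tendsto.norm H).pos_mul_atTop (norm_pos_iff.2 hc) (mon_atTop hb)
  refine h1.congr' ?_
  filter_upwards [eventually_gt_atTop 0] with x hx
  rw [norm_div, Complex.norm_real, Real.norm_of_nonneg (mon_pos hx).le,
    div_mul_cancel₀ _ (mon_pos hx).ne']

lemma LT.tendsto_zero {h : ℝ → ℂ} {a b : ℝ} {c : ℂ} (H : LT h a b c)
    (hb : Big (-a) (-b)) : Tendsto h atTop (𝓝 0) := by
  have h1 := Tendsto.mul H ((Complex.continuous_ofReal.tendsto 0).comp (mon_zero_of hb))
  simp only [Complex.ofReal_zero, mul_zero] at h1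
  refine h1.congr' ?_
  filter_upwards [eventually_gt_atTop 0] with x hx
  simp only [Function.comp_apply]
  rw [div_mul_cancel₀ _ (monc_ne hx)]

/-- the product of an algebraic function and the logarithm does not tend to a nonzero limit -/
lemma nl {h : ℝ → ℂ} {a b : ℝ} {c : ℂ} (H : LT h a b c) (hc : c ≠ 0) {l : ℂ}
    (hl : Tendsto (fun x => h x * (Real.log x : ℂ)) atTop (𝓝 l)) :
    l = 0 ∧ Big (-a) (-b) := by
  have h1 : Tendsto (fun x => mon a b x * Real.log x) atTop (𝓝 (‖l‖ / ‖c‖)) := by
    have h2 := (hl.norm).div (Tendsto.norm H) (norm_ne_zero_iff.2 hc)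
    refine h2.congr' ?_
    filter_upwards [eventually_gt_atTop 1, H.eventually_ne hc] with x hx hx2
    have hx0 : 0 < x := by linarith
    have hm := mon_pos (a := a) (b := b) hx0
    have hlog := Real.log_pos hx
    simp only [Pi.div_apply]
    rw [norm_mul, norm_div, Complex.norm_real, Complex.norm_real, Real.norm_of_nonneg hm.le,
      Real.norm_of_nonneg hlog.le]
    have := norm_ne_zero_iff.2 hx2
    field_simp
  rcases Big.trichotomy a b with h2 | h2 | h2
  · exact absurd h1 (not_tendsto_nhds_of_tendsto_atTop (mon_log_atTop (Or.inl h2)) _)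
  · refine ⟨?_, h2⟩
    have h3 := tendsto_nhds_unique h1 (mon_log_zero h2)
    rcases div_eq_zero_iff.1 h3 with h4 | h4
    · exact norm_eq_zero.1 h4
    · exact absurd (norm_eq_zero.1 h4) hc
  · exact absurd h1 (not_tendsto_nhds_of_tendsto_atTop (mon_log_atTop (Or.inr h2)) _)

/-- the same for algebraic functions -/
lemma Alg.nl {h : ℝ → ℂ} (H : Alg h) {l : ℂ}
    (hl : Tendsto (fun x => h x * (Real.log x : ℂ)) atTop (𝓝 l)) : l = 0 := by
  rcases H.dich with h1 | ⟨a, b, c, hc, h1⟩
  · refine tendsto_nhds_unique hl ?_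
    refine Tendsto.congr' ?_ tendsto_const_nhds
    filter_upwards [h1] with x hx
    rw [hx, zero_mul]
  · exact (GS.nl h1 hc hl).1

/-- an algebraic function has a limit or tends to infinity -/
lemma Alg.trich {h : ℝ → ℂ} (H : Alg h) : (∃ c, Tendsto h atTop (𝓝 c)) ∨
    Tendsto (fun x => ‖h x‖) atTop atTop := by
  rcases H.dich with h1 | ⟨a, b, c, hc, h1⟩
  · left
    refine ⟨0, Tendsto.congr' ?_ tendsto_const_nhds⟩
    filter_upwards [h1] with x hx
    rw [hx]
  · rcases Big.trichotomy (a : ℝ) (b : ℝ) with h2 | h2 | h2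
    · right
      exact h1.norm_tendsto hc h2
    · left
      exact ⟨0, h1.tendsto_zero h2⟩
    · left
      refine ⟨c, ?_⟩
      unfold LT at h1
      rw [h2.1, h2.2] at h1
      simpa [mon_zero] using h1

lemma Alg.re {h : ℝ → ℂ} (H : Alg h) : Alg (fun x => ((h x).re : ℂ)) := by
  refine ((H.add H.conj).mul (Alg_const (1/2))).congr' ?_
  filter_upwards with x
  rw [Complex.add_conj]
  push_cast
  ring

lemma Alg.im {h : ℝ → ℂ} (H : Alg h) : Alg (fun x => ((h x).im : ℂ)) := by
  refine ((H.sub H.conj).mul (Alg_const (1/(2 * Complex.I)))).congr' ?_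
  filter_upwards with x
  rw [Complex.sub_conj]
  have := Complex.I_ne_zero
  push_cast
  field_simp

/-- real algebraic functions have a constant sign -/
lemma Alg.sign {f : ℝ → ℝ} (H : Alg (fun x => (f x : ℂ))) :
    (∀ᶠ x in atTop, f x = 0) ∨ (∀ᶠ x in atTop, 0 < f x) ∨ (∀ᶠ x in atTop, f x < 0) := by
  rcases H.dich with h1 | ⟨a, b, c, hc, h1⟩
  · left
    filter_upwards [h1] with x hx
    exact_mod_cast hx
  · right
    have h2 : Tendsto (fun x => f x / mon a b x) atTop (𝓝 c.re) := by
      have := (Complex.continuous_re.tendsto c).comp h1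
      refine this.congr (fun x => ?_)
      simp only [Function.comp_apply]
      rw [← Complex.ofReal_div, Complex.ofReal_re]
    have h3 : c.im = 0 := by
      have h4 := (Complex.continuous_im.tendsto c).comp h1
      refine tendsto_nhds_unique h4 ?_
      refine Tendsto.congr (fun x => ?_) tendsto_const_nhds
      simp only [Function.comp_apply]
      rw [← Complex.ofReal_div, Complex.ofReal_im]
    have h4 : c.re ≠ 0 := by
      intro h
      exact hc (Complex.ext h h3)
    rcases lt_or_gt_of_ne h4 with h5 | h5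
    · right
      filter_upwards [h2.eventually (gt_mem_nhds h5), eventually_gt_atTop 0] with x hx hx0
      by_contra hcon
      push Not at hcon
      have := div_nonneg hcon (mon_pos (a := a) (b := b) hx0).le
      linarith
    · left
      filter_upwards [h2.eventually (lt_mem_nhds h5), eventually_gt_atTop 0] with x hx hx0
      by_contra hcon
      push Not at hcon
      have := div_nonpos_of_nonpos_of_nonneg hcon (mon_pos (a := a) (b := b) hx0).le
      linarith

end Pool.Agent.TH814.GS
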