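import Pool.Agent.TH814.GS.Count

set_option autoImplicit false

/-!
Pairs of numbers whose four values `z₁, z₂, Γ(z₁), Γ(z₂)` generate a field of transcendence degree
at most two: countability.
-/

namespace Pool.Agent.TH814.GS

open Filter Topology Set
open scoped Polynomial

open Pool.Agent.W848.GF in
/-- the implicit function theorem -/
lemma impl2 (P : R2[X]) (p : ℂ × ℂ) (h0 : P.eval₂ (evc p.1) p.2 = 0)
    (h1 : (Polynomial.derivative P).eval₂ (evc p.1) p.2 ≠ 0) :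
    ∃ ψ : ℂ → ℂ, ψ p.1 = p.2 ∧ (∀ᶠ x in 𝓝 p.1, DifferentiableAt ℂ ψ x) ∧
      (∀ᶠ v in 𝓝 p, P.eval₂ (evc v.1) v.2 = 0 → ψ v.1 = v.2) ∧
      ∀ᶠ x in 𝓝 p.1, P.eval₂ (evc x) (ψ x) = 0 := by
  have hc : ∀ k, DifferentiableOn ℂ (fun w => evc w (P.coeff k)) Set.univ :=
    fun k => (evc_diff (P.coeff k)).differentiableOn
  have hPP : ∀ v : ℂ × ℂ, PP P.natDegree (fun k w => evc w (P.coeff k)) v =
      P.eval₂ (evc v.1) v.2 := fun v => (evp_sum P v.1 v.2).symm
  have han := anal (d := P.natDegree) (c := fun k w => evc w (P.coeff k)) isOpen_univ hc p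
    (Set.mem_univ _)
  have hi : (fderiv ℂ (PP P.natDegree (fun k w => evc w (P.coeff k))) p ∘L
      .inr ℂ ℂ ℂ).IsInvertible := by
    apply inv_of_ne
    rw [fd isOpen_univ hc p (Set.mem_univ _)]
    rw [evp_der] at h1
    exact h1
  have cdf : ContDiffAt ℂ 1 (PP P.natDegree (fun k w => evc w (P.coeff k))) p := han.contDiffAt
  have h1' : (1 : WithTop ℕ∞) ≠ 0 := one_ne_zero
  refine ⟨cdf.implicitFunction h1' hi, cdf.implicitFunction_apply_self h1' hi, ?_, ?_, ?_⟩
  · have h2 := (cdf.contDiffAt_implicitFunction h1' hi).eventually (by simp)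
    filter_upwards [h2] with x hx
    exact hx.differentiableAt one_ne_zero
  · filter_upwards [cdf.eventually_apply_eq_iff_implicitFunction h1' hi] with v hv h
    rw [hPP, hPP, h0] at hv
    exact hv.1 h
  · filter_upwards [cdf.eventually_apply_implicitFunction h1' hi] with x hx
    rw [hPP, hPP, h0] at hx
    exact hx

/-- local countability implies countability -/
lemma countable_of_local {X : Type*} [TopologicalSpace X] [SecondCountableTopology X] (S : Set X)
    (h : ∀ x ∈ S, ∃ U ∈ 𝓝 x, (U ∩ S).Countable) : S.Countable := by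
  choose! U hU hc using h
  obtain ⟨t, ht, htc, hcov⟩ := TopologicalSpace.countable_cover_nhdsWithin
    (f := U) (s := S) (fun x hx => mem_nhdsWithin_of_mem_nhds (hU x hx))
  refine (htc.biUnion (fun x hx => hc x (ht hx))).mono (fun y hy => ?_)
  obtain ⟨x, hx, hyx⟩ := mem_iUnion₂.1 (hcov hy)
  exact mem_iUnion₂.2 ⟨x, hx, hyx, hy⟩

/-- zeros of an analytic function on a ball -/
lemma ball_zeros {B : Set ℂ} (hB : IsOpen B) (hp : IsPreconnected B) {f : ℂ → ℂ}
    (hf : DifferentiableOn ℂ f B) (h : ¬ ∀ x ∈ B, f x = 0) : {x ∈ B | f x = 0}.Countable := by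
  apply countable_of_local
  rintro x ⟨hx, hx0⟩
  have han := (hf.analyticOnNhd hB) x hx
  rcases han.eventually_eq_zero_or_eventually_ne_zero with h1 | h1
  · exfalso
    apply h
    exact open_id hB hp hf hx h1
  · obtain ⟨U, hU, h2⟩ := mem_nhdsWithin.1 h1
    refine ⟨U, hU.mem_nhds h2.1, (Set.countable_singleton x).mono ?_⟩
    rintro y ⟨hy, -, hy0⟩
    by_contra hne
    exact h2.2 ⟨hy, hne⟩ hy0

section

variable {F : Type} [Field F] [Algebra F ℂ]

/-- the points where both values are algebraic -/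
def NN (F : Type) [Field F] [Algebra F ℂ] : Set ℂ :=
  {z | IsAlgebraic F z ∧ IsAlgebraic F (Complex.Gamma z)}

/-- pairs on two given curves -/
def EE2 (P₁ P₂ : (MvPolynomial (Fin 2) F)[X]) : Set (ℂ × ℂ) :=
  {p | (cx P₁).eval₂ (evc p.1) p.2 = 0 ∧ (Polynomial.derivative (cx P₁)).eval₂ (evc p.1) p.2 ≠ 0 ∧
    (cx P₂).eval₂ (evc p.1) (Complex.Gamma p.2) = 0 ∧
    (Polynomial.derivative (cx P₂)).eval₂ (evc p.1) (Complex.Gamma p.2) ≠ 0 ∧
    p.2 ∉ NN F ∧ ∀ m : ℤ, p.2 ≠ p.1 + m}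

lemma EE2_countable {P₁ P₂ : (MvPolynomial (Fin 2) F)[X]} (hP₁ : P₁ ≠ 0) (hP₂ : P₂ ≠ 0) :
    (EE2 P₁ P₂).Countable := by
  apply countable_of_local
  rintro p ⟨h1, h2, h3, h4, h5, h6⟩
  have hpole : ∀ m : ℕ, p.2 ≠ -m := by
    intro m hm
    apply h5
    refine ⟨?_, ?_⟩
    · rw [hm]
      exact ((isAlgebraic_natCast (R := F) (A := ℂ) m)).neg
    · rw [hm, Complex.Gamma_neg_nat_eq_zero]
      exact isAlgebraic_zero
  obtain ⟨ψ₁, a1, a2, a3, a4⟩ := impl2 (cx P₁) p h1 h2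
  obtain ⟨ψ₂, b1, b2, b3, b4⟩ := impl2 (cx P₂) (p.1, Complex.Gamma p.2) h3 h4
  simp only at b1 b2 b3 b4
  have hGc : ContinuousAt Complex.Gamma p.2 := (Complex.differentiableAt_Gamma _ hpole).continuousAt
  have hcont : Tendsto (fun v : ℂ × ℂ => (v.1, Complex.Gamma v.2)) (𝓝 p)
      (𝓝 (p.1, Complex.Gamma p.2)) :=
    (continuousAt_fst.prodMk (hGc.comp continuousAt_snd)).tendsto
  have hall : ∀ᶠ x in 𝓝 p.1, DifferentiableAt ℂ ψ₁ x ∧ DifferentiableAt ℂ ψ₂ x ∧
      (cx P₁).eval₂ (evc x) (ψ₁ x) = 0 ∧ (cx P₂).eval₂ (evc x) (ψ₂ x) = 0 := by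
    filter_upwards [a2, b2, a4, b4] with x c1 c2 c3 c4
    exact ⟨c1, c2, c3, c4⟩
  obtain ⟨r, hr, hball⟩ := Metric.eventually_nhds_iff_ball.1 hall
  set B := Metric.ball p.1 r with hB
  have hBo : IsOpen B := Metric.isOpen_ball
  have hBp : IsPreconnected B := (convex_ball _ _).isPreconnected
  have hpB : p.1 ∈ B := Metric.mem_ball_self hr
  have hBne : B.Nonempty := ⟨p.1, hpB⟩
  have hψ₁ : DifferentiableOn ℂ ψ₁ B := fun x hx => (hball x hx).1.differentiableWithinAt
  have hψ₂ : DifferentiableOn ℂ ψ₂ B := fun x hx => (hball x hx).2.1.differentiableWithinAt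
  have hHd : DifferentiableOn ℂ (fun x => ψ₂ x * (Complex.Gamma (ψ₁ x))⁻¹ - 1) B := by
    refine (hψ₂.mul ?_).sub_const 1
    exact Complex.differentiable_one_div_Gamma.comp_differentiableOn hψ₁
  have hU : ∀ᶠ v in 𝓝 p, v.1 ∈ B ∧ ((cx P₁).eval₂ (evc v.1) v.2 = 0 → ψ₁ v.1 = v.2) ∧
      ((cx P₂).eval₂ (evc v.1) (Complex.Gamma v.2) = 0 → ψ₂ v.1 = Complex.Gamma v.2) := by
    filter_upwards [continuousAt_fst.eventually (hBo.mem_nhds hpB), a3, hcont.eventually b3]
      with v c1 c2 c3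
    exact ⟨c1, c2, c3⟩
  by_cases hH : ∀ x ∈ B, ψ₂ x * (Complex.Gamma (ψ₁ x))⁻¹ - 1 = 0
  · exfalso
    have hG : ∀ x ∈ B, Complex.Gamma (ψ₁ x) ≠ 0 := by
      intro x hx h0
      have := hH x hx
      rw [h0, inv_zero, mul_zero, zero_sub] at this
      exact neg_ne_zero.2 one_ne_zero this
    have hψ₂G : ∀ x ∈ B, ψ₂ x = Complex.Gamma (ψ₁ x) := by
      intro x hx
      have h7 := sub_eq_zero.1 (hH x hx)
      have := hG x hx
      field_simp at h7
      exact h7
    rcases classify hBo hBp hBne hψ₁ hψ₂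
      ⟨cx P₁, cx_ne hP₁, fun t ht => (hball t ht).2.2.1⟩
      ⟨cx P₂, cx_ne hP₂, fun t ht => (hball t ht).2.2.2⟩
      (fun t ht => sub_eq_zero.1 (hH t ht)) with ⟨c, hc⟩ | ⟨s, hs⟩
    · apply h5
      have hcp : c = p.2 := by rw [← hc p.1 hpB, a1]
      refine ⟨?_, ?_⟩
      · rw [← hcp]
        refine alg_const hBo hBne hP₁ (fun t ht => ?_)
        have := (hball t ht).2.2.1
        rw [hc t ht] at this
        exact this
      · rw [← hcp]
        refine alg_const hBo hBne hP₂ (fun t ht => ?_)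
        have := (hball t ht).2.2.2
        rw [hψ₂G t ht, hc t ht] at this
        exact this
    · have hd : Dep3 B (fun t => (Complex.Gamma (t + (s : ℝ)))⁻¹) (fun t => t)
          (fun t => (Complex.Gamma t)⁻¹) := by
        have e1 : Dep3 B (fun t => Complex.Gamma (t + (s : ℝ))) (fun t => t)
            (fun t => (Complex.Gamma t)⁻¹) := by
          rw [Dep3.iff]
          refine ⟨cx P₂, cx_ne hP₂, fun t ht => ?_⟩
          have := (hball t ht).2.2.2
          rw [hψ₂G t ht, hs t ht] at this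
          simp only [Complex.ofReal_ratCast]
          exact this
        refine e1.inv (fun t ht => ?_)
        have := hG t ht
        rw [hs t ht] at this
        simp only [Complex.ofReal_ratCast]
        exact this
      obtain ⟨m, hm⟩ := rho_int hBo hBne hd
      apply h6 m
      rw [← a1, hs p.1 hpB]
      have : (s : ℂ) = m := by exact_mod_cast hm
      rw [this]
  · refine ⟨_, hU, ?_⟩
    have hcz := ball_zeros hBo hBp hHd hH
    refine (hcz.image (fun x => (x, ψ₁ x))).mono ?_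
    rintro v ⟨hv, c1, -, c3, -, c5, -⟩
    have hv' : v.1 ∈ B ∧ ((cx P₁).eval₂ (evc v.1) v.2 = 0 → ψ₁ v.1 = v.2) ∧
      ((cx P₂).eval₂ (evc v.1) (Complex.Gamma v.2) = 0 → ψ₂ v.1 = Complex.Gamma v.2) := hv
    refine ⟨v.1, ⟨hv'.1, ?_⟩, ?_⟩
    · rw [hv'.2.1 c1, hv'.2.2 c3]
      have hG : Complex.Gamma v.2 ≠ 0 := by
        intro h0
        rw [Complex.Gamma_eq_zero_iff] at h0
        obtain ⟨m, hm⟩ := h0
        apply c5
        refine ⟨?_, ?_⟩
        · rw [hm]
          exact ((isAlgebraic_natCast (R := F) (A := ℂ) m)).neg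
        · rw [hm, Complex.Gamma_neg_nat_eq_zero]
          exact isAlgebraic_zero
      rw [mul_inv_cancel₀ hG, sub_self]
    · exact Prod.ext rfl (hv'.2.1 c1)

end

end Pool.Agent.TH814.GS
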