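import Pool.Agent.TH814.GS.Right

set_option autoImplicit false

/-!
The quotient of values of `Γ` at nearby points.
-/

namespace Pool.Agent.TH814.GS

open Filter Topology Asymptotics Set Pool.Agent.H401R2

lemma sA_diff {z : ℂ} (h : 0 < z.re) : DifferentiableAt ℂ sA z := by
  unfold sA
  have hs : z ∈ Complex.slitPlane := Or.inl h
  have hp : ∀ m : ℕ, z ≠ -m := by
    intro m h0
    rw [h0] at h
    simp at h
    have : (0:ℝ) ≤ m := Nat.cast_nonneg m
    linarith
  refine DifferentiableAt.mul (Complex.differentiableAt_Gamma z hp) ?_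
  refine DifferentiableAt.cexp ?_
  have h1 : DifferentiableAt ℂ Complex.log z := (Complex.hasStrictDerivAt_log hs).hasDerivAt.differentiableAt
  exact (((differentiableAt_id.sub_const _).mul h1).sub differentiableAt_id).neg

lemma sA_bound {z : ℂ} (h : 0 ≤ z.re) (hn : 1 ≤ ‖z‖) : ‖sA z‖ ≤ 2 * √(2 * Real.pi) := by
  have h1 := stir_right h hn
  have h2 : 1 / ‖z‖ ≤ 1 := by
    rw [div_le_one (by linarith)]
    exact hn
  have hs : 0 < √(2 * Real.pi) := by positivity
  have h3 : ‖sA z / ((√(2 * Real.pi) : ℝ) : ℂ)‖ ≤ 2 := by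
    calc ‖sA z / ((√(2 * Real.pi) : ℝ) : ℂ)‖ =
        ‖(sA z / ((√(2 * Real.pi) : ℝ) : ℂ) - 1) + 1‖ := by rw [sub_add_cancel]
      _ ≤ ‖sA z / ((√(2 * Real.pi) : ℝ) : ℂ) - 1‖ + ‖(1:ℂ)‖ := norm_add_le _ _
      _ ≤ 2 := by rw [norm_one]; linarith
  rw [norm_div, Complex.norm_real, Real.norm_of_nonneg hs.le, div_le_iff₀ hs] at h3
  exact h3

lemma sA_close {z : ℝ} (hz : 2 ≤ z) {δ : ℂ} (hδ : ‖δ‖ < z / 2) :
    ‖sA (z + δ) - sA z‖ ≤ 5 * √(2 * Real.pi) / (z / 2) * ‖δ‖ := by
  have hs : 0 < √(2 * Real.pi) := by positivity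
  have hball : ∀ w ∈ Metric.ball (z : ℂ) (z / 2), 0 < w.re ∧ 1 ≤ ‖w‖ := by
    intro w hw
    rw [Metric.mem_ball, dist_eq_norm] at hw
    have h1 := Complex.abs_re_le_norm (w - z)
    rw [Complex.sub_re, Complex.ofReal_re] at h1
    have h2 := abs_le.1 h1
    have h3 : z / 2 < w.re := by linarith
    exact ⟨by linarith, by linarith [Complex.re_le_norm w]⟩
  have h0 : (z : ℂ) ∈ Metric.ball (z : ℂ) (z / 2) := Metric.mem_ball_self (by linarith)
  have h1 := Complex.dist_le_div_mul_dist_of_mapsTo_ball (f := sA) (c := (z : ℂ)) (R₁ := z / 2)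
    (R₂ := 5 * √(2 * Real.pi)) (z := z + δ)
    (fun w hw => (sA_diff (hball w hw).1).differentiableWithinAt)
    (by
      intro w hw
      rw [Metric.mem_closedBall, dist_eq_norm]
      have h2 := sA_bound (hball w hw).1.le (hball w hw).2
      have h3 := sA_bound (hball _ h0).1.le (hball _ h0).2
      have h4 := norm_sub_le (sA w) (sA z)
      linarith)
    (by
      rw [Metric.mem_ball, dist_eq_norm, add_sub_cancel_left]
      exact hδ)
  rw [dist_eq_norm, dist_eq_norm, add_sub_cancel_left] at h1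
  exact h1

lemma log_shift (s : ℝ) : Tendsto (fun x : ℝ => (Real.log (x + s) : ℂ) / (Real.log x : ℂ)) atTop
    (𝓝 1) := by
  have h1 : Tendsto (fun x : ℝ => (x + s) / x) atTop (𝓝 1) := by
    have h2 := (tendsto_inv_atTop_zero (𝕜 := ℝ)).const_mul s
    have h3 := h2.const_add 1
    rw [mul_zero, add_zero] at h3
    refine h3.congr' ?_
    filter_upwards [eventually_gt_atTop 0] with x hx
    field_simp
  have h2 := (Real.continuousAt_log (one_ne_zero)).tendsto.comp h1
  rw [Real.log_one] at h2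
  have h3 := ((Complex.continuous_ofReal.tendsto 0).comp h2).mul log_inv_zero
  have h4 := h3.const_add 1
  rw [mul_zero, add_zero] at h4
  refine h4.congr' ?_
  filter_upwards [eventually_gt_atTop 1, eventually_gt_atTop (-s)] with x hx hxs
  have hl : ((Real.log x : ℝ) : ℂ) ≠ 0 := Complex.ofReal_ne_zero.2 (Real.log_pos hx).ne'
  simp only [Function.comp_apply]
  rw [Real.log_div (by linarith) (by linarith)]
  push_cast
  field_simp
  ring

/-- the quotient of values of `Γ` at nearby points -/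
theorem ratio {δ : ℝ → ℂ} {s : ℝ} (hδ0 : ∀ᶠ x in atTop, δ x ≠ 0)
    (hδ : Tendsto (fun x => δ x * (Real.log x : ℂ)) atTop (𝓝 0)) :
    Tendsto (fun x : ℝ => (Complex.Gamma (x + s + δ x) / Complex.Gamma (x + s) - 1) /
      (δ x * (Real.log x : ℂ))) atTop (𝓝 1) := by
  have hδz : Tendsto δ atTop (𝓝 0) := by
    have h1 := hδ.mul log_inv_zero
    rw [zero_mul] at h1
    refine h1.congr' ?_
    filter_upwards [eventually_gt_atTop 1] with x hx
    have hl : ((Real.log x : ℝ) : ℂ) ≠ 0 := Complex.ofReal_ne_zero.2 (Real.log_pos hx).ne'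
    field_simp
  have hδn : Tendsto (fun x => ‖δ x‖) atTop (𝓝 0) := by simpa using hδz.norm
  have hzi : Tendsto (fun x : ℝ => ((x + s : ℝ) : ℂ)⁻¹) atTop (𝓝 0) :=
    x_inv_zero.comp (tendsto_atTop_add_const_right _ s tendsto_id)
  -- the first factor
  have hst : Tendsto (fun x : ℝ => sA ((x + s : ℝ) : ℂ)) atTop
      (𝓝 ((√(2 * Real.pi) : ℝ) : ℂ)) := by
    apply stir_tendsto
    · filter_upwards [eventually_ge_atTop (-s)] with x hx
      simp only [Complex.ofReal_re]
      linarith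
    · simp only [Complex.norm_real, Real.norm_eq_abs]
      exact tendsto_abs_atTop_atTop.comp (tendsto_atTop_add_const_right _ s tendsto_id)
  have hA : Tendsto (fun x : ℝ => (sA ((x + s : ℝ) + δ x) - sA ((x + s : ℝ) : ℂ)) /
      (δ x * (Real.log x : ℂ))) atTop (𝓝 0) := by
    have h1 : Tendsto (fun x : ℝ => 10 * √(2 * Real.pi) * (x + s)⁻¹ * (Real.log x)⁻¹) atTop
        (𝓝 0) := by
      have h2 : Tendsto (fun x : ℝ => (x + s)⁻¹) atTop (𝓝 0) :=
        tendsto_inv_atTop_zero.comp (tendsto_atTop_add_const_right _ s tendsto_id)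
      have h3 : Tendsto (fun x : ℝ => (Real.log x)⁻¹) atTop (𝓝 0) :=
        tendsto_inv_atTop_zero.comp Real.tendsto_log_atTop
      simpa using (h2.const_mul (10 * √(2 * Real.pi))).mul h3
    refine squeeze_zero_norm' ?_ h1
    filter_upwards [eventually_ge_atTop (2 - s), eventually_gt_atTop 1, hδ0,
      hδn.eventually (gt_mem_nhds one_pos)] with x h2 h3 h4 h5
    have h6 := sA_close (z := x + s) (by linarith) (δ := δ x) (by linarith)
    have hl := Real.log_pos h3
    have hd := norm_pos_iff.2 h4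
    rw [norm_div, norm_mul, Complex.norm_real, Real.norm_of_nonneg hl.le,
      div_le_iff₀ (by positivity)]
    refine h6.trans (le_of_eq ?_)
    have : x + s ≠ 0 := by linarith
    field_simp
    norm_num
  -- the second factor
  set θ : ℝ → ℂ := fun x => phi ((x + s : ℝ) + δ x) - phi ((x + s : ℝ) : ℂ) with hθ
  have hθ1 : Tendsto (fun x => θ x / (δ x * (Real.log x : ℂ))) atTop (𝓝 1) := by
    set g : ℂ → ℂ := dslope (fun z => Complex.log (1 + z)) 0 with hg
    have hd : HasDerivAt (fun z : ℂ => Complex.log (1 + z)) 1 0 := by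
      have h1 : HasDerivAt (fun z : ℂ => 1 + z) 1 0 := (hasDerivAt_id (0 : ℂ)).const_add 1
      have h2 := h1.clog (by simp)
      simpa using h2
    have hg0 : g 0 = 1 := by
      rw [hg, dslope_same]
      exact hd.deriv
    have hgm : ∀ z : ℂ, Complex.log (1 + z) = z * g z := by
      intro z
      have := sub_smul_dslope (fun z => Complex.log (1 + z)) 0 z
      simp only [sub_zero, smul_eq_mul, add_zero, Complex.log_one] at this
      rw [hg]
      exact this.symm
    have hq : Tendsto (fun x : ℝ => δ x * ((x + s : ℝ) : ℂ)⁻¹) atTop (𝓝 0) := by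
      simpa using hδz.mul hzi
    have hgt : Tendsto (fun x : ℝ => g (δ x * ((x + s : ℝ) : ℂ)⁻¹)) atTop (𝓝 1) := by
      have h1 : ContinuousAt g 0 := by
        rw [hg, continuousAt_dslope_same]
        exact hd.differentiableAt
      have h2 := h1.tendsto.comp hq
      rwa [hg0] at h2
    have h1 : Tendsto (fun x : ℝ => (1 + (δ x - 1/2) * ((x + s : ℝ) : ℂ)⁻¹) *
        g (δ x * ((x + s : ℝ) : ℂ)⁻¹) - 1) atTop (𝓝 0) := by
      have h2 := ((((hδz.sub_const (1/2)).mul hzi).const_add 1).mul hgt).sub_const 1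
      simpa using h2
    have h2 := (log_shift s).add (h1.mul log_inv_zero)
    simp only [mul_zero, add_zero] at h2
    refine h2.congr' ?_
    have h3 : ∀ᶠ x : ℝ in atTop, 1 + δ x * ((x + s : ℝ) : ℂ)⁻¹ ∈ Complex.slitPlane := by
      have h4 := hq.const_add 1
      rw [add_zero] at h4
      exact h4.eventually (Complex.isOpen_slitPlane.mem_nhds Complex.one_mem_slitPlane)
    filter_upwards [eventually_gt_atTop 1, eventually_gt_atTop (-s), hδ0, h3] with x hx hxs hd0 h4
    have hl : ((Real.log x : ℝ) : ℂ) ≠ 0 := Complex.ofReal_ne_zero.2 (Real.log_pos hx).ne'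
    have hxs' : 0 < x + s := by linarith
    have hxc : ((x + s : ℝ) : ℂ) ≠ 0 := by exact_mod_cast hxs'.ne'
    have h5 : ((x + s : ℝ) : ℂ) + δ x = ((x + s : ℝ) : ℂ) * (1 + δ x * ((x + s : ℝ) : ℂ)⁻¹) := by
      field_simp
    have h6 : Complex.log (((x + s : ℝ) : ℂ) + δ x) = (Real.log (x + s) : ℂ) +
        δ x * ((x + s : ℝ) : ℂ)⁻¹ * g (δ x * ((x + s : ℝ) : ℂ)⁻¹) := by
      rw [h5, Complex.log_ofReal_mul hxs' (Complex.slitPlane_ne_zero h4), hgm]
    rw [hθ]
    simp only [phi]
    rw [h6, ← Complex.ofReal_log hxs'.le]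
    field_simp
    ring
  have hθ0 : Tendsto θ atTop (𝓝 0) := by
    have h1 := hθ1.mul hδ
    rw [mul_zero] at h1
    refine h1.congr' ?_
    filter_upwards [eventually_gt_atTop 1, hδ0] with x hx hd0
    have hl : ((Real.log x : ℝ) : ℂ) ≠ 0 := Complex.ofReal_ne_zero.2 (Real.log_pos hx).ne'
    field_simp
  have hE : Tendsto (fun x => (Complex.exp (θ x) - 1) / (δ x * (Real.log x : ℂ))) atTop
      (𝓝 1) := by
    have h1 : ContinuousAt (dslope Complex.exp 0) 0 := by
      rw [continuousAt_dslope_same]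
      exact Complex.differentiable_exp.differentiableAt
    have h2 := h1.tendsto.comp hθ0
    rw [dslope_same, (Complex.hasDerivAt_exp 0).deriv, Complex.exp_zero] at h2
    have h3 := h2.mul hθ1
    rw [mul_one] at h3
    refine h3.congr (fun x => ?_)
    simp only [Function.comp_apply]
    have h4 := sub_smul_dslope Complex.exp 0 (θ x)
    rw [sub_zero, smul_eq_mul, Complex.exp_zero] at h4
    rw [← h4]
    ring
  have hE0 : Tendsto (fun x => Complex.exp (θ x)) atTop (𝓝 1) := by
    have := (Complex.continuous_exp.tendsto 0).comp hθ0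
    rwa [Complex.exp_zero] at this
  have hfin := ((hA.div hst sqrt_ne).mul hE0).add hE
  rw [zero_div, zero_mul, zero_add] at hfin
  refine hfin.congr' ?_
  filter_upwards [eventually_gt_atTop (-s), hst.eventually_ne sqrt_ne, hδ0,
    eventually_gt_atTop 1] with x hxs hA0 hd0 hx1
  have hl : ((Real.log x : ℝ) : ℂ) ≠ 0 := Complex.ofReal_ne_zero.2 (Real.log_pos hx1).ne'
  have hG : ∀ z : ℂ, Complex.Gamma z = sA z * Complex.exp (phi z) := by
    intro z
    rw [sA_eq, mul_assoc, ← Complex.exp_add, neg_add_cancel, Complex.exp_zero, mul_one]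
  have h1 : (x : ℂ) + s = ((x + s : ℝ) : ℂ) := by push_cast; ring
  simp only [Pi.div_apply]
  rw [h1, hG (((x + s : ℝ) : ℂ) + δ x), hG ((x + s : ℝ) : ℂ)]
  have h2 : Complex.exp (phi (((x + s : ℝ) : ℂ) + δ x)) =
      Complex.exp (θ x) * Complex.exp (phi ((x + s : ℝ) : ℂ)) := by
    rw [← Complex.exp_add, hθ]
    simp only [sub_add_cancel]
  rw [h2]
  have h3 := Complex.exp_ne_zero (phi ((x + s : ℝ) : ℂ))
  field_simp
  ring

end Pool.Agent.TH814.GS
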