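import Pool.Agent.TH814.GS.Nl
import Pool.Agent.TH814.GS.Stir

set_option autoImplicit false

/-!
Values of `Γ` at an algebraic function tending to infinity in the right half plane: the function
is asymptotic to a translation.
-/

namespace Pool.Agent.TH814.GS

open Filter Topology Asymptotics Set Pool.Agent.H401R2

/-- the main term of the logarithm of the Gamma function -/
noncomputable def phi (z : ℂ) : ℂ := (z - 1/2) * Complex.log z - z

lemma sA_eq (z : ℂ) : sA z = Complex.Gamma z * Complex.exp (-phi z) := rfl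

lemma slit_of {z : ℂ} (h : 0 ≤ z.re) (h0 : z ≠ 0) : z ∈ Complex.slitPlane := by
  rw [Complex.mem_slitPlane_iff]
  by_contra hcon
  push Not at hcon
  exact h0 (Complex.ext (le_antisymm hcon.1 h) hcon.2)

lemma ECont.clog {h : ℝ → ℂ} (H : ECont h) (h0 : ∀ᶠ x in atTop, h x ∈ Complex.slitPlane) :
    ECont (fun x => Complex.log (h x)) := by
  obtain ⟨A, hA⟩ := H
  obtain ⟨B, hB⟩ := eventually_atTop.1 h0
  refine ⟨max A B, (hA.mono (Ici_subset_Ici.2 (le_max_left _ _))).clog (fun x hx => ?_)⟩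
  exact hB x (le_trans (le_max_right _ _) hx)

lemma ECont.sub {h h' : ℝ → ℂ} (H : ECont h) (H' : ECont h') : ECont (fun x => h x - h' x) :=
  ECont.comp2 (f := fun a b => a - b) continuous_sub H H'

lemma ECont_logmon (a b : ℝ) : ECont (fun x => ((Real.log (mon a b x) : ℝ) : ℂ)) := by
  refine ⟨1, Complex.continuous_ofReal.comp_continuousOn ?_⟩
  refine ContinuousOn.log (cont_mon a b) (fun x hx => ?_)
  have hx' : (1:ℝ) ≤ x := hx
  exact (mon_pos (by linarith)).ne'

/-- Stirling's formula for an algebraic value of `Γ` at a function tending to infinity in the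
right half plane -/
lemma star {Y G : ℝ → ℂ} (hY : ECont Y) (hre : ∀ᶠ x in atTop, 0 ≤ (Y x).re)
    (hinf : Tendsto (fun x => ‖Y x‖) atTop atTop)
    (hG : ∀ᶠ x in atTop, Complex.Gamma (Y x) = G x) {s r : ℝ} {c : ℂ} (hc : c ≠ 0)
    (hlt : LT G s r c) :
    ∃ κ : ℂ, Tendsto (fun x => phi (Y x) - ((Real.log (mon s r x) : ℝ) : ℂ)) atTop (𝓝 κ) := by
  have hne : ∀ᶠ x in atTop, Y x ≠ 0 := by
    filter_upwards [hinf.eventually_gt_atTop 0] with x hx
    exact norm_pos_iff.1 hx
  have hsl : ∀ᶠ x in atTop, Y x ∈ Complex.slitPlane := by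
    filter_upwards [hre, hne] with x h1 h2
    exact slit_of h1 h2
  have hst := stir_tendsto hre hinf
  apply tendsto_of_exp (a := c / ((√(2 * Real.pi) : ℝ) : ℂ))
  · exact (((hY.sub (ECont_of_cont continuous_const)).mul (hY.clog hsl)).sub hY).sub
      (ECont_logmon s r)
  · exact div_ne_zero hc sqrt_ne
  · refine Tendsto.congr' ?_ (Tendsto.div hlt hst sqrt_ne)
    filter_upwards [hG, hst.eventually_ne sqrt_ne, eventually_gt_atTop 0] with x h1 h2 h3
    simp only [Pi.div_apply]
    rw [sA_eq] at h2 ⊢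
    rw [h1] at h2 ⊢
    have h4 : G x ≠ 0 := left_ne_zero_of_mul h2
    have h5 : ((mon s r x : ℝ) : ℂ) = Complex.exp ((Real.log (mon s r x) : ℝ) : ℂ) := by
      rw [← Complex.ofReal_exp, Real.exp_log (mon_pos h3)]
    rw [h5, Complex.exp_sub, Complex.exp_neg]
    have h6 := Complex.exp_ne_zero (phi (Y x))
    have h7 := Complex.exp_ne_zero ((Real.log (mon s r x) : ℝ) : ℂ)
    field_simp

/-- the same with Stirling's formula for `Γ(x)` -/
lemma star2 {F : ℝ → ℂ} {s r : ℝ} {κ : ℂ}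
    (h : Tendsto (fun x => F x - ((Real.log (mon s r x) : ℝ) : ℂ)) atTop (𝓝 κ)) :
    ∃ κ' : ℂ, Tendsto (fun x : ℝ => F x - r * (((x : ℂ) - 1/2) * (Real.log x : ℂ) - x)
      - s * (Real.log x : ℂ)) atTop (𝓝 κ') := by
  have h1 := (Complex.continuous_ofReal.tendsto _).comp log_gamma
  have h2 := h.add (h1.const_mul (r : ℂ))
  refine ⟨_, h2.congr' ?_⟩
  filter_upwards [eventually_gt_atTop 0] with x hx
  simp only [Function.comp_apply]
  rw [log_mon hx]
  push_cast
  ring

lemma tendsto_inv_of_norm {Y : ℝ → ℂ} (hinf : Tendsto (fun x => ‖Y x‖) atTop atTop) :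
    Tendsto (fun x => (Y x)⁻¹) atTop (𝓝 0) := by
  rw [tendsto_zero_iff_norm_tendsto_zero]
  simp only [norm_inv]
  exact tendsto_inv_atTop_zero.comp hinf

lemma log_inv_zero : Tendsto (fun x : ℝ => ((Real.log x : ℝ) : ℂ)⁻¹) atTop (𝓝 0) := by
  apply tendsto_inv_of_norm
  simp only [Complex.norm_real, Real.norm_eq_abs]
  exact tendsto_abs_atTop_atTop.comp Real.tendsto_log_atTop

lemma x_inv_zero : Tendsto (fun x : ℝ => (x : ℂ)⁻¹) atTop (𝓝 0) := by
  apply tendsto_inv_of_norm
  simp only [Complex.norm_real, Real.norm_eq_abs]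
  exact tendsto_abs_atTop_atTop

lemma log_div_x : Tendsto (fun x : ℝ => ((Real.log x : ℝ) : ℂ) / x) atTop (𝓝 0) := by
  have h1 : Tendsto (fun x : ℝ => Real.log x / x) atTop (𝓝 0) := by
    have := (isLittleO_log_rpow_atTop (zero_lt_one)).tendsto_div_nhds_zero
    simpa using this
  have h2 := (Complex.continuous_ofReal.tendsto 0).comp h1
  simp only [Complex.ofReal_zero] at h2
  refine h2.congr (fun x => ?_)
  simp

lemma mon_log_div {Y : ℝ → ℂ} {a b p q : ℝ} {c : ℂ} (H : LT Y a b c) (hc : c ≠ 0)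
    (hb : Big (a - p) (b - q)) :
    Tendsto (fun x => ((mon p q x : ℝ) : ℂ) * (Real.log x : ℂ) / Y x) atTop (𝓝 0) := by
  have h1 : Tendsto (fun x => mon (p - a) (q - b) x * Real.log x) atTop (𝓝 0) := by
    apply mon_log_zero
    rwa [neg_sub, neg_sub]
  have h2 := (Complex.continuous_ofReal.tendsto 0).comp h1
  have h3 := h2.mul (Tendsto.inv₀ H hc)
  rw [Complex.ofReal_zero, zero_mul] at h3
  refine h3.congr' ?_
  filter_upwards [eventually_gt_atTop 0] with x hx
  simp only [Function.comp_apply]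
  rw [mon_sub hx]
  have := monc_ne (a := a) (b := b) hx
  push_cast
  rw [inv_div]
  field_simp

/-- the function is not comparable to a power of `Γ` -/
lemma RR1 {Y : ℝ → ℂ} {s r : ℝ} {κ : ℂ} {a b : ℝ} {c : ℂ}
    (hinf : Tendsto (fun x => ‖Y x‖) atTop atTop) (H : LT Y a b c) (hc : c ≠ 0)
    (hb : Big a b)
    (hT : Tendsto (fun x : ℝ => phi (Y x) - r * (((x : ℂ) - 1/2) * (Real.log x : ℂ) - x)
      - s * (Real.log x : ℂ)) atTop (𝓝 κ)) : b = 0 := by
  by_contra hb0
  have hb1 : 0 < b := by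
    rcases hb with h | h
    · exact h
    · exact absurd h.1 hb0
  have hYi := tendsto_inv_of_norm hinf
  have h1 := hT.mul hYi
  rw [mul_zero] at h1
  have h2 : Tendsto (fun x => ((mon 1 0 x : ℝ) : ℂ) * (Real.log x : ℂ) / Y x) atTop (𝓝 0) :=
    mon_log_div H hc (Or.inl (by linarith))
  have h3 : Tendsto (fun x => ((mon 0 0 x : ℝ) : ℂ) * (Real.log x : ℂ) / Y x) atTop (𝓝 0) :=
    mon_log_div H hc (Or.inl (by linarith))
  have h4 : Tendsto (fun x : ℝ => ((mon 1 0 x : ℝ) : ℂ) * (Real.log x : ℂ) / Y x *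
      ((Real.log x : ℝ) : ℂ)⁻¹) atTop (𝓝 (0 * 0)) := h2.mul log_inv_zero
  have h5 : Tendsto (fun x : ℝ => (1 - 1/2 * (Y x)⁻¹) * Complex.log (Y x)) atTop (𝓝 1) := by
    have h6 := ((h1.add (h2.const_mul (r : ℂ))).sub ((h3.const_mul (r/2 : ℂ)))).sub
      (h4.const_mul (r : ℂ))
    have h7 := (h6.add (h3.const_mul (s : ℂ))).add_const 1
    simp only [mul_zero, add_zero, sub_zero, zero_add] at h7
    refine h7.congr' ?_
    filter_upwards [eventually_gt_atTop 1, hinf.eventually_gt_atTop 0] with x hx hx2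
    have hl : ((Real.log x : ℝ) : ℂ) ≠ 0 := Complex.ofReal_ne_zero.2 (Real.log_pos hx).ne'
    have hY0 : Y x ≠ 0 := norm_pos_iff.1 hx2
    have hm1 : mon 1 0 x = x := by simp [mon]
    rw [mon_zero, hm1, phi]
    push_cast
    field_simp
    ring
  have h6 : Tendsto (fun x : ℝ => Complex.log (Y x)) atTop (𝓝 1) := by
    have h7 : Tendsto (fun x : ℝ => (1 - 1/2 * (Y x)⁻¹)) atTop (𝓝 1) := by
      have := (hYi.const_mul (1/2 : ℂ)).const_sub 1
      simpa using this
    have h8 := h5.div h7 one_ne_zero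
    rw [div_one] at h8
    refine h8.congr' ?_
    filter_upwards [h7.eventually_ne one_ne_zero] with x hx
    simp only [Pi.div_apply]
    rw [mul_div_cancel_left₀ _ hx]
  have h7 := (Complex.continuous_re.tendsto _).comp h6
  have h8 : Tendsto (fun x => Real.log ‖Y x‖) atTop atTop := Real.tendsto_log_atTop.comp hinf
  refine not_tendsto_nhds_of_tendsto_atTop h8 _ (h7.congr (fun x => ?_))
  simp only [Function.comp_apply]
  rw [Complex.log_re]

/-- the logarithm of the function -/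
lemma log_ratio {Y : ℝ → ℂ} {a : ℝ} {c : ℂ} (H : LT Y a 0 c) (hc : c ∈ Complex.slitPlane) :
    Tendsto (fun x => Complex.log (Y x) / (Real.log x : ℂ)) atTop (𝓝 a) := by
  have hc0 : c ≠ 0 := Complex.slitPlane_ne_zero hc
  have h1 := (continuousAt_clog hc).tendsto.comp H
  have h2 := (h1.mul log_inv_zero).add_const (a : ℂ)
  rw [mul_zero, zero_add] at h2
  refine h2.congr' ?_
  filter_upwards [eventually_gt_atTop 1, H.eventually_ne hc0] with x hx hY
  have hx0 : 0 < x := by linarith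
  have hl : ((Real.log x : ℝ) : ℂ) ≠ 0 := Complex.ofReal_ne_zero.2 (Real.log_pos hx).ne'
  simp only [Function.comp_apply]
  have h3 : Y x = ((mon a 0 x : ℝ) : ℂ) * (Y x / ((mon a 0 x : ℝ) : ℂ)) := by
    have := monc_ne (a := a) (b := 0) hx0
    field_simp
  conv_rhs => rw [h3]
  rw [Complex.log_ofReal_mul (mon_pos hx0) (div_ne_zero hY (monc_ne hx0)), log_mon hx0]
  push_cast
  field_simp
  ring

/-- the function is comparable to `x` -/
lemma RR2 {Y : ℝ → ℂ} {s r : ℝ} {κ : ℂ} {a : ℝ} {c : ℂ}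
    (hinf : Tendsto (fun x => ‖Y x‖) atTop atTop) (hre : ∀ᶠ x in atTop, 0 ≤ (Y x).re)
    (H : LT Y a 0 c) (hc : c ≠ 0) (ha : 0 < a)
    (hT : Tendsto (fun x : ℝ => phi (Y x) - r * (((x : ℂ) - 1/2) * (Real.log x : ℂ) - x)
      - s * (Real.log x : ℂ)) atTop (𝓝 κ)) : LT Y 1 0 r ∧ 0 < r := by
  have hcs : c ∈ Complex.slitPlane := by
    refine slit_of ?_ hc
    have h1 := (Complex.continuous_re.tendsto c).comp H
    refine ge_of_tendsto h1 ?_
    filter_upwards [hre, eventually_gt_atTop 0] with x hx hx0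
    simp only [Function.comp_apply]
    rw [Complex.div_ofReal_re]
    exact div_nonneg hx (mon_pos hx0).le
  have h1 := log_ratio H hcs
  have hw : Tendsto (fun x => Complex.log (Y x) / (Real.log x : ℂ) - (Real.log x : ℂ)⁻¹) atTop
      (𝓝 a) := by
    have := h1.sub log_inv_zero
    rwa [sub_zero] at this
  have h2 := hT.mul log_inv_zero
  rw [mul_zero] at h2
  have h3 : Tendsto (fun x : ℝ => Y x * (Complex.log (Y x) / (Real.log x : ℂ) -
      (Real.log x : ℂ)⁻¹) - r * x * (1 - (Real.log x : ℂ)⁻¹)) atTop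
      (𝓝 (0 + 1/2 * a - r/2 + s)) := by
    refine Tendsto.congr' ?_ (((h2.add (h1.const_mul (1/2))).sub_const (r/2 : ℂ)).add_const
      (s : ℂ))
    filter_upwards [eventually_gt_atTop 1] with x hx
    have hl : ((Real.log x : ℝ) : ℂ) ≠ 0 := Complex.ofReal_ne_zero.2 (Real.log_pos hx).ne'
    rw [phi]
    field_simp
    ring
  have hr1 : Tendsto (fun x : ℝ => (1 - (Real.log x : ℂ)⁻¹)) atTop (𝓝 (1 - 0)) :=
    log_inv_zero.const_sub 1
  have h4 : Tendsto (fun x : ℝ => Y x / x) atTop (𝓝 (r / a)) := by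
    have h5 := h3.mul x_inv_zero
    rw [mul_zero] at h5
    have h6 := (h5.add (hr1.const_mul (r : ℂ))).div hw (Complex.ofReal_ne_zero.2 ha.ne')
    rw [zero_add, sub_zero, mul_one] at h6
    refine h6.congr' ?_
    filter_upwards [eventually_gt_atTop 1, hw.eventually_ne (Complex.ofReal_ne_zero.2 ha.ne')]
      with x hx hwx
    simp only [Pi.div_apply]
    have hx0 : (x : ℂ) ≠ 0 := by
      have : x ≠ 0 := by linarith
      exact_mod_cast this
    rw [div_eq_div_iff hwx hx0]
    field_simp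
    ring
  have hr : r ≠ 0 := by
    rintro rfl
    have h5 : Tendsto (fun x => ‖Y x * (Complex.log (Y x) / (Real.log x : ℂ) -
      (Real.log x : ℂ)⁻¹)‖) atTop atTop := by
      simp only [norm_mul]
      exact hinf.atTop_mul_pos (norm_pos_iff.2 (by exact_mod_cast ha.ne' : (a : ℂ) ≠ 0)) hw.norm
    refine not_tendsto_nhds_of_tendsto_atTop h5 _ (h3.norm.congr (fun x => ?_))
    simp
  have h5 : LT Y 1 0 (r / a) := by
    refine h4.congr' ?_
    filter_upwards with x
    simp [mon]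
  have h6 := H.unique hc h5 (div_ne_zero (by exact_mod_cast hr) (by exact_mod_cast ha.ne'))
  have h7 : (r / a : ℂ) = r := by
    rw [h6.1]
    simp
  rw [h7] at h5
  refine ⟨h5, lt_of_le_of_ne ?_ (Ne.symm hr)⟩
  rw [h7] at h4
  have h8 := (Complex.continuous_re.tendsto _).comp h4
  rw [Complex.ofReal_re] at h8
  refine ge_of_tendsto h8 ?_
  filter_upwards [hre, eventually_gt_atTop 0] with x hx hx0
  simp only [Function.comp_apply]
  rw [Complex.div_ofReal_re]
  exact div_nonneg hx hx0.le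

/-- the expansion of the main term -/
lemma RR3 {Y : ℝ → ℂ} {r : ℝ} (H : LT Y 1 0 r) (hr : 0 < r) :
    ∃ P : ℝ → ℂ, Tendsto P atTop (𝓝 1) ∧ ∀ᶠ x : ℝ in atTop, phi (Y x) =
      (Y x - 1/2) * ((Real.log x : ℂ) + Real.log r) + (Y x - r * x) * P x - Y x := by
  have hrc : (r : ℂ) ≠ 0 := by exact_mod_cast hr.ne'
  have hYx : Tendsto (fun x : ℝ => Y x / x) atTop (𝓝 r) := by
    refine Tendsto.congr (fun x => ?_) H
    simp [mon]
  set δ : ℝ → ℂ := fun x => (Y x - r * x) / (r * x) with hδ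
  have hδ0 : Tendsto δ atTop (𝓝 0) := by
    have h1 := (hYx.sub_const (r : ℂ)).div_const (r : ℂ)
    rw [sub_self, zero_div] at h1
    refine h1.congr' ?_
    filter_upwards [eventually_gt_atTop 0] with x hx
    have hx0 : (x : ℂ) ≠ 0 := by exact_mod_cast hx.ne'
    rw [hδ]
    field_simp
  set g : ℂ → ℂ := dslope (fun z => Complex.log (1 + z)) 0 with hg
  have hd : HasDerivAt (fun z : ℂ => Complex.log (1 + z)) 1 0 := by
    have h1 : HasDerivAt (fun z : ℂ => 1 + z) 1 0 := (hasDerivAt_id (0 : ℂ)).const_add 1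
    have h2 := h1.clog (by simp)
    simpa using h2
  have hg0 : g 0 = 1 := by
    rw [hg, dslope_same]
    exact hd.deriv
  have hgt : Tendsto (fun x => g (δ x)) atTop (𝓝 1) := by
    have h1 : ContinuousAt g 0 := by
      rw [hg, continuousAt_dslope_same]
      exact hd.differentiableAt
    have h2 := h1.tendsto.comp hδ0
    rwa [hg0] at h2
  have hgm : ∀ z : ℂ, Complex.log (1 + z) = z * g z := by
    intro z
    have := sub_smul_dslope (fun z => Complex.log (1 + z)) 0 z
    simp only [sub_zero, smul_eq_mul, add_zero, Complex.log_one] at this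
    rw [hg]
    exact this.symm
  refine ⟨fun x => (Y x - 1/2) / (r * x) * g (δ x), ?_, ?_⟩
  · have h1 : Tendsto (fun x : ℝ => (Y x - 1/2) / (r * x)) atTop (𝓝 1) := by
      have h2 := ((hYx.sub (x_inv_zero.const_mul (1/2))).div_const (r : ℂ))
      rw [mul_zero, sub_zero, div_self hrc] at h2
      refine h2.congr' ?_
      filter_upwards [eventually_gt_atTop 0] with x hx
      have hx0 : (x : ℂ) ≠ 0 := by exact_mod_cast hx.ne'
      field_simp
    have := h1.mul hgt
    rwa [one_mul] at this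
  · have h1 : ∀ᶠ x in atTop, 1 + δ x ∈ Complex.slitPlane := by
      have h2 := hδ0.const_add 1
      rw [add_zero] at h2
      exact h2.eventually (Complex.isOpen_slitPlane.mem_nhds Complex.one_mem_slitPlane)
    filter_upwards [h1, eventually_gt_atTop 0] with x hx hx0
    have hxc : (x : ℂ) ≠ 0 := by exact_mod_cast hx0.ne'
    have h2 : Y x = ((r * x : ℝ) : ℂ) * (1 + δ x) := by
      rw [hδ]
      push_cast
      field_simp
      ring
    have h3 : Complex.log (Y x) = (Real.log x : ℂ) + Real.log r + δ x * g (δ x) := by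
      conv_lhs => rw [h2]
      rw [Complex.log_ofReal_mul (mul_pos hr hx0) (Complex.slitPlane_ne_zero hx), hgm,
        Real.log_mul hr.ne' hx0.ne']
      push_cast
      ring
    rw [phi, h3, hδ]
    field_simp

/-- the function is asymptotic to a translation -/
lemma RR4 {Y : ℝ → ℂ} {s r : ℝ} {κ : ℂ} (hA : Alg Y) (H : LT Y 1 0 r) (hr : 0 < r)
    (hT : Tendsto (fun x : ℝ => phi (Y x) - r * (((x : ℂ) - 1/2) * (Real.log x : ℂ) - x)
      - s * (Real.log x : ℂ)) atTop (𝓝 κ)) :
    r = 1 ∧ Tendsto (fun x : ℝ => Y x - x) atTop (𝓝 s) := by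
  obtain ⟨P, hP, hphi⟩ := RR3 H hr
  have hrc : (r : ℂ) ≠ 0 := by exact_mod_cast hr.ne'
  have hYx : Tendsto (fun x : ℝ => Y x / x) atTop (𝓝 r) := by
    refine Tendsto.congr (fun x => ?_) H
    simp [mon]
  have hT' : Tendsto (fun x : ℝ => (Y x - r * x) * ((Real.log x : ℂ) + Real.log r + P x - 1) +
      (r/2 - 1/2 - s) * (Real.log x : ℂ) + r * x * Real.log r - 1/2 * Real.log r) atTop
      (𝓝 κ) := by
    refine hT.congr' ?_
    filter_upwards [hphi] with x hx
    rw [hx]
    ring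
  have hηx : Tendsto (fun x : ℝ => (Y x - r * x) / x) atTop (𝓝 0) := by
    have h1 := hYx.sub_const (r : ℂ)
    rw [sub_self] at h1
    refine h1.congr' ?_
    filter_upwards [eventually_gt_atTop 0] with x hx
    have hx0 : (x : ℂ) ≠ 0 := by exact_mod_cast hx.ne'
    field_simp
  have hr1 : r = 1 := by
    have h1 : Tendsto (fun x : ℝ => (Y x - r * x) / x * (Real.log x : ℂ)) atTop
        (𝓝 (-(r * Real.log r))) := by
      have h2 := hT'.mul x_inv_zero
      have h3 := hηx.mul ((hP.const_add (Real.log r : ℂ)).sub_const 1)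
      have h4 := log_div_x.const_mul ((r/2 - 1/2 - s) : ℂ)
      have h5 := (((h2.sub h3).sub h4).add (x_inv_zero.const_mul (1/2 * Real.log r : ℂ))).sub_const
        (r * Real.log r : ℂ)
      simp only [mul_zero, zero_mul, sub_zero, add_zero, zero_sub] at h5
      refine h5.congr' ?_
      filter_upwards [eventually_gt_atTop 0] with x hx
      have hx0 : (x : ℂ) ≠ 0 := by exact_mod_cast hx.ne'
      field_simp
      ring
    have h2 : Alg (fun x : ℝ => (Y x - r * x) / x) :=
      (hA.sub ((Alg_const r).mul Alg_x)).div Alg_x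
    have h3 := h2.nl h1
    have h4 : (r : ℂ) * Real.log r = 0 := neg_eq_zero.1 h3
    have h5 : (Real.log r : ℂ) = 0 := (mul_eq_zero.1 h4).resolve_left hrc
    have h6 : Real.log r = 0 := by exact_mod_cast h5
    exact Real.eq_one_of_pos_of_log_eq_zero hr h6
  subst hr1
  refine ⟨rfl, ?_⟩
  have h1 := hT'.mul log_inv_zero
  simp only [Real.log_one, Complex.ofReal_zero, mul_zero, add_zero, sub_zero,
    Complex.ofReal_one, one_mul] at h1
  have h2 : Tendsto (fun x : ℝ => (Y x - x) * (1 + (P x - 1) * (Real.log x : ℂ)⁻¹)) atTop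
      (𝓝 s) := by
    have h3 := h1.add_const (s : ℂ)
    rw [zero_add] at h3
    refine h3.congr' ?_
    filter_upwards [eventually_gt_atTop 1] with x hx
    have hl : ((Real.log x : ℝ) : ℂ) ≠ 0 := Complex.ofReal_ne_zero.2 (Real.log_pos hx).ne'
    field_simp
    ring
  have h3 : Tendsto (fun x : ℝ => (1 + (P x - 1) * (Real.log x : ℂ)⁻¹)) atTop (𝓝 1) := by
    have := ((hP.sub_const 1).mul log_inv_zero).const_add 1
    simpa using this
  have h4 := h2.div h3 one_ne_zero
  rw [div_one] at h4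
  refine h4.congr' ?_
  filter_upwards [h3.eventually_ne one_ne_zero] with x hx
  simp only [Pi.div_apply]
  rw [mul_div_cancel_right₀ _ hx]

/-- the right half plane case -/
theorem right_main {Y G : ℝ → ℂ} (hY : Alg Y) (hGA : Alg G)
    (hre : ∀ᶠ x in atTop, 0 ≤ (Y x).re) (hinf : Tendsto (fun x => ‖Y x‖) atTop atTop)
    (hG : ∀ᶠ x in atTop, Complex.Gamma (Y x) = G x) :
    ∃ (s : ℚ), Tendsto (fun x : ℝ => Y x - x) atTop (𝓝 s) := by
  have hG0 : ∀ᶠ x in atTop, G x ≠ 0 := by
    filter_upwards [hG, (stir_tendsto hre hinf).eventually_ne sqrt_ne] with x h1 h2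
    rw [sA_eq, h1] at h2
    exact left_ne_zero_of_mul h2
  obtain ⟨s, r, c, hc, hlt⟩ : ∃ (a b : ℚ) (c : ℂ), c ≠ 0 ∧ LT G a b c := by
    rcases hGA.dich with h | h
    · obtain ⟨x, h1, h2⟩ := (h.and hG0).exists
      exact absurd h1 h2
    · exact h
  obtain ⟨κ, h1⟩ := star hY.1 hre hinf hG hc hlt
  obtain ⟨κ', h2⟩ := star2 h1
  have hY0 : ∀ᶠ x in atTop, Y x ≠ 0 := by
    filter_upwards [hinf.eventually_gt_atTop 0] with x hx
    exact norm_pos_iff.1 hx
  obtain ⟨a, b, e, he, hltY⟩ : ∃ (a b : ℚ) (c : ℂ), c ≠ 0 ∧ LT Y a b c := by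
    rcases hY.dich with h | h
    · obtain ⟨x, h1, h2⟩ := (h.and hY0).exists
      exact absurd h1 h2
    · exact h
  have hbig : Big (a : ℝ) (b : ℝ) := by
    rcases Big.trichotomy (a : ℝ) (b : ℝ) with h3 | h3 | h3
    · exact h3
    · exfalso
      have := (hltY.tendsto_zero h3).norm
      exact not_tendsto_nhds_of_tendsto_atTop hinf _ this
    · exfalso
      unfold LT at hltY
      rw [h3.1, h3.2] at hltY
      simp only [mon_zero, Complex.ofReal_one, div_one] at hltY
      exact not_tendsto_nhds_of_tendsto_atTop hinf _ hltY.norm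
  have hb0 := RR1 hinf hltY he hbig h2
  rw [hb0] at hltY hbig
  have ha : (0 : ℝ) < a := by
    rcases hbig with h | h
    · exact absurd h (lt_irrefl _)
    · exact h.2
  obtain ⟨h3, h4⟩ := RR2 hinf hre hltY he ha h2
  obtain ⟨-, h5⟩ := RR4 hY h3 h4 h2
  refine ⟨s, ?_⟩
  exact_mod_cast h5

end Pool.Agent.TH814.GS
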