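import Pool.Agent.TH814.GS.Ratio

set_option autoImplicit false

/-!
Rigidity: an algebraic function asymptotic to a translation with algebraic value of `Γ` is a
translation.
-/

namespace Pool.Agent.TH814.GS

open Filter Topology Asymptotics Set

lemma stolz {g m : ℝ → ℝ} (hm : ∀ᶠ x in atTop, 0 < m x) (hg : ∀ᶠ x in atTop, g x ≤ g (x - 1))
    (hg0 : Tendsto g atTop (𝓝 0)) {c : ℝ} (hc : c < 0)
    (hgm : Tendsto (fun x => g x / m x) atTop (𝓝 c)) : False := by
  obtain ⟨B, hB⟩ := eventually_atTop.1 hg
  have h1 : ∀ x, B ≤ x → 0 ≤ g x := by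
    intro x hx
    have h2 : ∀ n : ℕ, g (x + n) ≤ g x := by
      intro n
      induction n with
      | zero => simp
      | succ n ih =>
        have h3 := hB (x + (n + 1 : ℕ)) (by
          have : (0:ℝ) ≤ (n + 1 : ℕ) := Nat.cast_nonneg _
          linarith)
        push_cast at h3 ⊢
        have h4 : x + (n + 1 : ℝ) - 1 = x + n := by ring
        rw [h4] at h3
        linarith
    have h5 : Tendsto (fun n : ℕ => g (x + n)) atTop (𝓝 0) :=
      hg0.comp (tendsto_atTop_add_const_left _ x tendsto_natCast_atTop_atTop)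
    exact le_of_tendsto' h5 h2
  obtain ⟨x, hx1, hx2, hx3⟩ := (hm.and ((hgm.eventually (gt_mem_nhds hc)).and
    (eventually_ge_atTop B))).exists
  have := div_nonneg (h1 x hx3) hx1.le
  linarith

lemma shift_atTop : Tendsto (fun x : ℝ => x - 1) atTop atTop :=
  tendsto_atTop_add_const_right _ _ tendsto_id

lemma shift_div : Tendsto (fun x : ℝ => x / (x - 1)) atTop (𝓝 1) := by
  have h1 := (tendsto_inv_atTop_zero (𝕜 := ℝ)).comp shift_atTop
  have h2 := h1.const_add 1
  rw [add_zero] at h2
  refine h2.congr' ?_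
  filter_upwards [eventually_gt_atTop 1] with x hx
  have : x - 1 ≠ 0 := by linarith
  simp only [Function.comp_apply]
  field_simp
  ring

/-- the shift of a monomial -/
lemma shift_mon (a b : ℝ) :
    Tendsto (fun x => mon a b x / mon (a + b) b (x - 1)) atTop (𝓝 1) := by
  have h1 := (shift_div.rpow_const (p := a) (Or.inl one_ne_zero))
  rw [Real.one_rpow] at h1
  refine h1.congr' ?_
  filter_upwards [eventually_gt_atTop 1] with x hx
  have hx1 : 0 < x - 1 := by linarith
  have h2 := Real.Gamma_add_one hx1.ne'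
  rw [sub_add_cancel] at h2
  have h3 := Real.Gamma_pos_of_pos hx1
  unfold mon
  rw [h2, Real.mul_rpow hx1.le h3.le, Real.rpow_add hx1, Real.div_rpow (by linarith) hx1.le]
  have h4 := (Real.rpow_pos_of_pos hx1 b).ne'
  have h5 := (Real.rpow_pos_of_pos hx1 a).ne'
  have h6 := (Real.rpow_pos_of_pos h3 b).ne'
  field_simp

lemma shift_log : Tendsto (fun x : ℝ => Real.log x / Real.log (x - 1)) atTop (𝓝 1) := by
  have h1 := (Real.continuousAt_log one_ne_zero).tendsto.comp shift_div
  have h2 := h1.mul (tendsto_inv_atTop_zero.comp (Real.tendsto_log_atTop.comp shift_atTop))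
  have h3 := h2.const_add 1
  rw [mul_zero, add_zero] at h3
  refine h3.congr' ?_
  filter_upwards [eventually_gt_atTop 2] with x hx
  have hx1 : 0 < x - 1 := by linarith
  have h4 : Real.log (x - 1) ≠ 0 := (Real.log_pos (by linarith)).ne'
  simp only [Function.comp_apply]
  rw [Real.log_div (by linarith) hx1.ne']
  field_simp
  ring

/-- difference of the comparison function -/
lemma wbound {α : ℝ} (hα : α < 0) : ∃ c₁ c₂ : ℝ, 0 < c₁ ∧ 0 < c₂ ∧ ∀ᶠ x : ℝ in atTop,
    c₁ * (x ^ (α - 1) * Real.log x) ≤ (x - 1) ^ α * Real.log (x - 1) - x ^ α * Real.log x ∧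
    (x - 1) ^ α * Real.log (x - 1) - x ^ α * Real.log x ≤ c₂ * (x ^ (α - 1) * Real.log x) := by
  refine ⟨-α / 4, 2 ^ (1 - α) * (-α), by linarith, ?_, ?_⟩
  · have : (0:ℝ) < 2 ^ (1 - α) := Real.rpow_pos_of_pos (by norm_num) _
    nlinarith
  have hlog : ∀ᶠ x : ℝ in atTop, 4 / (-α) < Real.log x :=
    Real.tendsto_log_atTop.eventually_gt_atTop _
  filter_upwards [eventually_gt_atTop 4, hlog] with x hx hl
  obtain ⟨ξ, ⟨h1, h2⟩, h3⟩ := exists_hasDerivAt_eq_slope (fun y : ℝ => y ^ α * Real.log y)
    (fun y => α * y ^ (α - 1) * Real.log y + y ^ α * y⁻¹) (a := x - 1) (b := x) (by linarith)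
    (by
      intro y hy
      have hy0 : y ≠ 0 := by
        have := hy.1
        linarith
      exact ((Real.continuousAt_rpow_const y α (Or.inl hy0)).mul
        (Real.continuousAt_log hy0)).continuousWithinAt)
    (by
      intro y hy
      have hy0 : y ≠ 0 := by
        have := hy.1
        linarith
      exact (Real.hasDerivAt_rpow_const (Or.inl hy0)).mul (Real.hasDerivAt_log hy0))
  have hξ0 : 0 < ξ := by linarith
  have h4 : (x - 1) ^ α * Real.log (x - 1) - x ^ α * Real.log x =
      ξ ^ (α - 1) * (-α * Real.log ξ - 1) := by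
    have h5 : x - (x - 1) = 1 := by ring
    rw [h5, div_one] at h3
    have h6 : ξ ^ α * ξ⁻¹ = ξ ^ (α - 1) := by
      rw [Real.rpow_sub_one hξ0.ne']
      rfl
    rw [h6] at h3
    linarith
  rw [h4]
  have hx0 : 0 < x := by linarith
  have hp1 : x ^ (α - 1) ≤ ξ ^ (α - 1) :=
    Real.rpow_le_rpow_of_nonpos hξ0 h2.le (by linarith)
  have hp2 : ξ ^ (α - 1) ≤ 2 ^ (1 - α) * x ^ (α - 1) := by
    have h7 : ξ ^ (α - 1) ≤ (x / 2) ^ (α - 1) :=
      Real.rpow_le_rpow_of_nonpos (by linarith) (by linarith) (by linarith)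
    have h8 : (x / 2) ^ (α - 1) = 2 ^ (1 - α) * x ^ (α - 1) := by
      rw [Real.div_rpow hx0.le (by norm_num)]
      have : (1 - α) = -(α - 1) := by ring
      rw [this, Real.rpow_neg (by norm_num : (0:ℝ) ≤ 2)]
      field_simp
    rw [← h8]
    exact h7
  have hpx : 0 < x ^ (α - 1) := Real.rpow_pos_of_pos hx0 _
  have hl1 : Real.log ξ ≤ Real.log x := Real.log_le_log hξ0 h2.le
  have hl2 : Real.log x / 2 ≤ Real.log ξ := by
    have h9 : Real.log x ≤ Real.log (ξ ^ 2) := by
      apply Real.log_le_log hx0
      nlinarith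
    rw [Real.log_pow] at h9
    push_cast at h9
    linarith
  have hna : 0 < -α := by linarith
  have hl4 : 4 < -α * Real.log x := by
    rw [div_lt_iff₀ hna] at hl
    linarith
  have hlx : 0 < Real.log x := Real.log_pos (by linarith)
  constructor
  · have h10 : -α / 4 * Real.log x ≤ -α * Real.log ξ - 1 := by nlinarith
    have h11 : 0 ≤ -α / 4 * Real.log x := by positivity
    calc -α / 4 * (x ^ (α - 1) * Real.log x) = x ^ (α - 1) * (-α / 4 * Real.log x) := by ring
      _ ≤ ξ ^ (α - 1) * (-α * Real.log ξ - 1) := mul_le_mul hp1 h10 h11 (by positivity)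
  · have h10 : -α * Real.log ξ - 1 ≤ -α * Real.log x := by nlinarith
    have h11 : 0 ≤ -α * Real.log ξ - 1 := by nlinarith
    calc ξ ^ (α - 1) * (-α * Real.log ξ - 1) ≤
          (2 ^ (1 - α) * x ^ (α - 1)) * (-α * Real.log x) :=
          mul_le_mul hp2 h10 h11 (by positivity)
      _ = 2 ^ (1 - α) * (-α) * (x ^ (α - 1) * Real.log x) := by ring

/-- the case of a function smaller than every power of `x` -/
lemma caseNeg {l D : ℝ → ℂ} {α β : ℝ} {e : ℂ} (he : e ≠ 0) (hβ : β < 0)
    (hl : Tendsto (fun x => l x / ((mon α β x * Real.log x : ℝ) : ℂ)) atTop (𝓝 e))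
    (hD : ∀ᶠ x in atTop, D x * (1 + l (x - 1)) = l x - l (x - 1)) (hDA : Alg D) : False := by
  have hl0 : Tendsto l atTop (𝓝 0) := by
    have h1 := (Complex.continuous_ofReal.tendsto 0).comp (mon_log_zero (a := α) (b := β)
      (Or.inl (by linarith)))
    have h2 := hl.mul h1
    rw [Complex.ofReal_zero, mul_zero] at h2
    refine h2.congr' ?_
    filter_upwards [eventually_gt_atTop 1] with x hx
    have h3 : ((mon α β x * Real.log x : ℝ) : ℂ) ≠ 0 := by
      apply Complex.ofReal_ne_zero.2
      exact (mul_pos (mon_pos (by linarith)) (Real.log_pos hx)).ne'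
    simp only [Function.comp_apply]
    rw [div_mul_cancel₀ _ h3]
  have hl1 : Tendsto (fun x => 1 + l (x - 1)) atTop (𝓝 1) := by
    have := (hl0.comp shift_atTop).const_add 1
    rwa [add_zero] at this
  have hm : Tendsto (fun x => (mon α β x * Real.log x) / (mon α β (x - 1) * Real.log (x - 1)))
      atTop (𝓝 0) := by
    have h1 : Tendsto (fun x => (x - 1) ^ β) atTop (𝓝 (0:ℝ)) := by
      have h2 := tendsto_rpow_neg_atTop (y := -β) (by linarith)
      rw [neg_neg] at h2
      exact h2.comp shift_atTop
    have h3 := ((shift_mon α β).mul h1).mul shift_log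
    rw [mul_zero, zero_mul] at h3
    refine h3.congr' ?_
    filter_upwards [eventually_gt_atTop 2] with x hx
    have hx1 : 0 < x - 1 := by linarith
    have h4 : mon (α + β) β (x - 1) = mon α β (x - 1) * (x - 1) ^ β := by
      unfold mon
      rw [Real.rpow_add hx1]
      ring
    rw [h4]
    have h5 := (mon_pos (a := α) (b := β) hx1).ne'
    have h6 := (Real.rpow_pos_of_pos hx1 β).ne'
    have h7 : Real.log (x - 1) ≠ 0 := (Real.log_pos (by linarith)).ne'
    field_simp
  have hDm : Tendsto (fun x => D x / ((mon α β (x - 1) * Real.log (x - 1) : ℝ) : ℂ)) atTop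
      (𝓝 (-e)) := by
    have h1 := (hl.mul ((Complex.continuous_ofReal.tendsto 0).comp hm)).sub
      (hl.comp shift_atTop)
    rw [Complex.ofReal_zero, mul_zero, zero_sub] at h1
    have h2 := h1.div hl1 one_ne_zero
    rw [div_one] at h2
    refine h2.congr' ?_
    filter_upwards [hD, hl1.eventually_ne one_ne_zero, eventually_gt_atTop 2] with x h3 h4 hx
    have hx1 : 0 < x - 1 := by linarith
    have h5 : ((mon α β x * Real.log x : ℝ) : ℂ) ≠ 0 := by
      apply Complex.ofReal_ne_zero.2
      exact (mul_pos (mon_pos (by linarith)) (Real.log_pos (by linarith))).ne'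
    have h6 : ((mon α β (x - 1) * Real.log (x - 1) : ℝ) : ℂ) ≠ 0 := by
      apply Complex.ofReal_ne_zero.2
      exact (mul_pos (mon_pos (by linarith)) (Real.log_pos (by linarith))).ne'
    simp only [Pi.div_apply, Function.comp_apply]
    rw [Complex.ofReal_div, div_eq_div_iff h4 h6]
    field_simp
    rw [← h3]
  obtain ⟨α', β', d, hd, hlt⟩ : ∃ (a b : ℚ) (c : ℂ), c ≠ 0 ∧ LT D a b c := by
    rcases hDA.dich with h | h
    · exfalso
      have h1 : Tendsto (fun x => D x / ((mon α β (x - 1) * Real.log (x - 1) : ℝ) : ℂ)) atTop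
          (𝓝 0) := by
        refine Tendsto.congr' ?_ tendsto_const_nhds
        filter_upwards [h] with x hx
        rw [hx, zero_div]
      have := tendsto_nhds_unique h1 hDm
      exact he (neg_eq_zero.1 this.symm)
    · exact h
  have h1 : Tendsto (fun x => ((mon (α - (α' + β')) (β - β') (x - 1) : ℝ) : ℂ) *
      (Real.log (x - 1) : ℂ)) atTop (𝓝 (d * 1 / (-e))) := by
    have h2 := (Tendsto.mul hlt ((Complex.continuous_ofReal.tendsto 1).comp
      (shift_mon α' β'))).div hDm (neg_ne_zero.2 he)
    rw [Complex.ofReal_one] at h2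
    refine h2.congr' ?_
    filter_upwards [eventually_gt_atTop 2, hlt.eventually_ne hd] with x hx hD0
    have hx1 : 0 < x - 1 := by linarith
    have h3 := monc_ne (a := α') (b := β') (by linarith : 0 < x)
    have h4 := monc_ne (a := α' + β') (b := β') hx1
    have h5 := monc_ne (a := α) (b := β) hx1
    have h6 : ((Real.log (x - 1) : ℝ) : ℂ) ≠ 0 :=
      Complex.ofReal_ne_zero.2 (Real.log_pos (by linarith)).ne'
    simp only [Pi.div_apply, Function.comp_apply]
    rw [mon_sub hx1]
    push_cast
    field_simp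
  have h2 : Tendsto (fun x => ((mon (α - (α' + β')) (β - β') x : ℝ) : ℂ) *
      (Real.log x : ℂ)) atTop (𝓝 (d * 1 / (-e))) := by
    have h3 : Tendsto (fun x : ℝ => x + 1) atTop atTop :=
      tendsto_atTop_add_const_right _ _ tendsto_id
    refine (h1.comp h3).congr (fun x => ?_)
    simp only [Function.comp_apply, add_sub_cancel_right]
  have h3 := (nl (LT_mon _ _) one_ne_zero h2).1
  rw [mul_one] at h3
  exact div_ne_zero hd (neg_ne_zero.2 he) h3

/-- the case of a function comparable to a power of `x` -/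
lemma caseZero {l D : ℝ → ℂ} {α : ℝ} {e : ℂ} (he : e ≠ 0) (hα : α < 0)
    (hl : Tendsto (fun x => l x / ((x ^ α * Real.log x : ℝ) : ℂ)) atTop (𝓝 e))
    (hD : ∀ᶠ x in atTop, D x * (1 + l (x - 1)) = l x - l (x - 1)) (hDA : Alg D) : False := by
  set m : ℝ → ℝ := fun x => x ^ α * Real.log x with hm
  have hmpos : ∀ᶠ x in atTop, 0 < m x := by
    filter_upwards [eventually_gt_atTop 1] with x hx
    exact mul_pos (Real.rpow_pos_of_pos (by linarith) _) (Real.log_pos hx)
  have hm0 : Tendsto m atTop (𝓝 0) := by
    have := mon_log_zero (a := α) (b := 0) (Or.inr ⟨by simp, by linarith⟩)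
    refine this.congr (fun x => ?_)
    simp [mon, hm]
  have hl0 : Tendsto l atTop (𝓝 0) := by
    have h2 := hl.mul ((Complex.continuous_ofReal.tendsto 0).comp hm0)
    rw [Complex.ofReal_zero, mul_zero] at h2
    refine h2.congr' ?_
    filter_upwards [hmpos] with x hx
    simp only [Function.comp_apply]
    rw [div_mul_cancel₀ _ (Complex.ofReal_ne_zero.2 hx.ne')]
  have hl1 : Tendsto (fun x => 1 + l (x - 1)) atTop (𝓝 1) := by
    have := (hl0.comp shift_atTop).const_add 1
    rwa [add_zero] at this
  obtain ⟨c₁, c₂, hc₁, hc₂, hw⟩ := wbound hα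
  have hlred : ∀ c : ℂ, Tendsto (fun x => (l x / c).re / m x) atTop (𝓝 (e / c).re) := by
    intro c
    have h1 := (Complex.continuous_re.tendsto _).comp (hl.div_const c)
    refine h1.congr (fun x => ?_)
    simp only [Function.comp_apply]
    rw [← Complex.div_ofReal_re, div_right_comm]
  have hl0c : ∀ c : ℂ, Tendsto (fun x => (l x / c).re) atTop (𝓝 0) := by
    intro c
    have h1 := (Complex.continuous_re.tendsto _).comp (hl0.div_const c)
    rw [zero_div, Complex.zero_re] at h1
    exact h1
  -- the small case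
  have small : Tendsto (fun x => D x / ((x ^ (α - 1) * Real.log x : ℝ) : ℂ)) atTop (𝓝 0) →
      False := by
    intro hs
    have h1 : Tendsto (fun x => ((l x - l (x - 1)) / e) / ((x ^ (α - 1) * Real.log x : ℝ) : ℂ))
        atTop (𝓝 0) := by
      have h2 := (hs.mul hl1).div_const e
      rw [zero_mul, zero_div] at h2
      refine h2.congr' ?_
      filter_upwards [hD] with x hx
      rw [← hx]
      ring
    have h2 := h1.norm
    rw [norm_zero] at h2
    have h3 := h2.eventually (gt_mem_nhds (by positivity : 0 < c₁ / 2))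
    refine stolz (g := fun x => 1/2 * m x - (l x / e).re) (m := m) (c := 1/2 * 1 - 1) hmpos ?_ ?_
      (by norm_num) ?_
    · filter_upwards [h3, hw, eventually_gt_atTop 1] with x h4 h5 hx
      have hp : 0 < x ^ (α - 1) * Real.log x :=
        mul_pos (Real.rpow_pos_of_pos (by linarith) _) (Real.log_pos hx)
      rw [norm_div, Complex.norm_real, Real.norm_of_nonneg hp.le, div_lt_iff₀ hp] at h4
      have h6 := (abs_le.1 (Complex.abs_re_le_norm ((l x - l (x - 1)) / e))).1
      rw [sub_div, Complex.sub_re] at h6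
      rw [sub_div] at h4
      have h7 := h5.1
      simp only [hm]
      nlinarith
    · have h4 := (hm0.const_mul (1/2)).sub (hl0c e)
      simpa using h4
    · have h4 := hlred e
      rw [div_self he, Complex.one_re] at h4
      have h5 : Tendsto (fun x => m x / m x) atTop (𝓝 1) := by
        refine Tendsto.congr' ?_ tendsto_const_nhds
        filter_upwards [hmpos] with x hx
        rw [div_self hx.ne']
      refine ((h5.const_mul (1/2)).sub h4).congr (fun x => ?_)
      ring
  rcases hDA.dich with h | ⟨a, b, d, hd, hlt⟩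
  · apply small
    refine Tendsto.congr' ?_ tendsto_const_nhds
    filter_upwards [h] with x hx
    rw [hx, zero_div]
  · have hdec : Big ((a:ℝ) - (α - 1)) b ∨ Big (-((a:ℝ) - (α - 1))) (-b) ∨
        ((a:ℝ) - (α - 1) = 0 ∧ (b:ℝ) = 0) := Big.trichotomy _ _
    rcases hdec with hbig | hns
    · -- the large case
      have h1 : Tendsto (fun x => mon (-((a:ℝ) - (α - 1))) (-b) x * Real.log x) atTop (𝓝 0) := by
        apply mon_log_zero
        rwa [neg_neg, neg_neg]
      have hb : Tendsto (fun x => mon a b x / (x ^ (α - 1) * Real.log x)) atTop atTop := by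
        have hpos : ∀ᶠ x in atTop, mon (-((a:ℝ) - (α - 1))) (-b) x * Real.log x ∈ Ioi (0:ℝ) := by
          filter_upwards [eventually_gt_atTop 1] with x hx
          exact mul_pos (mon_pos (by linarith)) (Real.log_pos hx)
        have h2 := (tendsto_inv_nhdsGT_zero (𝕜 := ℝ)).comp
          (tendsto_nhdsWithin_iff.2 ⟨h1, hpos⟩)
        refine h2.congr' ?_
        filter_upwards [eventually_gt_atTop 1] with x hx
        have hx0 : 0 < x := by linarith
        simp only [Function.comp_apply]
        have h3 : mon (-((a:ℝ) - (α - 1))) (-b) x = x ^ (α - 1) / mon a b x := by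
          have h4 : mon (-((a:ℝ) - (α - 1))) (-b) x = mon ((α - 1) - a) (0 - b) x := by
            congr 1 <;> ring
          rw [h4, mon_sub hx0]
          congr 1
          simp [mon]
        rw [h3]
        have h5 := (mon_pos (a := a) (b := b) hx0).ne'
        have h6 := (Real.rpow_pos_of_pos hx0 (α - 1)).ne'
        have h7 := (Real.log_pos hx).ne'
        field_simp
      have hre : Tendsto (fun x => ((l x - l (x - 1)) / d).re / mon a b x) atTop (𝓝 1) := by
        have h2 := (Tendsto.mul hlt hl1).div_const d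
        rw [mul_one, div_self hd] at h2
        have h3 := (Complex.continuous_re.tendsto _).comp h2
        rw [Complex.one_re] at h3
        refine h3.congr' ?_
        filter_upwards [hD] with x hx
        simp only [Function.comp_apply]
        rw [← hx, ← Complex.div_ofReal_re]
        congr 1
        ring
      set M : ℝ := |(e / d).re| + 1 with hM
      have hMpos : 0 < M := by positivity
      refine stolz (g := fun x => -(l x / d).re - M * m x) (m := m) (c := -(e / d).re - M * 1)
        hmpos ?_ ?_ ?_ ?_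
      · filter_upwards [hre.eventually (lt_mem_nhds (by norm_num : (1/2 : ℝ) < 1)), hw,
          eventually_gt_atTop 1, hb.eventually_ge_atTop (2 * M * c₂)] with x h4 h5 hx h6
        have hp : 0 < x ^ (α - 1) * Real.log x :=
          mul_pos (Real.rpow_pos_of_pos (by linarith) _) (Real.log_pos hx)
        have hmn := mon_pos (a := a) (b := b) (by linarith : 0 < x)
        rw [lt_div_iff₀ hmn] at h4
        rw [le_div_iff₀ hp] at h6
        rw [sub_div, Complex.sub_re] at h4
        have h7 := mul_le_mul_of_nonneg_left h5.2 hMpos.le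
        simp only [hm]
        nlinarith
      · have h4 := ((hl0c d).neg).sub (hm0.const_mul M)
        simpa using h4
      · have := neg_abs_le (e / d).re
        rw [hM]
        linarith
      · have h4 := hlred d
        have h5 : Tendsto (fun x => m x / m x) atTop (𝓝 1) := by
          refine Tendsto.congr' ?_ tendsto_const_nhds
          filter_upwards [hmpos] with x hx
          rw [div_self hx.ne']
        refine (h4.neg.sub (h5.const_mul M)).congr (fun x => ?_)
        ring
    · apply small
      have h1 : Tendsto (fun x => mon ((a:ℝ) - (α - 1)) b x * (Real.log x)⁻¹) atTop (𝓝 0) := by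
        have h2 : Tendsto (fun x : ℝ => (Real.log x)⁻¹) atTop (𝓝 0) :=
          tendsto_inv_atTop_zero.comp Real.tendsto_log_atTop
        rcases hns with h3 | h3
        · have := (mon_zero_of h3).mul h2
          rwa [mul_zero] at this
        · rw [h3.1, h3.2]
          refine h2.congr (fun x => ?_)
          rw [mon_zero, one_mul]
      have h2 := Tendsto.mul hlt ((Complex.continuous_ofReal.tendsto 0).comp h1)
      rw [Complex.ofReal_zero, mul_zero] at h2
      refine h2.congr' ?_
      filter_upwards [eventually_gt_atTop 1] with x hx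
      have hx0 : 0 < x := by linarith
      have h3 : mon ((a:ℝ) - (α - 1)) b x = mon a b x / x ^ (α - 1) := by
        have h4 : mon ((a:ℝ) - (α - 1)) b x = mon (a - (α - 1)) (b - 0) x := by
          congr 1; ring
        rw [h4, mon_sub hx0]
        congr 1
        simp [mon]
      simp only [Function.comp_apply]
      rw [h3]
      have h5 := monc_ne (a := a) (b := b) hx0
      push_cast
      field_simp

/-- rigidity of translations -/
theorem rigid {Y G : ℝ → ℂ} (hY : Alg Y) (hGA : Alg G)
    (hG : ∀ᶠ x in atTop, Complex.Gamma (Y x) = G x) (s : ℚ)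
    (hs : Tendsto (fun x : ℝ => Y x - x) atTop (𝓝 s)) : ∀ᶠ x : ℝ in atTop, Y x = x + s := by
  set δ : ℝ → ℂ := fun x => Y x - x - s with hδ
  have hδA : Alg δ := (hY.sub Alg_x).sub (Alg_const s)
  have hδ0 : Tendsto δ atTop (𝓝 0) := by
    have := hs.sub_const (s : ℂ)
    rwa [sub_self] at this
  rcases hδA.dich with h | ⟨α, β, e, he, hlt⟩
  · filter_upwards [h] with x hx
    rw [hδ] at hx
    linear_combination hx
  exfalso
  have hbig : Big (-(α:ℝ)) (-β) := by
    rcases Big.trichotomy (α:ℝ) β with h | h | h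
    · exact absurd hδ0.norm (not_tendsto_nhds_of_tendsto_atTop (hlt.norm_tendsto he h) _)
    · exact h
    · exfalso
      unfold LT at hlt
      rw [h.1, h.2] at hlt
      simp only [mon_zero, Complex.ofReal_one, div_one] at hlt
      exact he (tendsto_nhds_unique hlt hδ0)
  have hδne := hlt.eventually_ne he
  have hδlog : Tendsto (fun x => δ x * (Real.log x : ℂ)) atTop (𝓝 0) := by
    have h1 := Tendsto.mul hlt ((Complex.continuous_ofReal.tendsto 0).comp (mon_log_zero hbig))
    rw [Complex.ofReal_zero, mul_zero] at h1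
    refine h1.congr' ?_
    filter_upwards [eventually_gt_atTop 0] with x hx
    have := monc_ne (a := α) (b := β) hx
    simp only [Function.comp_apply]
    push_cast
    field_simp
  have hrat := ratio (s := (s : ℝ)) hδne hδlog
  set l : ℝ → ℂ := fun x => G x / Complex.Gamma (x + (s : ℝ)) - 1 with hldef
  have hl : Tendsto (fun x => l x / ((mon α β x * Real.log x : ℝ) : ℂ)) atTop (𝓝 e) := by
    have h1 := hrat.mul hlt
    rw [one_mul] at h1
    refine h1.congr' ?_
    filter_upwards [hG, hδne, eventually_gt_atTop 1] with x h2 h3 hx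
    have h4 : (x : ℂ) + (s : ℝ) + δ x = Y x := by
      rw [hδ]
      push_cast
      ring
    have hl : ((Real.log x : ℝ) : ℂ) ≠ 0 := Complex.ofReal_ne_zero.2 (Real.log_pos hx).ne'
    have := monc_ne (a := α) (b := β) (by linarith : 0 < x)
    rw [h4, h2]
    push_cast
    field_simp
    simp [hldef]
  have hDA : Alg (fun x => G x / (G (x - 1) * (x - 1 + s)) - 1) :=
    (hGA.div (hGA.shift.mul ((Alg_x.sub (Alg_const 1)).add (Alg_const s)))).sub (Alg_const 1)
  have hinfx : Tendsto (fun x : ℝ => (Y x).re) atTop atTop := by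
    have h1 := (Complex.continuous_re.tendsto _).comp hs
    have h2 := tendsto_id.atTop_add h1 (α := ℝ)
    refine h2.congr (fun x => ?_)
    simp
  have hG0 : ∀ᶠ x in atTop, G x ≠ 0 := by
    filter_upwards [hG, hinfx.eventually_gt_atTop 0] with x h1 h2
    rw [← h1]
    exact Complex.Gamma_ne_zero_of_re_pos h2
  have hD : ∀ᶠ x : ℝ in atTop, (G x / (G (x - 1) * (x - 1 + s)) - 1) * (1 + l (x - 1)) =
      l x - l (x - 1) := by
    filter_upwards [shift_atTop.eventually hG0, eventually_gt_atTop (1 - (s:ℝ))] with x h1 hx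
    have hz : ((x : ℂ) - 1 + s) = ((x - 1 + (s:ℝ) : ℝ) : ℂ) := by push_cast; ring
    have hpos : 0 < x - 1 + (s:ℝ) := by linarith
    have hz0 : ((x : ℂ) - 1 + s) ≠ 0 := by
      rw [hz]
      exact_mod_cast hpos.ne'
    have h2 : Complex.Gamma ((x:ℂ) + (s:ℝ)) =
        ((x : ℂ) - 1 + s) * Complex.Gamma (((x - 1 : ℝ) : ℂ) + (s:ℝ)) := by
      have h3 := Complex.Gamma_add_one _ hz0
      have h4 : (x : ℂ) + (s:ℝ) = (x : ℂ) - 1 + s + 1 := by push_cast; ring
      have h5 : (((x - 1 : ℝ) : ℂ) + (s:ℝ)) = (x : ℂ) - 1 + s := by push_cast; ring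
      rw [h4, h5, h3]
    have h3 : Complex.Gamma (((x - 1 : ℝ) : ℂ) + (s:ℝ)) ≠ 0 := by
      apply Complex.Gamma_ne_zero_of_re_pos
      simp only [Complex.add_re, Complex.ofReal_re]
      linarith
    rw [hldef]
    simp only
    rw [h2]
    field_simp
    ring
  have hbc : (β:ℝ) < 0 ∨ ((β:ℝ) = 0 ∧ (α:ℝ) < 0) := by
    rcases hbig with h | ⟨h, h'⟩
    · left; linarith
    · right; exact ⟨by linarith, by linarith⟩
  rcases hbc with h | ⟨h, h'⟩
  · exact caseNeg he h hl hD hDA
  · refine caseZero he h' ?_ hD hDA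
    refine hl.congr (fun x => ?_)
    rw [h]
    simp [mon]

end Pool.Agent.TH814.GS
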