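import Pool.Agent.W848.GF.Cont
import Pool.Agent.TH814.GS.Fld

set_option autoImplicit false

/-!
Separable equations over the ring of polynomials in `z` and `1/Γ(z)`.
-/

namespace Pool.Agent.TH814.GS

open Filter Topology Set
open scoped Polynomial

lemma evc_diff (P : R2) : Differentiable ℂ (fun z : ℂ => evc z P) := by
  have : (fun z : ℂ => evc z P) = fun z => ∑ m ∈ P.support, P.coeff m *
      (z ^ (m 0) * (Complex.Gamma z)⁻¹ ^ (m 1)) := by
    ext z
    unfold evc
    rw [MvPolynomial.eval_eq']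
    refine Finset.sum_congr rfl (fun m _ => ?_)
    rw [Fin.prod_univ_two]
    rfl
  rw [this]
  have hg : Differentiable ℂ (fun z : ℂ => (Complex.Gamma z)⁻¹) :=
    Complex.differentiable_one_div_Gamma
  fun_prop

/-- a polynomial in `z` and `1/Γ(z)` vanishing on an open set is zero -/
lemma evc_open {Ω : Set ℂ} (hΩ : IsOpen Ω) (hne : Ω.Nonempty) {P : R2}
    (h : ∀ t ∈ Ω, evc t P = 0) : P = 0 := by
  by_contra hP
  obtain ⟨t, ht⟩ := hne
  have h1 : AnalyticOnNhd ℂ (fun z : ℂ => evc z P) Set.univ :=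
    (evc_diff P).differentiableOn.analyticOnNhd isOpen_univ
  have h2 : ∀ z : ℂ, evc z P = 0 := by
    intro z
    refine h1.eqOn_zero_of_preconnected_of_eventuallyEq_zero isPreconnected_univ (Set.mem_univ t)
      ?_ (Set.mem_univ z)
    filter_upwards [hΩ.mem_nhds ht] with s hs
    exact h s hs
  obtain ⟨x, hx⟩ := (ev_ne hP).exists
  exact hx (h2 _)

lemma evp_sum (Q : R2[X]) (x y : ℂ) :
    Q.eval₂ (evc x) y = ∑ k ∈ Finset.range (Q.natDegree + 1), evc x (Q.coeff k) * y ^ k :=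
  Polynomial.eval₂_eq_sum_range _ _

lemma evp_der (Q : R2[X]) (x y : ℂ) :
    (Polynomial.derivative Q).eval₂ (evc x) y =
      ∑ k ∈ Finset.range (Q.natDegree + 1), k * evc x (Q.coeff k) * y ^ (k - 1) := by
  rw [← Polynomial.eval_map, ← Polynomial.derivative_map, Polynomial.derivative_eval,
    Polynomial.sum_over_range' _ _ (Q.natDegree + 1)]
  · refine Finset.sum_congr rfl (fun k _ => ?_)
    rw [Polynomial.coeff_map]
    ring
  · exact Nat.lt_succ_of_le Polynomial.natDegree_map_le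
  · intro n
    simp

lemma evp_diff {Ω : Set ℂ} {f : ℂ → ℂ} (hf : DifferentiableOn ℂ f Ω) (Q : R2[X]) :
    DifferentiableOn ℂ (fun t => Q.eval₂ (evc t) (f t)) Ω := by
  have : (fun t => Q.eval₂ (evc t) (f t)) =
      fun t => ∑ k ∈ Finset.range (Q.natDegree + 1), evc t (Q.coeff k) * (f t) ^ k := by
    ext t
    exact evp_sum Q t (f t)
  rw [this]
  refine DifferentiableOn.fun_sum (fun k _ => ?_)
  exact (evc_diff (Q.coeff k)).differentiableOn.mul (hf.pow k)

lemma exists_irr2 {Ω : Set ℂ} {f : ℂ → ℂ} (hΩ : IsOpen Ω) (hp : IsPreconnected Ω)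
    (hne : Ω.Nonempty) (hf : DifferentiableOn ℂ f Ω) (Q : R2[X]) :
    Q ≠ 0 → (∀ t ∈ Ω, Q.eval₂ (evc t) (f t) = 0) →
    ∃ P : R2[X], Irreducible P ∧ ∀ t ∈ Ω, P.eval₂ (evc t) (f t) = 0 := by
  refine WfDvdMonoid.induction_on_irreducible Q (fun h => absurd rfl h) ?_ ?_
  · intro u hu _ h
    obtain ⟨t, ht⟩ := hne
    obtain ⟨v, hv⟩ := hu.exists_right_inv
    have h1 := congrArg (fun P => Polynomial.eval₂ (evc t) (f t) P) hv
    simp only [Polynomial.eval₂_mul, h t ht, zero_mul, Polynomial.eval₂_one] at h1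
    exact absurd h1 zero_ne_one
  · intro a i ha hi ih _ h
    have h1 : ∀ t ∈ Ω, i.eval₂ (evc t) (f t) * a.eval₂ (evc t) (f t) = 0 := by
      intro t ht
      rw [← Polynomial.eval₂_mul]
      exact h t ht
    rcases ((evp_diff hf i).analyticOnNhd hΩ).eq_zero_or_eq_zero_of_mul_eq_zero
      ((evp_diff hf a).analyticOnNhd hΩ) h1 hp with h2 | h2
    · exact ⟨i, hi, h2⟩
    · exact ih ha h2

lemma sep2 {Ω : Set ℂ} {f : ℂ → ℂ} (hΩ : IsOpen Ω) (hp : IsPreconnected Ω)
    (hne : Ω.Nonempty) (hf : DifferentiableOn ℂ f Ω) (Q : R2[X])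
    (hQ : Q ≠ 0) (hQ0 : ∀ t ∈ Ω, Q.eval₂ (evc t) (f t) = 0) :
    ∃ (P : R2[X]) (D : R2), P ≠ 0 ∧ D ≠ 0 ∧ (∀ t ∈ Ω, P.eval₂ (evc t) (f t) = 0) ∧
      ∀ t : ℂ, evc t D ≠ 0 → evc t (P.coeff P.natDegree) ≠ 0 ∧
        ∀ y : ℂ, P.eval₂ (evc t) y = 0 → (Polynomial.derivative P).eval₂ (evc t) y ≠ 0 := by
  obtain ⟨P, hP, hP0⟩ := exists_irr2 hΩ hp hne hf Q hQ hQ0
  have hdeg : P.natDegree ≠ 0 := by
    intro h
    obtain ⟨p, hpc⟩ := Polynomial.natDegree_eq_zero.1 h
    have hpne : p ≠ 0 := by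
      rintro rfl
      rw [map_zero] at hpc
      exact hP.ne_zero hpc.symm
    apply hpne
    refine evc_open hΩ hne (fun t ht => ?_)
    have := hP0 t ht
    rw [← hpc, Polynomial.eval₂_C] at this
    exact this
  let K := FractionRing R2
  let _ : GCDMonoid R2 := UniqueFactorizationMonoid.toGCDMonoid R2
  have hprim := hP.isPrimitive hdeg
  have hirr : Irreducible (P.map (algebraMap R2 K)) :=
    hprim.irreducible_iff_irreducible_map_fraction_map.1 hP
  obtain ⟨a, b, hab⟩ := hirr.separable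
  obtain ⟨c, hc0, hc⟩ := IsLocalization.integerNormalization_spec (nonZeroDivisors R2) a
  obtain ⟨d, hd0, hd⟩ := IsLocalization.integerNormalization_spec (nonZeroDivisors R2) b
  set a' := IsLocalization.integerNormalization (nonZeroDivisors R2) a
  set b' := IsLocalization.integerNormalization (nonZeroDivisors R2) b
  have hc1 : c ≠ 0 := nonZeroDivisors.ne_zero hc0
  have hd1 : d ≠ 0 := nonZeroDivisors.ne_zero hd0
  have key : Polynomial.C (c * d) = Polynomial.C d * a' * P +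
      Polynomial.C c * b' * Polynomial.derivative P := by
    apply Polynomial.map_injective (algebraMap R2 K) (IsFractionRing.injective _ _)
    rw [Polynomial.map_add, Polynomial.map_mul, Polynomial.map_mul, Polynomial.map_mul,
      Polynomial.map_mul, ← Polynomial.derivative_map, hc, hd, Polynomial.map_C, Polynomial.map_C,
      Polynomial.map_C]
    rw [Algebra.smul_def, Algebra.smul_def, Polynomial.algebraMap_apply,
      Polynomial.algebraMap_apply, map_mul, map_mul]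
    linear_combination
      (-(Polynomial.C (algebraMap R2 K c) * Polynomial.C (algebraMap R2 K d))) * hab
  refine ⟨P, c * d * P.coeff P.natDegree, hP.ne_zero, ?_, hP0, ?_⟩
  · refine mul_ne_zero (mul_ne_zero hc1 hd1) ?_
    exact Polynomial.leadingCoeff_ne_zero.2 hP.ne_zero
  · intro t ht
    rw [map_mul] at ht
    refine ⟨right_ne_zero_of_mul ht, fun y hy hy' => ?_⟩
    have h1 := congrArg (fun P => Polynomial.eval₂ (evc t) y P) key
    simp only [Polynomial.eval₂_add, Polynomial.eval₂_mul, hy, hy', mul_zero,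
      add_zero, Polynomial.eval₂_C] at h1
    exact left_ne_zero_of_mul ht h1

/-- the zeros of a polynomial in `z` and `1/Γ(z)` -/
lemma zeros_countable {D : R2} (hD : D ≠ 0) : {z : ℂ | evc z D = 0}.Countable := by
  obtain ⟨x, hx⟩ := (ev_ne hD).exists
  have h1 : AnalyticOnNhd ℂ (fun z : ℂ => evc z D) Set.univ := fun z _ =>
    (evc_diff D).analyticAt z
  have h2 : {z : ℂ | evc z D = 0}ᶜ ∈ codiscrete ℂ := h1.preimage_zero_mem_codiscrete hx
  rw [compl_mem_codiscrete_iff] at h2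
  have hd : DiscreteTopology {z : ℂ | evc z D = 0} := h2.2.to_subtype
  exact (Set.countable_coe_iff).1 (TopologicalSpace.separableSpace_iff_countable.1 inferInstance)

/-- the star shaped domain around a real point -/
def Wd (A : ℝ) (D : R2) : Set ℂ := {w | ∀ t ∈ Icc (0:ℝ) 1, evc (A + t * (w - A)) D ≠ 0}

lemma Wd_open (A : ℝ) (D : R2) : IsOpen (Wd A D) := by
  have h1 : IsClosed {p : ℂ × Icc (0:ℝ) 1 | evc (A + (p.2 : ℝ) * (p.1 - A)) D = 0} := by
    refine isClosed_eq ?_ continuous_const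
    refine (evc_diff D).continuous.comp ?_
    fun_prop
  have h2 := (isClosedMap_fst_of_compactSpace (X := ℂ) (Y := Icc (0:ℝ) 1)) _ h1
  have h3 : Wd A D = (Prod.fst '' {p : ℂ × Icc (0:ℝ) 1 | evc (A + (p.2 : ℝ) * (p.1 - A)) D = 0})ᶜ := by
    ext w
    simp only [Wd, mem_ofPred_eq, mem_compl_iff, mem_image, Prod.exists, not_exists, not_and]
    constructor
    · rintro h _ t ht rfl
      exact h t t.2 ht
    · intro h t ht h0
      exact h w ⟨t, ht⟩ h0 rfl
  rw [h3]
  exact h2.isOpen_compl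

lemma Wd_star (A : ℝ) (D : R2) : StarConvex ℝ (A : ℂ) (Wd A D) := by
  intro w hw a b ha hb hab t ht
  have h1 := hw (t * b) ⟨mul_nonneg ht.1 hb, by nlinarith [ht.1, ht.2]⟩
  have h2 : (A : ℂ) + t * (a • (A : ℂ) + b • w - A) = A + ((t * b : ℝ) : ℂ) * (w - A) := by
    have h3 : (a : ℂ) = 1 - b := by
      have : a = 1 - b := by linarith
      rw [this]
      push_cast
      ring
    rw [Complex.real_smul, Complex.real_smul, h3]
    push_cast
    ring
  rw [h2]
  exact h1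

lemma Wd_ray {A : ℝ} {D : R2} (h : ∀ x : ℝ, A ≤ x → evc x D ≠ 0) (x : ℝ) (hx : A ≤ x) :
    (x : ℂ) ∈ Wd A D := by
  intro t ht
  have h1 := h (A + t * (x - A)) (by nlinarith [ht.1])
  push_cast at h1
  exact h1

lemma Wd_mem {A : ℝ} {D : R2} (h : ∀ x : ℝ, A ≤ x → evc x D ≠ 0) : (A : ℂ) ∈ Wd A D :=
  Wd_ray h A le_rfl

lemma Wd_pre {A : ℝ} {D : R2} (h : ∀ x : ℝ, A ≤ x → evc x D ≠ 0) : IsPreconnected (Wd A D) :=
  ((Wd_star A D).isPathConnected (Wd_mem h)).isConnected.isPreconnected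

/-- the star shaped domain meets every open set -/
lemma Wd_meets {A : ℝ} {D : R2} (hD : D ≠ 0) (h : ∀ x : ℝ, A ≤ x → evc x D ≠ 0) {Ω : Set ℂ}
    (hΩ : IsOpen Ω) (hne : Ω.Nonempty) : ∃ w ∈ Ω, w ∈ Wd A D := by
  obtain ⟨t₀, ht₀⟩ := hne
  obtain ⟨w, hw, hwA⟩ : ∃ w ∈ Ω, w ≠ A := by
    have hinf : Ω.Infinite := infinite_of_mem_nhds t₀ (hΩ.mem_nhds ht₀)
    obtain ⟨w, hw, hw'⟩ := hinf.exists_notMem_finite (Set.finite_singleton (A : ℂ))
    exact ⟨w, hw, hw'⟩
  by_contra hcon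
  push Not at hcon
  have hwA' : w - A ≠ 0 := sub_ne_zero.2 hwA
  -- the path
  have hcont : Continuous (fun τ : ℝ => (A : ℂ) + (w - A) * (1 + τ * Complex.I)) := by fun_prop
  have h0 : (A : ℂ) + (w - A) * (1 + ((0:ℝ) : ℂ) * Complex.I) ∈ Ω := by
    have : (A : ℂ) + (w - A) * (1 + ((0:ℝ) : ℂ) * Complex.I) = w := by
      push_cast
      ring
    rw [this]
    exact hw
  have h1 := (hcont.tendsto 0).eventually (hΩ.mem_nhds h0)
  obtain ⟨ε, hε, h2⟩ := Metric.eventually_nhds_iff.1 h1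
  have h3 : Ioo 0 ε ⊆ (fun z : ℂ => ((z - A) / (w - A)).im / ((z - A) / (w - A)).re) ''
      {z : ℂ | evc z D = 0} := by
    intro τ hτ
    have h4 := h2 (y := τ) (by
      rw [dist_zero_right, Real.norm_of_nonneg hτ.1.le]
      exact hτ.2)
    have h5 := hcon _ h4
    simp only [Wd, mem_ofPred_eq, not_forall, not_not] at h5
    obtain ⟨t, ht, h6⟩ := h5
    refine ⟨_, h6, ?_⟩
    have h7 : t ≠ 0 := by
      rintro rfl
      rw [Complex.ofReal_zero, zero_mul, add_zero] at h6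
      exact h A le_rfl h6
    have h8 : ((A : ℂ) + t * (A + (w - A) * (1 + τ * Complex.I) - A) - A) / (w - A) =
        ((t : ℝ) : ℂ) + ((t * τ : ℝ) : ℂ) * Complex.I := by
      push_cast
      field_simp
      ring
    simp only
    rw [h8]
    have h9 : (((t : ℝ) : ℂ) + ((t * τ : ℝ) : ℂ) * Complex.I).im = t * τ := by simp
    have h10 : (((t : ℝ) : ℂ) + ((t * τ : ℝ) : ℂ) * Complex.I).re = t := by simp
    rw [h9, h10, mul_div_cancel_left₀ _ h7]
  have h4 : (Ioo 0 ε).Countable := ((zeros_countable hD).image _).mono h3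
  rw [Cardinal.Real.Ioo_countable_iff] at h4
  linarith

end Pool.Agent.TH814.GS
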